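import Pool.Agent.Lib_helper26.SNF.NF
import Pool.Agent.Lib_helper26.SDN.TR
import Pool.Agent.Lib_helper26.SDN.LO
import Pool.Agent.Lib_helper8.SDF.Asy

/-!
Every large set of nonzero elements of an abelian group is sequenceable.
-/

namespace Pool.Agent.SNF

open Finset Pool.Agent.SDN

theorem all_large : ∃ K : ℕ, ∀ {G : Type*} [AddCommGroup G] (A : Finset G), (0 : G) ∉ A →
    K ≤ A.card →
    ∃ a : Fin A.card → G, Function.Injective a ∧ Set.range a = (A : Set G) ∧
      ∀ i j : ℕ, i < j → j ≤ A.card → ¬ (i = 0 ∧ j = A.card) →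
        ∑ m : Fin A.card with m.val < i, a m ≠ ∑ m : Fin A.card with m.val < j, a m := by
  classical
  obtain ⟨C, K₁, h1⟩ := near_full
  obtain ⟨K₂, h2⟩ := SDF.asy_main (1 / ((C : ℝ) + 1)) (by positivity)
  refine ⟨K₁ + K₂, fun {G} _ A h0 hK => ?_⟩
  by_cases hV : ∃ V : AddSubgroup G, (V : Set G).Finite ∧
      (Nat.card V : ℝ) ≤ (1 + 1 / ((C : ℝ) + 1)) * A.card ∧ (A : Set G) ⊆ V
  · obtain ⟨V, hVf, hVc, hAV⟩ := hV
    obtain ⟨V₀, _, _, φ, hφ, hφr⟩ := transport V hVf
    set A₀ : Finset V₀ := univ.filter fun x => φ x ∈ A with hA₀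
    have himg : A₀.image φ = A := by
      ext x
      rw [mem_image]
      constructor
      · rintro ⟨y, hy, rfl⟩
        exact (mem_filter.1 hy).2
      · intro hx
        have h3 : x ∈ Set.range φ := by
          rw [hφr]
          exact hAV hx
        obtain ⟨y, rfl⟩ := h3
        exact ⟨y, mem_filter.2 ⟨mem_univ _, hx⟩, rfl⟩
    have hcard : A₀.card = A.card := by
      rw [← himg, card_image_of_injective _ hφ]
    have hVcard : Nat.card V = Fintype.card V₀ := by
      rw [← Nat.card_eq_fintype_card]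
      have h3 : Nat.card V = (V : Set G).ncard := by
        rw [← Nat.card_coe_set_eq]
        rfl
      rw [h3, ← hφr, ← Set.image_univ, Set.ncard_image_of_injective _ hφ, Set.ncard_univ]
    have hle : A₀.card ≤ Fintype.card V₀ := card_le_univ _
    obtain ⟨l, hl1, hl2, hl3, hl4⟩ := h1 A₀ (by omega) (fun h => h0 (by
        have := (mem_filter.1 h).2
        rwa [map_zero] at this)) (by
      rw [hcard]
      rw [hVcard] at hVc
      have h3 : (Fintype.card V₀ : ℝ) - A.card ≤ 1 / ((C : ℝ) + 1) * A.card := by linarith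
      have h4 : (C : ℝ) * ((Fintype.card V₀ : ℝ) - A.card) ≤ A.card := by
        have h5 : (0 : ℝ) ≤ A.card := Nat.cast_nonneg _
        have h6 : (C : ℝ) * (1 / ((C : ℝ) + 1) * A.card) ≤ A.card := by
          have h7 : (C : ℝ) * (1 / ((C : ℝ) + 1)) ≤ 1 := by
            rw [mul_one_div, div_le_one (by positivity)]
            linarith
          nlinarith
        exact (mul_le_mul_of_nonneg_left h3 (Nat.cast_nonneg _)).trans h6
      have h5 : ((C * (Fintype.card V₀ - A.card) : ℕ) : ℝ) ≤ A.card := by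
        rw [Nat.cast_mul, Nat.cast_sub (by omega)]
        exact h4
      have h6 : C * (Fintype.card V₀ - A.card) ≤ A.card := by exact_mod_cast h5
      omega)
    refine ordering_of_list A (l.map φ) (hl1.map hφ) (fun x => ?_) ?_ ?_
    · rw [List.mem_map]
      constructor
      · rintro ⟨y, hy, rfl⟩
        exact (mem_filter.1 ((hl2 y).1 hy)).2
      · intro hx
        rw [← himg, mem_image] at hx
        obtain ⟨y, hy, rfl⟩ := hx
        exact ⟨y, (hl2 y).2 hy, rfl⟩
    · rw [← map_zero φ, vs_map]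
      exact hl3.map hφ
    · rw [← map_zero φ, vs_map, ← List.map_dropLast, List.mem_map]
      rintro ⟨y, hy, hy0⟩
      have h3 : y = 0 := hφ (by rw [hy0])
      exact hl4 (h3 ▸ hy)
  · obtain ⟨a, ha, hr, hs⟩ := h2 A h0 (by omega)
    exact ⟨a, ha, hr, fun i j hij hj hne => hs i j hij hj hne fun h => absurd h hV⟩

end Pool.Agent.SNF
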