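import Pool.Agent.Lib_helper26.SNF.Defs
import Pool.Agent.Lib_helper26.SDN.VX
import Pool.Agent.Lib_helper26.SDN.CH

/-! Block CP (project SNF). -/

namespace Pool.Agent.SNF

open Finset Pool.Agent.SDN

lemma CP_cl {V : Type*} {s : ℕ} (q : List V) :
    cl (q.map fun a => (a, (none : Option (Fin s)))) = q := by
  simp [cl, Function.comp_def]

lemma CP_rv {V : Type*} [AddCommGroup V] (Z : Fin 0 → Fin 1 → V) (c : V)
    (T : List (V × Option (Fin 0))) : rv Z c T = vs c (cl T) := by
  have h : T = (cl T).map fun a => (a, (none : Option (Fin 0))) := by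
    unfold cl
    rw [List.map_map]
    conv_lhs => rw [← List.map_id T]
    apply List.map_congr_left
    rintro ⟨a, o⟩ -
    cases o with
    | none => rfl
    | some z => exact z.elim0
  conv_lhs => rw [h, rv_none]

theorem chain_plain {V : Type*} [AddCommGroup V] (n : ℕ) (A0 A1 : V) (v : Fin n → V)
    (L : Fin n → List V) (l : Fin (n + 1) → List V) (hl : ∀ i, l i ≠ [])
    (A E : Fin (n + 1) → V) (hA0 : A 0 = A0) (hA : ∀ i : Fin n, A i.succ = v i + (L i).sum)
    (hE : ∀ i : Fin n, E i.castSucc = v i) (hE1 : E (Fin.last n) = A1)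
    (hs : ∀ i, A i + (l i).sum = E i) :
    ∃ k : List V, k ≠ [] ∧ A0 + k.sum = A1 ∧
      k.Perm ((List.ofFn l).flatten ++ (List.ofFn L).flatten) ∧
      vs A0 k = (vs A0 k).dropLast ++ [A1] ∧
      (vs A0 k).dropLast.Perm ((List.ofFn fun i => (vs (A i) (l i)).dropLast).flatten ++
        (List.ofFn fun i => v i :: vs (v i) (L i)).flatten) := by
  obtain ⟨Tm, h1, h2, h3, -, h5⟩ := chain_one (fun (_ : Fin 0) (_ : Fin 1) => (0 : V)) n A0 A1 v
    (fun i => (L i).map fun a => (a, (none : Option (Fin 0)))) l hl A E hA0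
    (fun i => by rw [CP_cl]; exact hA i) hE hE1
    (fun i => by rw [← hs i]; abel)
  simp only [CP_cl, rv_none] at h3 h5
  rw [CP_rv] at h5
  have hne : cl Tm ≠ [] := by
    unfold cl
    rw [ne_eq, List.map_eq_nil_iff]
    exact h1
  have hsum : A0 + (cl Tm).sum = A1 := by rw [h2]; abel
  refine ⟨cl Tm, hne, hsum, h3, ?_, h5⟩
  have h6 := vs_last A0 (cl Tm) hne
  rw [hsum] at h6
  exact h6

lemma CP_single {V : Type*} {n : ℕ} (f : Fin n → V) :
    (List.ofFn fun i => [f i]).flatten = List.ofFn f := by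
  induction n with
  | zero => simp
  | succ n ih => rw [List.ofFn_succ, List.ofFn_succ, List.flatten_cons, ih]; rfl

lemma CP_pair {V : Type*} {n : ℕ} (x y : Fin n → V) :
    ((List.ofFn fun i => [x i, y i]).flatten).Perm (List.ofFn x ++ List.ofFn y) := by
  induction n with
  | zero => simp
  | succ n ih =>
    rw [List.ofFn_succ, List.flatten_cons, List.ofFn_succ (f := x), List.ofFn_succ (f := y)]
    refine (List.Perm.append_left _ (ih _ _)).trans ?_
    show (x 0 :: y 0 :: (List.ofFn (fun i => x i.succ) ++ List.ofFn (fun i => y i.succ))).Perm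
      (x 0 :: (List.ofFn (fun i => x i.succ) ++ y 0 :: List.ofFn (fun i => y i.succ)))
    exact List.Perm.cons _ List.perm_middle.symm

theorem chain_two {V : Type*} [AddCommGroup V] {n : ℕ} (c w : V) (p e : Fin n → V)
    (x y : Fin (n + 1) → V) (h : ∀ i, (Fin.cons c e : Fin (n + 1) → V) i + x i + y i =
      (Fin.snoc p w : Fin (n + 1) → V) i) (L : Fin n → List V)
    (hL : ∀ i, p i + (L i).sum = e i) :
    ∃ k : List V, k ≠ [] ∧ c + k.sum = w ∧
      k.Perm (List.ofFn x ++ (List.ofFn y ++ (List.ofFn L).flatten)) ∧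
      vs c k = (vs c k).dropLast ++ [w] ∧
      (vs c k).dropLast.Perm (List.ofFn (fun i => (Fin.cons c e : Fin (n + 1) → V) i + x i) ++
        (List.ofFn fun i => p i :: vs (p i) (L i)).flatten) := by
  obtain ⟨k, h1, h2, h3, h4, h5⟩ := chain_plain n c w p L (fun i => [x i, y i]) (fun i => by simp)
    (Fin.cons c e) (Fin.snoc p w) rfl (fun i => by rw [Fin.cons_succ, hL])
    (fun i => by rw [Fin.snoc_castSucc]) (by rw [Fin.snoc_last])
    (fun i => by rw [← h i]; simp [add_assoc])
  refine ⟨k, h1, h2, ?_, h4, ?_⟩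
  · refine h3.trans ?_
    rw [← List.append_assoc]
    exact (CP_pair x y).append_right _
  · have e1 : (fun i => (vs ((Fin.cons c e : Fin (n + 1) → V) i) [x i, y i]).dropLast) =
        fun i => [(Fin.cons c e : Fin (n + 1) → V) i + x i] := by
      funext i
      rfl
    rw [e1, CP_single] at h5
    exact h5

end Pool.Agent.SNF
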