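import Pool.Agent.Lib_helper26.SNF.Defs
import Pool.Agent.Lib_helper26.SDN.LA
import Pool.Agent.Lib_helper26.SDN.VX

/-! Block CS (project SNF): the two vertex classes. -/

namespace Pool.Agent.SNF

open Finset Pool.Agent.SDN

theorem CS_card_le_one {α : Type*} (S : Finset α) (h : ∀ x ∈ S, ∀ y ∈ S, x = y) :
    S.card ≤ 1 := Finset.card_le_one.2 h

theorem CS_split {s : ℕ} (p q : Fin s → Prop) {_dp : DecidablePred p} {_dq : DecidablePred q}
    (E : Finset (Fin s)) (b : ℕ) (hE : E.card ≤ b)
    (h : ∀ z, p z → z ∉ E → q z) (x : ℝ)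
    (hx : x ≤ ((univ.filter fun z => p z).card : ℝ)) :
    x - b ≤ ((univ.filter fun z => q z).card : ℝ) := by
  have h1 : (univ.filter fun z => p z) ⊆ (univ.filter fun z => q z) ∪ E := by
    intro z hz
    simp only [mem_union, mem_filter, mem_univ, true_and] at hz ⊢
    by_cases hzE : z ∈ E
    · exact Or.inr hzE
    · exact Or.inl (h z hz hzE)
  have h2 := (card_le_card h1).trans (card_union_le _ _)
  have h3 : ((univ.filter fun z => p z).card : ℝ) ≤
      ((univ.filter fun z => q z).card : ℝ) + b := by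
    exact_mod_cast h2.trans (Nat.add_le_add_left hE _)
  linarith

theorem CS_vdisj {G : Type*} [AddCommGroup G] {s M : ℕ} {R : Finset G} {y : G}
    {L : Fin s → List G} (hL : Lnk R y M L) (u x : G) {z z' : Fin s}
    (h : x ∈ (vs u (L z)).dropLast) (h' : x ∈ (vs u (L z')).dropLast) : z = z' := by
  by_contra hne
  have e : ∀ z, (vs u (L z)).dropLast = (vs 0 (L z)).dropLast.map (· + u) := by
    intro z
    have : vs u (L z) = (vs 0 (L z)).map (· + u) := by
      rw [← vs_translate, zero_add]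
    rw [this, List.map_dropLast]
  rw [e, List.mem_map] at h h'
  obtain ⟨a, ha, hax⟩ := h
  obtain ⟨a', ha', hax'⟩ := h'
  have : a = a' := add_right_cancel (hax.trans hax'.symm)
  subst this
  exact hL.vdisj z z' hne ha ha'

open Classical in
theorem classes (m t N M : ℕ) (hm : 3 ≤ m) (ht : 2 ≤ t) (hN : 2 ≤ N) : ∃ K : ℕ,
    ∀ {G : Type} [AddCommGroup G] [Fintype G] {s s₂ : ℕ} (Z : Fin s → Fin m → G)
      (B : Finset G) (c : Fin (t * s) → G) (R : Finset G) (L : G → Fin s₂ → List G) (T : G),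
      K ≤ Fintype.card G → 0 < s → Fam B 0 Z → Function.Injective c → (∀ i, c i ≠ 0) →
      (∀ y, y ≠ 0 → Lnk R y M (L y)) →
      ∃ Φ₀ Φ₁ : Finset G, Disjoint Φ₀ Φ₁ ∧ (0 : G) ∉ Φ₀ ∧ (0 : G) ∉ Φ₁ ∧ T ∉ Φ₀ ∧ T ∉ Φ₁ ∧
        (Φ₀.card : ℝ) ≤ (Fintype.card G : ℝ) / N + (Fintype.card G : ℝ) ^ (2 / 3 : ℝ) ∧
        (Φ₁.card : ℝ) ≤ (Fintype.card G : ℝ) / N + (Fintype.card G : ℝ) ^ (2 / 3 : ℝ) ∧
        (∀ u y : G, y ≠ 0 →
          (s₂ : ℝ) / (N : ℝ) ^ (M + m) - (Fintype.card G : ℝ) ^ (2 / 3 : ℝ) - 2 ≤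
          ((univ.filter fun z => ∀ i ∈ (vs u (L y z)).dropLast, i ∈ Φ₁).card : ℝ)) ∧
        (∀ c' : Fin (m + 1) → G,
          (s : ℝ) / (N : ℝ) ^ (2 * m + 1) - (Fintype.card G : ℝ) ^ (2 / 3 : ℝ) -
            (2 * m + 3) ≤
          ((univ.filter fun z => (∀ i, P (Z z) 1 + c' i ∈ Φ₀) ∧
            ∀ j, 2 ≤ j → j < m → T + P (Z z) j ∈ Φ₀).card : ℝ)) := by
  obtain ⟨K, hK⟩ := labels 2 t m 0 N M (le_refl 2) ht hm hN (fun i => Fin.elim0 i)
  refine ⟨K, ?_⟩
  intro G _ _ s s₂ Z B c R L T hKG hs hZ hc hc0 hL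
  obtain ⟨lab, h1, -, -, h4, h5⟩ := hK Z B c R L T hKG hs hZ hc hc0 hL
  have hcl : ∀ (l : ℕ) (_ : l < N),
      ((univ.filter fun u => ((lab u : Fin N) : ℕ) = l ∧ u ≠ 0 ∧ u ≠ T).card : ℝ) ≤
        (Fintype.card G : ℝ) / N + (Fintype.card G : ℝ) ^ (2 / 3 : ℝ) := by
    intro l hl
    have h := abs_le.1 (h1 ⟨l, hl⟩)
    have h' : (univ.filter fun u => ((lab u : Fin N) : ℕ) = l ∧ u ≠ 0 ∧ u ≠ T).card ≤
        (univ.filter fun u => lab u = ⟨l, hl⟩).card := by
      apply card_le_card
      intro u hu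
      simp only [mem_filter, mem_univ, true_and] at hu ⊢
      exact Fin.ext hu.1
    have h'' : ((univ.filter fun u => ((lab u : Fin N) : ℕ) = l ∧ u ≠ 0 ∧ u ≠ T).card : ℝ) ≤
        ((univ.filter fun u => lab u = ⟨l, hl⟩).card : ℝ) := by exact_mod_cast h'
    linarith [h.2]
  refine ⟨univ.filter fun u => ((lab u : Fin N) : ℕ) = 0 ∧ u ≠ 0 ∧ u ≠ T,
    univ.filter fun u => ((lab u : Fin N) : ℕ) = 1 ∧ u ≠ 0 ∧ u ≠ T, ?_, ?_, ?_, ?_, ?_,
    hcl 0 (by omega), hcl 1 (by omega), ?_, ?_⟩
  · rw [Finset.disjoint_left]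
    intro a ha ha'
    simp only [mem_filter, mem_univ, true_and] at ha ha'
    omega
  · simp
  · simp
  · simp
  · simp
  · intro u y hy
    refine CS_split (fun z => ∀ i ∈ (vs u (L y z)).dropLast, ((lab i : Fin N) : ℕ) = 1) _
      ((univ.filter fun z => (0 : G) ∈ (vs u (L y z)).dropLast) ∪
        (univ.filter fun z => T ∈ (vs u (L y z)).dropLast)) 2 ?_ ?_ _ (h4 u y hy) |>.trans' ?_
    · refine (card_union_le _ _).trans ?_
      have e1 := CS_card_le_one (univ.filter fun z => (0 : G) ∈ (vs u (L y z)).dropLast)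
        (by
          intro z hz z' hz'
          simp only [mem_filter, mem_univ, true_and] at hz hz'
          exact CS_vdisj (hL y hy) u 0 hz hz')
      have e2 := CS_card_le_one (univ.filter fun z => T ∈ (vs u (L y z)).dropLast)
        (by
          intro z hz z' hz'
          simp only [mem_filter, mem_univ, true_and] at hz hz'
          exact CS_vdisj (hL y hy) u T hz hz')
      omega
    · intro z hz hzE i hi
      simp only [mem_union, mem_filter, mem_univ, true_and, not_or] at hzE ⊢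
      refine ⟨hz i hi, ?_, ?_⟩
      · rintro rfl
        exact hzE.1 hi
      · rintro rfl
        exact hzE.2 hi
    · norm_num
  · intro c'
    have hinj := LA_a_inj hm hZ
    refine CS_split (fun z => (∀ i, ((lab (P (Z z) 1 + c' i) : Fin N) : ℕ) = 0) ∧
            ∀ j, 2 ≤ j → j < m → ((lab (T + P (Z z) j) : Fin N) : ℕ) = 0) _
      (((univ : Finset (Fin (m + 1))).biUnion fun i =>
          (univ.filter fun z => P (Z z) 1 + c' i = 0) ∪
          (univ.filter fun z => P (Z z) 1 + c' i = T)) ∪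
        (univ.filter fun z => ∃ j, 2 ≤ j ∧ j < m ∧ T + P (Z z) j = 0)) (2 * m + 3) ?_ ?_ _
        (h5 c') |>.trans' ?_
    · refine (card_union_le _ _).trans ?_
      have e1 : ((univ : Finset (Fin (m + 1))).biUnion fun i =>
          (univ.filter fun z => P (Z z) 1 + c' i = 0) ∪
          (univ.filter fun z => P (Z z) 1 + c' i = T)).card ≤ (m + 1) * 2 := by
        have := Finset.card_biUnion_le_card_mul (univ : Finset (Fin (m + 1))) (fun i =>
          (univ.filter fun z => P (Z z) 1 + c' i = 0) ∪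
          (univ.filter fun z => P (Z z) 1 + c' i = T)) 2 (by
            intro i _
            refine (card_union_le _ _).trans ?_
            have e1 := CS_card_le_one (univ.filter fun z => P (Z z) 1 + c' i = 0)
              (by
                intro z hz z' hz'
                simp only [mem_filter, mem_univ, true_and] at hz hz'
                exact hinj (add_right_cancel (hz.trans hz'.symm)))
            have e2 := CS_card_le_one (univ.filter fun z => P (Z z) 1 + c' i = T)
              (by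
                intro z hz z' hz'
                simp only [mem_filter, mem_univ, true_and] at hz hz'
                exact hinj (add_right_cancel (hz.trans hz'.symm)))
            omega)
        simpa using this
      have e2 := CS_card_le_one (univ.filter fun z => ∃ j, 2 ≤ j ∧ j < m ∧ T + P (Z z) j = 0)
        (by
          intro z hz z' hz'
          simp only [mem_filter, mem_univ, true_and] at hz hz'
          obtain ⟨j, hj, hjm, hj0⟩ := hz
          obtain ⟨j', hj', hjm', hj0'⟩ := hz'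
          by_contra hne
          exact hZ.pre z z' j j' hne (by omega) hjm (by omega) hjm'
            (add_left_cancel (hj0.trans hj0'.symm)))
      omega
    · rintro z ⟨hz1, hz2⟩ hzE
      simp only [mem_union, mem_biUnion, mem_filter, mem_univ, true_and, not_or, not_exists,
        not_and] at hzE ⊢
      refine ⟨fun i => ⟨hz1 i, (hzE.1 i).1, (hzE.1 i).2⟩, fun j hj hjm =>
        ⟨hz2 j hj hjm, hzE.2 j hj hjm, ?_⟩⟩
      intro h
      have h0 : P (Z z) j = 0 := by simpa using h
      refine hZ.win z 0 j (by omega) hjm.le (by omega) ?_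
      rw [h0]
      simp [P]
    · push_cast
      linarith

end Pool.Agent.SNF
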