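import Pool.Agent.Lib_helper26.SNF.Defs
import Pool.Agent.Lib_helper26.SDN.VX

/-! Block CW (project SNF). -/

namespace Pool.Agent.SNF

open Finset Pool.Agent.SDN

theorem CW_len {G : Type} [AddCommGroup G] {s m : ℕ} (hm : 3 ≤ m) (Z : Fin s → Fin m → G)
    (u a : G) (z : Fin s) : (det Z u a z).length = m := by
  unfold det
  rw [List.length_append, List.length_map, List.length_range, List.length_singleton]
  omega

open Classical in
theorem CW_det {G : Type} [AddCommGroup G] {s m : ℕ} (hm : 3 ≤ m) (Z : Fin s → Fin m → G)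
    (u a : Fin s → G) (hN : ((List.ofFn fun z => det Z (u z) (a z) z).flatten).Nodup)
    (U : Finset (Fin s)) :
    ((univ \ U).biUnion fun z => (det Z (u z) (a z) z).toFinset).card + m * U.card = m * s := by
  rw [List.nodup_flatten] at hN
  obtain ⟨h1, h2⟩ := hN
  rw [List.pairwise_ofFn] at h2
  have hnd : ∀ z, (det Z (u z) (a z) z).Nodup := fun z => h1 _ (by
    rw [List.mem_ofFn]
    exact ⟨z, rfl⟩)
  have hlt : ∀ z z' : Fin s, z < z' →
      Disjoint (det Z (u z) (a z) z).toFinset (det Z (u z') (a z') z').toFinset := by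
    intro z z' h
    rw [Finset.disjoint_left]
    intro x hx hx'
    rw [List.mem_toFinset] at hx hx'
    exact h2 h hx hx'
  rw [Finset.card_biUnion]
  · have h3 : ∀ z ∈ univ \ U, ((det Z (u z) (a z) z).toFinset).card = m := by
      intro z _
      rw [List.toFinset_card_of_nodup (hnd z), CW_len hm]
    rw [Finset.sum_congr rfl h3, Finset.sum_const, smul_eq_mul]
    have h4 := Finset.card_sdiff_add_card_eq_card (Finset.subset_univ U)
    rw [Finset.card_univ, Fintype.card_fin] at h4
    calc (univ \ U).card * m + m * U.card = m * ((univ \ U).card + U.card) := by ring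
      _ = m * s := by rw [h4]
  · intro z _ z' _ hne
    rcases lt_or_gt_of_ne hne with h | h
    · exact hlt z z' h
    · exact (hlt z' z h).symm

open Classical in
/-- the number of elements of `W` which are left over is `h` -/
theorem count_left {G : Type} [AddCommGroup G] [Fintype G] {s m : ℕ} {A Om R : Finset G}
    (Φ₀ Φ₁ : Finset G) {Z : Fin s → Fin m → G} {h q : ℕ} {W D Q : Finset G} {p e : Fin q → G}
    {u a : Fin s → G} {w₁ w₂ w₃ : G} {x₁ y₁ : Fin (q + 1) → G} {x₂ y₂ : Fin (s + 1) → G}
    (hF : Front A Om R (Φ₀ ∪ Φ₁) Z h q W D Q p e u a w₁ w₂ w₃ x₁ y₁ x₂ y₂) (hm : 3 ≤ m)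
    (hΦ : Disjoint Φ₀ Φ₁) (X B : Finset G) (hXW : Disjoint X W) (hXB : X.card = B.card)
    (hBR : Disjoint B R) (k : List G) (hkn : k.Nodup) (hk : ∀ a ∈ k, a ∈ B ∨ a ∈ R)
    (hv : (vs w₂ k).dropLast.Nodup) (hvX : ∀ x ∈ X, x ∈ (vs w₂ k).dropLast)
    (hvΦ : ∀ x ∈ (vs w₂ k).dropLast, x ∈ X ∨ x ∈ Φ₁) (hk0 : k ≠ []) (U : Finset (Fin s))
    (l : List G) (hl : l.Perm (((B ∪ R) \ k.toFinset).toList ++
      U.toList.flatMap fun z => List.ofFn (Z z))) (hl0 : l ≠ [])
    (hln : (vs w₃ l).dropLast.Nodup) (hlΦ : ∀ x ∈ (vs w₃ l).dropLast, x ∈ Φ₀) :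
    (W \ (((univ \ U).biUnion fun z => (det Z (u z) (a z) z).toFinset) ∪
      ((vs w₂ k).dropLast.toFinset ∩ Φ₁) ∪ (vs w₃ l).dropLast.toFinset)).card = h := by
  have hdet := CW_det hm Z u a hF.detN U
  set D1 := (univ \ U).biUnion fun z => (det Z (u z) (a z) z).toFinset with hD1
  set D2 := (vs w₂ k).dropLast.toFinset ∩ Φ₁ with hD2
  set D3 := (vs w₃ l).dropLast.toFinset with hD3
  have hΦW := hF.ΦW
  -- memberships
  have m1 : ∀ x ∈ D1, x ∈ W ∧ x ∉ Φ₀ ∪ Φ₁ := by
    intro x hx
    rw [hD1, Finset.mem_biUnion] at hx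
    obtain ⟨z, _, hz⟩ := hx
    exact hF.detW z x (List.mem_toFinset.1 hz)
  have m2 : ∀ x ∈ D2, x ∈ Φ₁ := fun x hx => (Finset.mem_inter.1 hx).2
  have m3 : ∀ x ∈ D3, x ∈ Φ₀ := fun x hx => hlΦ x (List.mem_toFinset.1 hx)
  have d12 : Disjoint D1 D2 := by
    rw [Finset.disjoint_left]
    intro x h1 h2
    exact (m1 x h1).2 (Finset.mem_union_right _ (m2 x h2))
  have d13 : Disjoint D1 D3 := by
    rw [Finset.disjoint_left]
    intro x h1 h2
    exact (m1 x h1).2 (Finset.mem_union_left _ (m3 x h2))
  have d23 : Disjoint D2 D3 := by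
    rw [Finset.disjoint_left]
    intro x h1 h2
    exact (Finset.disjoint_left.1 hΦ) (m3 x h2) (m2 x h1)
  have hsub : D1 ∪ D2 ∪ D3 ⊆ W := by
    intro x hx
    rcases Finset.mem_union.1 hx with hx | hx
    · rcases Finset.mem_union.1 hx with hx | hx
      · exact (m1 x hx).1
      · exact hΦW (Finset.mem_union_right _ (m2 x hx))
    · exact hΦW (Finset.mem_union_left _ (m3 x hx))
  -- the second set
  have c2 : D2.card + X.card + 1 = k.length := by
    have e1 : (vs w₂ k).dropLast.toFinset = X ∪ D2 := by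
      ext x
      rw [Finset.mem_union, hD2, Finset.mem_inter]
      constructor
      · intro hx
        rcases hvΦ x (List.mem_toFinset.1 hx) with h1 | h1
        · exact Or.inl h1
        · exact Or.inr ⟨hx, h1⟩
      · rintro (h1 | h1)
        · exact List.mem_toFinset.2 (hvX x h1)
        · exact h1.1
    have e2 : Disjoint X D2 := by
      rw [Finset.disjoint_left]
      intro x h1 h2
      exact (Finset.disjoint_left.1 hXW) h1 (hΦW (Finset.mem_union_right _ (m2 x h2)))
    have e3 : (vs w₂ k).dropLast.toFinset.card = k.length - 1 := by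
      rw [List.toFinset_card_of_nodup hv, List.length_dropLast, vs_length]
    rw [e1, Finset.card_union_of_disjoint e2] at e3
    have e4 : 0 < k.length := List.length_pos_of_ne_nil hk0
    omega
  -- the third set
  have c3 : D3.card + 1 = l.length := by
    rw [hD3, List.toFinset_card_of_nodup hln, List.length_dropLast, vs_length]
    have := List.length_pos_of_ne_nil hl0
    omega
  have c4 : l.length + k.length = B.card + R.card + m * U.card := by
    have e1 : (U.toList.flatMap fun z => List.ofFn (Z z)).length = m * U.card := by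
      rw [List.length_flatMap]
      have : (fun z : Fin s => (List.ofFn (Z z)).length) = fun _ => m := by
        funext z
        simp
      rw [this]
      simp [mul_comm]
    have e2 : k.toFinset ⊆ B ∪ R := by
      intro x hx
      rw [Finset.mem_union]
      exact hk x (List.mem_toFinset.1 hx)
    have e3 := Finset.card_sdiff_add_card_eq_card e2
    rw [List.toFinset_card_of_nodup hkn, Finset.card_union_of_disjoint hBR] at e3
    rw [hl.length_eq, List.length_append, Finset.length_toList, e1]
    omega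
  have c5 : (D1 ∪ D2 ∪ D3).card = D1.card + D2.card + D3.card := by
    rw [Finset.card_union_of_disjoint (Finset.disjoint_union_left.2 ⟨d13, d23⟩),
      Finset.card_union_of_disjoint d12]
  have c6 := Finset.card_sdiff_add_card_eq_card hsub
  have hh := hF.hh
  have hW := hF.hW
  generalize hms : m * s = M at *
  generalize hmU : m * U.card = N at *
  omega

end Pool.Agent.SNF
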