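import Pool.Agent.Lib_helper26.SNF.Defs

/-! Block DM (project SNF). -/

namespace Pool.Agent.SNF

open Finset Pool.Agent.SDN

theorem dominant {ι : Type*} [Fintype ι] (d : ι → ℝ) (M : ι → ι → ℝ) (D δ : ℝ)
    (hδ : 0 ≤ δ) (hD : 2 * δ < D) (hd : ∀ i, D ≤ d i) (hM : ∀ i j, 0 ≤ M i j)
    (hMδ : ∀ i, ∑ j, M i j ≤ δ) : ∃ φ : ι → ℝ, (∀ i, d i * φ i - ∑ j, M i j * φ j = 1) ∧
      (∀ i, |φ i| ≤ 1 / (D - δ)) ∧ ∀ i, 1 - δ / (D - δ) ≤ d i * φ i := by
  classical
  rcases isEmpty_or_nonempty ι with hι | hι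
  · exact ⟨fun _ => 0, fun i => (hι.false i).elim, fun i => (hι.false i).elim,
      fun i => (hι.false i).elim⟩
  have hDδ : 0 < D - δ := by linarith
  set A : Matrix ι ι ℝ := Matrix.diagonal d - Matrix.of M with hA
  have hAii : ∀ i, A i i = d i - M i i := by
    intro i
    simp [hA]
  have hAij : ∀ i j, i ≠ j → A i j = -M i j := by
    intro i j hij
    simp [hA, Matrix.diagonal_apply_ne _ hij]
  have hdet : A.det ≠ 0 := by
    apply det_ne_zero_of_sum_row_lt_diag
    intro i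
    rw [hAii]
    have h1 : ∑ j ∈ Finset.univ.erase i, ‖A i j‖ = ∑ j ∈ Finset.univ.erase i, M i j := by
      refine Finset.sum_congr rfl fun j hj => ?_
      rw [hAij i j (Finset.ne_of_mem_erase hj).symm, norm_neg, Real.norm_eq_abs,
        abs_of_nonneg (hM i j)]
    have h2 : M i i + ∑ j ∈ Finset.univ.erase i, M i j = ∑ j, M i j :=
      Finset.add_sum_erase _ _ (Finset.mem_univ i)
    have h3 := hMδ i
    have h4 := hd i
    have h5 : 0 < d i - M i i := by
      have h6 : M i i ≤ ∑ j, M i j :=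
        Finset.single_le_sum (fun j _ => hM i j) (Finset.mem_univ i)
      linarith
    rw [h1, Real.norm_eq_abs, abs_of_pos h5]
    linarith
  have hunit : IsUnit A.det := isUnit_iff_ne_zero.2 hdet
  set φ : ι → ℝ := A⁻¹.mulVec (fun _ => 1) with hφ
  have hsol : A.mulVec φ = fun _ => 1 := by
    rw [hφ, Matrix.mulVec_mulVec, Matrix.mul_nonsing_inv A hunit, Matrix.one_mulVec]
  have heq : ∀ i, d i * φ i - ∑ j, M i j * φ j = 1 := by
    intro i
    have h1 := congrFun hsol i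
    rw [hA, Matrix.sub_mulVec, Pi.sub_apply, Matrix.mulVec_diagonal] at h1
    exact h1
  obtain ⟨i0, -, hi0⟩ := Finset.exists_max_image Finset.univ (fun i => |φ i|)
    Finset.univ_nonempty
  have hsum : ∀ i, |∑ j, M i j * φ j| ≤ δ * |φ i0| := by
    intro i
    calc |∑ j, M i j * φ j| ≤ ∑ j, |M i j * φ j| := Finset.abs_sum_le_sum_abs _ _
      _ ≤ ∑ j, M i j * |φ i0| := by
          refine Finset.sum_le_sum fun j _ => ?_
          rw [abs_mul, abs_of_nonneg (hM i j)]
          exact mul_le_mul_of_nonneg_left (hi0 j (Finset.mem_univ j)) (hM i j)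
      _ = (∑ j, M i j) * |φ i0| := by rw [Finset.sum_mul]
      _ ≤ δ * |φ i0| := mul_le_mul_of_nonneg_right (hMδ i) (abs_nonneg _)
  have hmax : |φ i0| ≤ 1 / (D - δ) := by
    have h1 := heq i0
    have h2 : d i0 * φ i0 = 1 + ∑ j, M i0 j * φ j := by linarith
    have h3 : d i0 * |φ i0| ≤ 1 + δ * |φ i0| := by
      have h4 : 0 ≤ d i0 := by linarith [hd i0]
      calc d i0 * |φ i0| = |d i0 * φ i0| := by rw [abs_mul, abs_of_nonneg h4]
        _ = |1 + ∑ j, M i0 j * φ j| := by rw [h2]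
        _ ≤ |1| + |∑ j, M i0 j * φ j| := abs_add_le _ _
        _ ≤ 1 + δ * |φ i0| := by
            rw [abs_one]
            linarith [hsum i0]
    have h5 : D * |φ i0| ≤ d i0 * |φ i0| := mul_le_mul_of_nonneg_right (hd i0) (abs_nonneg _)
    rw [le_div_iff₀ hDδ]
    linarith
  refine ⟨φ, heq, fun i => (hi0 i (Finset.mem_univ i)).trans hmax, fun i => ?_⟩
  have h1 := heq i
  have h2 : |∑ j, M i j * φ j| ≤ δ * (1 / (D - δ)) :=
    (hsum i).trans (mul_le_mul_of_nonneg_left hmax hδ)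
  have h3 := (abs_le.1 h2).1
  have h4 : δ / (D - δ) = δ * (1 / (D - δ)) := by ring
  rw [h4]
  linarith

end Pool.Agent.SNF
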