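import Pool.Agent.Lib_helper26.SDN.Defs

/-!
Definitions for the nearly full case of the Alspach-Liversidge conjecture (MP_b4ec45_co),
project SNF.
-/

namespace Pool.Agent.SNF

open Finset Pool.Agent.SDN

section
variable {G : Type*} [AddCommGroup G]

/-- the detour of the stock set `z` at the step `a` from `u`: the vertices
`u + P 1, .., u + P (m-1), u + a + P (m-1)` -/
def det {s m : ℕ} (Z : Fin s → Fin m → G) (u a : G) (z : Fin s) : List G :=
  (List.range (m - 1)).map (fun j => u + P (Z z) (j + 1)) ++ [u + a + P (Z z) (m - 1)]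

/-- private vertices of the front part -/
noncomputable def FV {q s : ℕ} (Q : Finset G) (e : Fin q → G) (u a : Fin s → G) (w₁ w₂ w₃ : G)
    (x₁ : Fin (q + 1) → G) (x₂ : Fin (s + 1) → G) : List G :=
  Q.toList ++ (List.ofFn (fun i => (Fin.cons 0 e : Fin (q + 1) → G) i + x₁ i) ++
    (List.ofFn u ++ (List.ofFn (fun z => u z + a z) ++
    (List.ofFn (fun i => (Fin.cons w₁ (fun z => u z + a z) : Fin (s + 1) → G) i + x₂ i) ++
    [w₁, w₂, w₃]))))

/-- colours of the front part -/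
noncomputable def FC {q s : ℕ} (D : Finset G) (a : Fin s → G) (x₁ y₁ : Fin (q + 1) → G)
    (x₂ y₂ : Fin (s + 1) → G) : List G :=
  D.toList ++ (List.ofFn x₁ ++ (List.ofFn y₁ ++ (List.ofFn a ++ (List.ofFn x₂ ++
    List.ofFn y₂))))

open Classical in
/-- the absorber property: for every `W' ⊆ W` with `h` elements the pieces `p i → e i` can be
realised with the colours `D` and the vertices `Q ∪ W'` -/
def Abs {q : ℕ} (h : ℕ) (W D Q : Finset G) (p e : Fin q → G) : Prop :=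
  ∀ W' ⊆ W, W'.card = h → ∃ l : Fin q → List G, (∀ i, p i + (l i).sum = e i) ∧
    ((List.ofFn l).flatten).Perm D.toList ∧
    ((List.ofFn fun i => p i :: vs (p i) (l i)).flatten).Perm (Q ∪ W').toList

/-- the front part: absorber, places of the stock sets, links, way points -/
structure Front {s m : ℕ} (A Om R Φ : Finset G) (Z : Fin s → Fin m → G) (h q : ℕ)
    (W D Q : Finset G) (p e : Fin q → G) (u a : Fin s → G) (w₁ w₂ w₃ : G)
    (x₁ y₁ : Fin (q + 1) → G) (x₂ y₂ : Fin (s + 1) → G) : Prop where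
  hh : h + 2 = m * s + R.card
  hW : W.card = 2 * h
  ΦW : Φ ⊆ W
  WO : W ⊆ Om
  QD : Q.card + h = D.card + q
  detW : ∀ z, ∀ x ∈ det Z (u z) (a z) z, x ∈ W ∧ x ∉ Φ
  detN : ((List.ofFn fun z => det Z (u z) (a z) z).flatten).Nodup
  ver : (FV Q e u a w₁ w₂ w₃ x₁ x₂).Nodup
  verO : ∀ x ∈ FV Q e u a w₁ w₂ w₃ x₁ x₂, x ∈ Om ∧ x ∉ W
  col : (FC D a x₁ y₁ x₂ y₂).Nodup
  colA : ∀ x ∈ FC D a x₁ y₁ x₂ y₂, x ∈ A ∧ x ∉ R ∧ ∀ z i, Z z i ≠ x
  eq₁ : ∀ i, (Fin.cons 0 e : Fin (q + 1) → G) i + x₁ i + y₁ i =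
    (Fin.snoc p w₁ : Fin (q + 1) → G) i
  eq₂ : ∀ i, (Fin.cons w₁ (fun z => u z + a z) : Fin (s + 1) → G) i + x₂ i + y₂ i =
    (Fin.snoc u w₂ : Fin (s + 1) → G) i
  abs : Abs h W D Q p e

end

end Pool.Agent.SNF
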