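import Pool.Agent.Lib_helper26.SNF.Defs
import Pool.Agent.Lib_helper26.SDN.VX

/-! Block EV (project SNF). -/

namespace Pool.Agent.SNF

open Finset Pool.Agent.SDN

open Classical in
theorem place_ex {V : Type*} [AddCommGroup V] {s m : ℕ} (hm : 1 ≤ m) (Z : Fin s → Fin m → V)
    (hZ : ∀ z, P (Z z) m = 0) (S : Finset (Fin s)) (u a : V) (z : Fin s) :
    (z ∈ S → vs u (ex Z S [(a, some z)]) = det Z u a z ++ [u + a] ∧
      (ex Z S [(a, some z)]).Perm (a :: List.ofFn (Z z))) ∧
    (z ∉ S → ex Z S [(a, some z)] = [a]) ∧ (det Z u a z).length = m ∧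
    u + (ex Z S [(a, some z)]).sum = u + a := by
  refine ⟨fun hz => ⟨?_, ?_⟩, fun hz => ?_, ?_, ?_⟩
  · have h1 : ((List.ofFn (Z z)).take (m - 1)).sum +
        ((List.ofFn (Z z)).drop (m - 1)).sum = 0 := by
      rw [← List.sum_append, List.take_append_drop, VX_sum_ofFn, hZ]
    have h2 := VX_drop hm (Z z)
    have h3 : u + ((List.ofFn (Z z)).take (m - 1)).sum + a +
        ((List.ofFn (Z z)).drop (m - 1)).sum = u + a := by
      calc _ = u + a + (((List.ofFn (Z z)).take (m - 1)).sum +
            ((List.ofFn (Z z)).drop (m - 1)).sum) := by abel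
        _ = u + a := by rw [h1, add_zero]
    have h4 : u + ((List.ofFn (Z z)).take (m - 1)).sum + a = u + a + P (Z z) (m - 1) := by
      rw [take_ofFn_sum]
      abel
    simp only [ex]
    rw [if_pos hz, List.append_nil, vs_append, VX_vs_take u (Z z) (m - 1) (by omega), vs, h2]
    simp only [vs]
    rw [h3, h4]
    unfold det
    rw [List.append_assoc]
    rfl
  · simp only [ex]
    rw [if_pos hz, List.append_nil]
    refine List.perm_middle.trans ?_
    rw [List.take_append_drop]
  · simp only [ex]
    rw [if_neg hz]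
    rfl
  · unfold det
    rw [List.length_append, List.length_map, List.length_range, List.length_singleton]
    omega
  · rw [ex_sum Z S hZ]
    simp [cl]

end Pool.Agent.SNF
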