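import Pool.Agent.Lib_helper26.SNF.Defs

/-! Block GS (project SNF). -/

namespace Pool.Agent.SNF

open Finset Pool.Agent.SDN

open Classical in
theorem greedy_sets {Θ Γ Δ : Type*} {q : ℕ} (good : Fin q → Θ → Prop)
    (col : Fin q → Θ → Finset Γ) (ver : Fin q → Θ → Finset Δ) (a b c v : ℕ)
    (ha : ∀ i θ, good i θ → (col i θ).card ≤ a ∧ (ver i θ).card ≤ b)
    (h : ∀ i (C : Finset Γ) (V : Finset Δ), C.card ≤ c → V.card ≤ v →
      ∃ θ, good i θ ∧ Disjoint (col i θ) C ∧ Disjoint (ver i θ) V)
    (C : Finset Γ) (V : Finset Δ) (hC : C.card + a * q ≤ c) (hV : V.card + b * q ≤ v) :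
    ∃ θ : Fin q → Θ,
      (∀ i, good i (θ i) ∧ Disjoint (col i (θ i)) C ∧ Disjoint (ver i (θ i)) V) ∧
      ∀ i j, i ≠ j → Disjoint (col i (θ i)) (col j (θ j)) ∧
        Disjoint (ver i (θ i)) (ver j (θ j)) := by
  have key : ∀ j : ℕ, j ≤ q → ∃ θ : Fin q → Θ,
      (∀ i : Fin q, i.val < j →
        good i (θ i) ∧ Disjoint (col i (θ i)) C ∧ Disjoint (ver i (θ i)) V) ∧
      ∀ i i' : Fin q, i.val < j → i'.val < j → i ≠ i' →
        Disjoint (col i (θ i)) (col i' (θ i')) ∧ Disjoint (ver i (θ i)) (ver i' (θ i')) := by
    intro j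
    induction j with
    | zero =>
      intro _
      rcases Nat.eq_zero_or_pos q with hq | hq
      · subst hq
        exact ⟨fun i => i.elim0, fun i => i.elim0, fun i => i.elim0⟩
      · obtain ⟨θ, -⟩ := h ⟨0, hq⟩ ∅ ∅ (by simp) (by simp)
        exact ⟨fun _ => θ, fun i hi => absurd hi (Nat.not_lt_zero _),
          fun i i' hi => absurd hi (Nat.not_lt_zero _)⟩
    | succ j ih =>
      intro hj
      obtain ⟨θ, h1, h2⟩ := ih (by omega)
      have hjq : j < q := hj
      set S : Finset (Fin q) := Finset.univ.filter (fun i => i.val < j) with hS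
      have hScard : S.card ≤ j := by
        have : S.card ≤ (Finset.range j).card := by
          refine Finset.card_le_card_of_injOn (fun i : Fin q => i.val) ?_ ?_
          · intro i hi
            simpa [hS] using hi
          · intro i _ i' _ hii
            exact Fin.ext hii
        simpa using this
      have hcC : (C ∪ S.biUnion (fun i => col i (θ i))).card ≤ c := by
        refine (Finset.card_union_le _ _).trans ?_
        have : (S.biUnion (fun i => col i (θ i))).card ≤ S.card * a := by
          refine Finset.card_biUnion_le_card_mul _ _ _ fun i hi => ?_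
          exact (ha i (θ i) (h1 i (by simpa [hS] using hi)).1).1
        have h3 : S.card * a ≤ a * q := by
          rw [mul_comm]
          exact Nat.mul_le_mul_left _ (hScard.trans hjq.le)
        omega
      have hcV : (V ∪ S.biUnion (fun i => ver i (θ i))).card ≤ v := by
        refine (Finset.card_union_le _ _).trans ?_
        have : (S.biUnion (fun i => ver i (θ i))).card ≤ S.card * b := by
          refine Finset.card_biUnion_le_card_mul _ _ _ fun i hi => ?_
          exact (ha i (θ i) (h1 i (by simpa [hS] using hi)).1).2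
        have h3 : S.card * b ≤ b * q := by
          rw [mul_comm]
          exact Nat.mul_le_mul_left _ (hScard.trans hjq.le)
        omega
      obtain ⟨t, ht1, ht2, ht3⟩ := h ⟨j, hjq⟩ _ _ hcC hcV
      rw [Finset.disjoint_union_right] at ht2 ht3
      have hne : ∀ i : Fin q, i.val < j → i ≠ ⟨j, hjq⟩ := by
        intro i hi hij
        rw [hij] at hi
        exact lt_irrefl _ hi
      have hd : ∀ i : Fin q, i.val < j → Disjoint (col ⟨j, hjq⟩ t) (col i (θ i)) ∧
          Disjoint (ver ⟨j, hjq⟩ t) (ver i (θ i)) := by
        intro i hi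
        have hiS : i ∈ S := by simpa [hS] using hi
        exact ⟨Finset.disjoint_of_subset_right
            (Finset.subset_biUnion_of_mem (fun i => col i (θ i)) hiS) ht2.2,
          Finset.disjoint_of_subset_right
            (Finset.subset_biUnion_of_mem (fun i => ver i (θ i)) hiS) ht3.2⟩
      have hlt : ∀ i : Fin q, i.val < j + 1 → i = ⟨j, hjq⟩ ∨ i.val < j := by
        intro i hi
        rcases Nat.lt_succ_iff_lt_or_eq.1 hi with h4 | h4
        · exact Or.inr h4
        · exact Or.inl (Fin.ext h4)
      refine ⟨Function.update θ ⟨j, hjq⟩ t, ?_, ?_⟩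
      · intro i hi
        rcases hlt i hi with h4 | h4
        · rw [h4, Function.update_self]
          exact ⟨ht1, ht2.1, ht3.1⟩
        · rw [Function.update_of_ne (hne i h4)]
          exact h1 i h4
      · intro i i' hi hi' hii
        rcases hlt i hi with h4 | h4
        · rcases hlt i' hi' with h5 | h5
          · exact absurd (h4.trans h5.symm) hii
          · rw [h4, Function.update_self, Function.update_of_ne (hne i' h5)]
            exact hd i' h5
        · rcases hlt i' hi' with h5 | h5
          · rw [h5, Function.update_self, Function.update_of_ne (hne i h4)]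
            exact ⟨(hd i h4).1.symm, (hd i h4).2.symm⟩
          · rw [Function.update_of_ne (hne i h4), Function.update_of_ne (hne i' h5)]
            exact h2 i i' h4 h5 hii
  obtain ⟨θ, h1, h2⟩ := key q le_rfl
  exact ⟨θ, fun i => h1 i i.isLt, fun i j hij => h2 i j i.isLt j.isLt hij⟩

end Pool.Agent.SNF
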