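import Pool.Agent.Lib_helper26.SNF.Defs
import Pool.Agent.Lib_helper26.SNF.GS

/-! Block FL (project SNF). -/

namespace Pool.Agent.SNF

open Finset Pool.Agent.SDN

open Classical in
theorem FL_half {G : Type*} [AddCommGroup G] [Fintype G] (w : G) (hw : w ≠ 0) :
    2 * (Finset.univ.filter (fun θ : G => θ + θ = w)).card ≤ Fintype.card G := by
  set S := Finset.univ.filter (fun θ : G => θ + θ = w) with hS
  set K := Finset.univ.filter (fun θ : G => θ + θ = 0) with hK
  rcases S.eq_empty_or_nonempty with h | ⟨θ0, h0⟩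
  · rw [h]
    simp
  · have h0' : θ0 + θ0 = w := by simpa [hS] using h0
    have h1 : S.card ≤ K.card := by
      refine Finset.card_le_card_of_injOn (fun θ => θ - θ0) ?_ ?_
      · intro θ hθ
        have hθ' : θ + θ = w := by simpa [hS] using hθ
        have : θ - θ0 + (θ - θ0) = 0 := by
          have h2 : θ - θ0 + (θ - θ0) = (θ + θ) - (θ0 + θ0) := by abel
          rw [h2, hθ', h0', sub_self]
        simpa [hK] using this
      · intro θ _ θ' _ hθ
        exact sub_left_injective hθ
    have hd : Disjoint S K := by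
      rw [Finset.disjoint_left]
      intro θ hθ hθ'
      have h2 : θ + θ = w := by simpa [hS] using hθ
      have h3 : θ + θ = 0 := by simpa [hK] using hθ'
      exact hw (h2.symm.trans h3)
    have h4 : (S ∪ K).card ≤ Fintype.card G := Finset.card_le_univ _
    rw [Finset.card_union_of_disjoint hd] at h4
    omega

open Classical in
theorem FL_step {G : Type*} [AddCommGroup G] [Fintype G] (x y : G) (hxy : x ≠ y)
    (C V : Finset G) (hC : 10 * C.card ≤ Fintype.card G) (hV : 10 * V.card ≤ Fintype.card G) :
    ∃ θ : G, θ ≠ y - x - θ ∧ θ ∉ C ∧ y - x - θ ∉ C ∧ x + θ ∉ V := by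
  have hn : 0 < Fintype.card G := Fintype.card_pos_iff.2 ⟨x⟩
  set S := Finset.univ.filter (fun θ : G => θ + θ = y - x) with hS
  set C2 : Finset G := C.image (fun c => y - x - c) with hC2
  set V2 : Finset G := V.image (fun c => c - x) with hV2
  have h1 : (C ∪ C2 ∪ V2 ∪ S).card < Fintype.card G := by
    have h2 := FL_half (y - x) (sub_ne_zero.2 hxy.symm)
    rw [← hS] at h2
    have h3 : C2.card ≤ C.card := Finset.card_image_le
    have h4 : V2.card ≤ V.card := Finset.card_image_le
    have h5 := Finset.card_union_le (C ∪ C2 ∪ V2) S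
    have h6 := Finset.card_union_le (C ∪ C2) V2
    have h7 := Finset.card_union_le C C2
    omega
  obtain ⟨θ, hθ⟩ : ∃ θ, θ ∉ C ∪ C2 ∪ V2 ∪ S := by
    by_contra hcon
    push Not at hcon
    have : (C ∪ C2 ∪ V2 ∪ S) = Finset.univ := Finset.eq_univ_iff_forall.2 hcon
    rw [this, Finset.card_univ] at h1
    exact lt_irrefl _ h1
  simp only [Finset.mem_union, not_or] at hθ
  obtain ⟨⟨⟨ha, hb⟩, hc⟩, hd⟩ := hθ
  refine ⟨θ, ?_, ha, ?_, ?_⟩
  · intro h
    apply hd
    rw [hS]
    simp only [Finset.mem_filter, Finset.mem_univ, true_and]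
    rw [eq_sub_iff_add_eq] at h
    exact h
  · intro h
    apply hb
    rw [hC2, Finset.mem_image]
    exact ⟨_, h, by abel⟩
  · intro h
    apply hc
    rw [hV2, Finset.mem_image]
    exact ⟨_, h, by abel⟩

theorem free_links {G : Type*} [AddCommGroup G] [Fintype G] {q : ℕ} (x y : Fin q → G)
    (hxy : ∀ i, x i ≠ y i) (C V : Finset G) (hC : 10 * (C.card + 2 * q) ≤ Fintype.card G)
    (hV : 10 * (V.card + q) ≤ Fintype.card G) :
    ∃ a b : Fin q → G, (∀ i, x i + a i + b i = y i) ∧ (List.ofFn a ++ List.ofFn b).Nodup ∧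
      (∀ i, a i ∉ C ∧ b i ∉ C) ∧ Function.Injective (fun i => x i + a i) ∧
      ∀ i, x i + a i ∉ V := by
  classical
  obtain ⟨θ, h1, h2⟩ := greedy_sets (Θ := G) (Γ := G) (Δ := G) (q := q)
    (fun i θ => θ ≠ y i - x i - θ) (fun i θ => {θ, y i - x i - θ}) (fun i θ => {x i + θ})
    2 1 (C.card + 2 * q) (V.card + q)
    (fun i θ _ => ⟨Finset.card_le_two, by simp⟩)
    (by
      intro i C' V' hC' hV'
      obtain ⟨θ, ha, hb, hc, hd⟩ := FL_step (x i) (y i) (hxy i) C' V' (by omega) (by omega)
      refine ⟨θ, ha, ?_, ?_⟩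
      · rw [Finset.disjoint_left]
        intro z hz hz'
        simp only [Finset.mem_insert, Finset.mem_singleton] at hz
        rcases hz with rfl | rfl
        · exact hb hz'
        · exact hc hz'
      · rw [Finset.disjoint_left]
        intro z hz hz'
        simp only [Finset.mem_singleton] at hz
        subst hz
        exact hd hz')
    C V (by omega) (by omega)
  have hcol : ∀ i j, i ≠ j → θ i ≠ θ j ∧ θ i ≠ y j - x j - θ j ∧
      y i - x i - θ i ≠ y j - x j - θ j := by
    intro i j hij
    have h3 := (h2 i j hij).1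
    rw [Finset.disjoint_left] at h3
    refine ⟨?_, ?_, ?_⟩
    · intro h
      exact h3 (Finset.mem_insert_self _ _) (by rw [h]; exact Finset.mem_insert_self _ _)
    · intro h
      exact h3 (Finset.mem_insert_self _ _)
        (by rw [h]; exact Finset.mem_insert_of_mem (Finset.mem_singleton_self _))
    · intro h
      exact h3 (Finset.mem_insert_of_mem (Finset.mem_singleton_self _))
        (by rw [h]; exact Finset.mem_insert_of_mem (Finset.mem_singleton_self _))
  have hsum : ∀ i, x i + θ i + (y i - x i - θ i) = y i := fun i => by abel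
  refine ⟨θ, fun i => y i - x i - θ i, hsum, ?_, ?_, ?_, ?_⟩
  · rw [List.nodup_append]
    refine ⟨?_, ?_, ?_⟩
    · rw [List.nodup_ofFn]
      intro i j hij
      by_contra hne
      exact (hcol i j hne).1 hij
    · rw [List.nodup_ofFn]
      intro i j hij
      by_contra hne
      exact (hcol i j hne).2.2 hij
    · intro u hu v hv huv
      rw [List.mem_ofFn] at hu hv
      obtain ⟨i, rfl⟩ := hu
      obtain ⟨j, rfl⟩ := hv
      by_cases hij : i = j
      · subst hij
        exact (h1 i).1 huv
      · exact (hcol i j hij).2.1 huv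
  · intro i
    have h3 := (h1 i).2.1
    rw [Finset.disjoint_left] at h3
    exact ⟨h3 (Finset.mem_insert_self _ _),
      h3 (Finset.mem_insert_of_mem (Finset.mem_singleton_self _))⟩
  · intro i j hij
    by_contra hne
    have h3 := (h2 i j hne).2
    rw [Finset.disjoint_left] at h3
    exact h3 (Finset.mem_singleton_self _) (by
      simp only at hij
      rw [hij]
      exact Finset.mem_singleton_self _)
  · intro i
    have h3 := (h1 i).2.2
    rw [Finset.disjoint_left] at h3
    exact h3 (Finset.mem_singleton_self _)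

end Pool.Agent.SNF
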