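import Pool.Agent.Lib_helper26.SNF.Defs
import Pool.Agent.Lib_helper26.SNF.CP
import Pool.Agent.Lib_helper26.SNF.EV
import Pool.Agent.Lib_helper26.SDN.VX

/-! Block FN (project SNF): the final list. -/

namespace Pool.Agent.SNF

open Finset Pool.Agent.SDN

theorem FN_flatten {α : Type*} (Ls : List (List α)) :
    (Ls.flatten : Multiset α) = (Ls.map (fun l : List α => (l : Multiset α))).sum := by
  induction Ls with
  | nil => rfl
  | cons a t ih =>
    rw [List.flatten_cons, ← Multiset.coe_add, ih, List.map_cons, List.sum_cons]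

theorem FN_ofFn {α : Type*} {n : ℕ} (L : Fin n → List α) :
    ((List.ofFn L).flatten : Multiset α) = ∑ i, (L i : Multiset α) := by
  rw [FN_flatten, List.map_ofFn, List.sum_ofFn]
  rfl

theorem FN_flatMap {α β : Type*} (S : Finset β) (f : β → List α) :
    (S.toList.flatMap f : Multiset α) = ∑ z ∈ S, (f z : Multiset α) := by
  rw [List.flatMap_def, FN_flatten, List.map_map]
  exact Finset.sum_map_toList S (fun z => (f z : Multiset α))

theorem FN_single {α : Type*} {n : ℕ} (a : Fin n → α) :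
    (List.ofFn a : Multiset α) = ∑ i, ({a i} : Multiset α) := by
  have h : List.ofFn a = (List.ofFn (fun i => [a i])).flatten := by
    induction n with
    | zero => simp
    | succ n ih =>
      rw [List.ofFn_succ, List.ofFn_succ, List.flatten_cons, ih (fun i => a i.succ)]
      rfl
  rw [h, FN_ofFn]
  rfl

open Classical in
theorem FN_union {α : Type*} {S T : Finset α} (h : Disjoint S T) :
    ((S ∪ T).toList : Multiset α) = (S.toList : Multiset α) + (T.toList : Multiset α) := by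
  rw [Finset.coe_toList, Finset.coe_toList, Finset.coe_toList, ← Finset.disjUnion_eq_union S T h]
  rfl

open Classical in
theorem FN_rest {α : Type*} {S : Finset α} {k : List α} (hk : k.Nodup) (h : ∀ x ∈ k, x ∈ S) :
    (k : Multiset α) + ((S \ k.toFinset).toList : Multiset α) = (S.toList : Multiset α) := by
  have h1 : (k : Multiset α) = (k.toFinset.toList : Multiset α) := by
    rw [Finset.coe_toList, List.toFinset_val, hk.dedup]
  have h2 : k.toFinset ⊆ S := by
    intro x hx
    exact h x (List.mem_toFinset.1 hx)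
  rw [h1, ← FN_union Finset.disjoint_sdiff, Finset.union_sdiff_of_subset h2]

open Classical in
/-- the final list -/
theorem final_list {G : Type} [AddCommGroup G] [Fintype G] {s m : ℕ} {A Om R : Finset G}
    (Φ₀ Φ₁ : Finset G) {Z : Fin s → Fin m → G} {h q : ℕ} {W D Q : Finset G} {p e : Fin q → G}
    {u a : Fin s → G} {w₁ w₂ w₃ T : G} {x₁ y₁ : Fin (q + 1) → G} {x₂ y₂ : Fin (s + 1) → G}
    (hF : Front A Om R (Φ₀ ∪ Φ₁) Z h q W D Q p e u a w₁ w₂ w₃ x₁ y₁ x₂ y₂) (hm : 3 ≤ m)
    (hZ : Fam A 0 Z) (hR : R ⊆ A) (hZR : ∀ z i, Z z i ∉ R) (h0 : (0 : G) ∉ Om) (hT : T ∉ Om)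
    (hΦ : Disjoint Φ₀ Φ₁) (X B : Finset G)
    (hX : X = (Om \ W) \ (FV Q e u a w₁ w₂ w₃ x₁ x₂).toFinset)
    (hB : B = ((A \ R) \ univ.image fun z : Fin s × Fin m => Z z.1 z.2) \
      (FC D a x₁ y₁ x₂ y₂).toFinset) (hXB : X.card = B.card)
    (k : List G) (hkn : k.Nodup) (hk : ∀ a ∈ k, a ∈ B ∨ a ∈ R)
    (hk3 : w₂ + k.sum = w₃) (hkl : vs w₂ k = (vs w₂ k).dropLast ++ [w₃])
    (hv : (vs w₂ k).dropLast.Nodup) (hvX : ∀ x ∈ X, x ∈ (vs w₂ k).dropLast)
    (hvΦ : ∀ x ∈ (vs w₂ k).dropLast, x ∈ X ∨ x ∈ Φ₁) (U : Finset (Fin s))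
    (l : List G) (hl : l.Perm (((B ∪ R) \ k.toFinset).toList ++
      U.toList.flatMap fun z => List.ofFn (Z z)))
    (hll : vs w₃ l = (vs w₃ l).dropLast ++ [T])
    (hln : (vs w₃ l).dropLast.Nodup) (hlΦ : ∀ x ∈ (vs w₃ l).dropLast, x ∈ Φ₀)
    (hcount : (W \ (((univ \ U).biUnion fun z => (det Z (u z) (a z) z).toFinset) ∪
      ((vs w₂ k).dropLast.toFinset ∩ Φ₁) ∪ (vs w₃ l).dropLast.toFinset)).card = h) :
    ∃ l' : List G, l'.Nodup ∧ (∀ x, x ∈ l' ↔ x ∈ A) ∧ (vs 0 l').Nodup ∧
      (0 : G) ∉ (vs 0 l').dropLast := by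
  set W' : Finset G := W \ (((univ \ U).biUnion fun z => (det Z (u z) (a z) z).toFinset) ∪
      ((vs w₂ k).dropLast.toFinset ∩ Φ₁) ∪ (vs w₃ l).dropLast.toFinset) with hW'
  have hW'W : W' ⊆ W := Finset.sdiff_subset
  obtain ⟨l₀, ha1, ha2, ha3⟩ := hF.abs W' hW'W hcount
  obtain ⟨k₁, -, hk1s, hk1p, hk1v, hk1d⟩ := chain_two 0 w₁ p e x₁ y₁ hF.eq₁ l₀ ha1
  have hZ0 : ∀ z, P (Z z) m = 0 := hZ.tot
  have hpl := fun z => place_ex (m := m) (by omega) Z hZ0 (univ \ U) (u z) (a z) z
  obtain ⟨k₂, -, hk2s, hk2p, hk2v, hk2d⟩ := chain_two w₁ w₂ u (fun z => u z + a z) x₂ y₂ hF.eq₂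
    (fun z => ex Z (univ \ U) [(a z, some z)]) (fun z => (hpl z).2.2.2)
  rw [zero_add] at hk1s
  -- sums over the stock sets
  have hUc : univ \ U = Uᶜ := rfl
  have hsplit : ∀ f : Fin s → Multiset G, (∑ z ∈ U, f z) + ∑ z ∈ univ \ U, f z = ∑ z, f z := by
    intro f
    rw [add_comm]
    exact Finset.sum_sdiff (Finset.subset_univ U)
  have hcol : ∑ z, (ex Z (univ \ U) [(a z, some z)] : Multiset G) =
      (List.ofFn a : Multiset G) + ∑ z ∈ univ \ U, (List.ofFn (Z z) : Multiset G) := by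
    rw [FN_single, ← hsplit, ← hsplit (fun z => ({a z} : Multiset G)), add_assoc,
      ← Finset.sum_add_distrib]
    congr 1
    · refine Finset.sum_congr rfl fun z hz => ?_
      rw [(hpl z).2.1 (by simp [hz])]
      rfl
    · refine Finset.sum_congr rfl fun z hz => ?_
      have h1 := Multiset.coe_eq_coe.2 ((hpl z).1 hz).2
      rw [h1]
      rfl
  have hver : ∑ z, (vs (u z) (ex Z (univ \ U) [(a z, some z)]) : Multiset G) =
      (List.ofFn (fun z => u z + a z) : Multiset G) +
        ∑ z ∈ univ \ U, (det Z (u z) (a z) z : Multiset G) := by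
    rw [FN_single, ← hsplit, ← hsplit (fun z => ({u z + a z} : Multiset G)), add_assoc,
      ← Finset.sum_add_distrib]
    congr 1
    · refine Finset.sum_congr rfl fun z hz => ?_
      rw [(hpl z).2.1 (by simp [hz])]
      rfl
    · refine Finset.sum_congr rfl fun z hz => ?_
      rw [((hpl z).1 hz).1, ← Multiset.coe_add, add_comm]
      rfl
  have e1 := Multiset.coe_eq_coe.2 hk1p
  have e2 := Multiset.coe_eq_coe.2 hk2p
  have e3 := Multiset.coe_eq_coe.2 hl
  have e4 := Multiset.coe_eq_coe.2 ha2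
  have d1 := Multiset.coe_eq_coe.2 hk1d
  have d2 := Multiset.coe_eq_coe.2 hk2d
  have d3 := Multiset.coe_eq_coe.2 ha3
  have hkBR : ∀ x ∈ k, x ∈ B ∪ R := by
    intro x hx
    rw [Finset.mem_union]
    exact hk x hx
  have eBR := FN_rest hkn hkBR
  have eStock : (∑ z ∈ U, (List.ofFn (Z z) : Multiset G)) +
      ∑ z ∈ univ \ U, (List.ofFn (Z z) : Multiset G) = ∑ z, (List.ofFn (Z z) : Multiset G) :=
    hsplit _
  -- colours
  have hC : ((k₁ ++ (k₂ ++ (k ++ l)) : List G) : Multiset G) =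
      (FC D a x₁ y₁ x₂ y₂ : Multiset G) + (((B ∪ R).toList : Multiset G) +
        ∑ z, (List.ofFn (Z z) : Multiset G)) := by
    unfold FC
    simp only [← Multiset.coe_add] at e1 e2 e3 ⊢
    rw [e1, e2, e3, e4, FN_ofFn, hcol, FN_flatMap, ← eBR, ← eStock]
    abel
  have hstockmem : ∀ x, x ∈ (∑ z, (List.ofFn (Z z) : Multiset G)) ↔ ∃ z i, Z z i = x := by
    intro x
    rw [Multiset.mem_sum]
    simp [List.mem_ofFn]
  have hBmem : ∀ x, x ∈ B ↔ x ∈ A ∧ x ∉ R ∧ (∀ z i, Z z i ≠ x) ∧
      x ∉ FC D a x₁ y₁ x₂ y₂ := by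
    intro x
    rw [hB]
    simp only [Finset.mem_sdiff, Finset.mem_image, Finset.mem_univ, true_and, List.mem_toFinset,
      Prod.exists, not_exists]
    tauto
  have hstock_nodup : (∑ z, (List.ofFn (Z z) : Multiset G)).Nodup := by
    have : ∑ z, (List.ofFn (Z z) : Multiset G) =
        (univ.image (fun z : Fin s × Fin m => Z z.1 z.2)).val := by
      have hinj : Function.Injective (fun z : Fin s × Fin m => Z z.1 z.2) := by
        rintro ⟨z, i⟩ ⟨z', i'⟩ hzz
        obtain ⟨r1, r2⟩ := hZ.inj z z' i i' hzz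
        rw [r1, r2]
      rw [Finset.image_val_of_injOn hinj.injOn]
      have h2 : (univ : Finset (Fin s × Fin m)).val.map (fun z : Fin s × Fin m => Z z.1 z.2) =
          ∑ z : Fin s × Fin m, ({Z z.1 z.2} : Multiset G) := by
        show _ = (Multiset.map (fun z : Fin s × Fin m => ({Z z.1 z.2} : Multiset G))
          (univ : Finset (Fin s × Fin m)).val).sum
        rw [← Multiset.sum_map_singleton (Multiset.map (fun z : Fin s × Fin m => Z z.1 z.2)
          (univ : Finset (Fin s × Fin m)).val), Multiset.map_map]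
        rfl
      rw [h2, Fintype.sum_prod_type]
      refine Finset.sum_congr rfl fun z _ => ?_
      exact FN_single (Z z)
    rw [this]
    exact Finset.nodup _
  have hCn : ((FC D a x₁ y₁ x₂ y₂ : Multiset G) + (((B ∪ R).toList : Multiset G) +
        ∑ z, (List.ofFn (Z z) : Multiset G))).Nodup := by
    rw [Multiset.nodup_add, Multiset.nodup_add]
    refine ⟨Multiset.coe_nodup.2 hF.col, ⟨Multiset.coe_nodup.2 (Finset.nodup_toList _),
      hstock_nodup, ?_⟩, ?_⟩
    · rw [Multiset.disjoint_left]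
      intro x hx hx'
      rw [hstockmem] at hx'
      obtain ⟨z, i, rfl⟩ := hx'
      rw [Multiset.mem_coe, Finset.mem_toList, Finset.mem_union] at hx
      rcases hx with hx | hx
      · exact ((hBmem _).1 hx).2.2.1 z i rfl
      · exact hZR z i hx
    · rw [Multiset.disjoint_left]
      intro x hx hx'
      rw [Multiset.mem_coe] at hx
      obtain ⟨r1, r2, r3⟩ := hF.colA x hx
      rw [Multiset.mem_add, Multiset.mem_coe, Finset.mem_toList, Finset.mem_union, hstockmem] at hx'
      rcases hx' with (hx' | hx') | ⟨z, i, hx'⟩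
      · exact ((hBmem _).1 hx').2.2.2 hx
      · exact r2 hx'
      · exact r3 z i hx'
  -- vertices
  have hQW : Disjoint Q W' := by
    rw [Finset.disjoint_left]
    intro x hx hx'
    have h1 : x ∈ FV Q e u a w₁ w₂ w₃ x₁ x₂ := by
      unfold FV
      rw [List.mem_append]
      exact Or.inl (Finset.mem_toList.2 hx)
    exact (hF.verO x h1).2 (hW'W hx')
  have hd3 := FN_union hQW
  have hV : ((vs 0 k₁ ++ (vs w₁ k₂ ++ (vs w₂ k ++ (vs w₃ l).dropLast)) : List G) : Multiset G) =
      (FV Q e u a w₁ w₂ w₃ x₁ x₂ : Multiset G) + ((W'.toList : Multiset G) +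
        ((∑ z ∈ univ \ U, (det Z (u z) (a z) z : Multiset G)) +
          (((vs w₂ k).dropLast : Multiset G) + ((vs w₃ l).dropLast : Multiset G)))) := by
    rw [hk1v, hk2v, hkl]
    rw [List.dropLast_concat]
    have hthree : (([w₁, w₂, w₃] : List G) : Multiset G) =
        (([w₁] : List G) : Multiset G) + ((([w₂] : List G) : Multiset G) +
          (([w₃] : List G) : Multiset G)) := by
      rw [Multiset.coe_add, Multiset.coe_add]
      rfl
    have hcons : ((List.ofFn fun i => u i :: vs (u i)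
        (ex Z (univ \ U) [(a i, some i)])).flatten : Multiset G) =
        (List.ofFn u : Multiset G) + ((List.ofFn (fun z => u z + a z) : Multiset G) +
        ∑ z ∈ univ \ U, (det Z (u z) (a z) z : Multiset G)) := by
      rw [FN_ofFn, ← hver, FN_single u, ← Finset.sum_add_distrib]
      refine Finset.sum_congr rfl fun z _ => ?_
      rw [Multiset.singleton_add]
      rfl
    unfold FV
    simp only [← Multiset.coe_add] at d1 d2 ⊢
    rw [d1, d2, d3, hd3, hcons, hthree]
    abel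
  have hdet_le : (∑ z ∈ univ \ U, (det Z (u z) (a z) z : Multiset G)) ≤
      ∑ z, (det Z (u z) (a z) z : Multiset G) :=
    Finset.sum_le_sum_of_subset (Finset.subset_univ _)
  have hdet_nodup : (∑ z ∈ univ \ U, (det Z (u z) (a z) z : Multiset G)).Nodup := by
    refine Multiset.nodup_of_le hdet_le ?_
    rw [← FN_ofFn, Multiset.coe_nodup]
    exact hF.detN
  have hdetmem : ∀ x, x ∈ (∑ z ∈ univ \ U, (det Z (u z) (a z) z : Multiset G)) ↔
      ∃ z, z ∉ U ∧ x ∈ det Z (u z) (a z) z := by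
    intro x
    rw [Multiset.mem_sum]
    simp
  have hW'mem : ∀ x, x ∈ W' ↔ x ∈ W ∧ (∀ z, z ∉ U → x ∉ det Z (u z) (a z) z) ∧
      (x ∈ (vs w₂ k).dropLast → x ∉ Φ₁) ∧ x ∉ (vs w₃ l).dropLast := by
    intro x
    rw [hW']
    simp only [Finset.mem_sdiff, Finset.mem_union, Finset.mem_biUnion, Finset.mem_inter,
      List.mem_toFinset, Finset.mem_univ, true_and, not_or, not_exists, not_and]
    tauto
  have hXmem : ∀ x ∈ X, x ∈ Om ∧ x ∉ W ∧ x ∉ FV Q e u a w₁ w₂ w₃ x₁ x₂ := by
    intro x hx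
    rw [hX] at hx
    simp only [Finset.mem_sdiff, List.mem_toFinset] at hx
    exact ⟨hx.1.1, hx.1.2, hx.2⟩
  have hΦ1W : ∀ x ∈ Φ₁, x ∈ W := fun x hx => hF.ΦW (Finset.mem_union_right _ hx)
  have hΦ0W : ∀ x ∈ Φ₀, x ∈ W := fun x hx => hF.ΦW (Finset.mem_union_left _ hx)
  have hVn : ((FV Q e u a w₁ w₂ w₃ x₁ x₂ : Multiset G) + ((W'.toList : Multiset G) +
        ((∑ z ∈ univ \ U, (det Z (u z) (a z) z : Multiset G)) +
          (((vs w₂ k).dropLast : Multiset G) + ((vs w₃ l).dropLast : Multiset G))))).Nodup := by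
    rw [Multiset.nodup_add, Multiset.nodup_add, Multiset.nodup_add, Multiset.nodup_add]
    refine ⟨Multiset.coe_nodup.2 hF.ver, ⟨Multiset.coe_nodup.2 (Finset.nodup_toList _),
      ⟨hdet_nodup, ⟨Multiset.coe_nodup.2 hv, Multiset.coe_nodup.2 hln, ?_⟩, ?_⟩, ?_⟩, ?_⟩
    · rw [Multiset.disjoint_left]
      intro x hx hx'
      rw [Multiset.mem_coe] at hx hx'
      have h1 := hlΦ x hx'
      rcases hvΦ x hx with h2 | h2
      · exact (hXmem x h2).2.1 (hΦ0W x h1)
      · exact Finset.disjoint_left.1 hΦ h1 h2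
    · rw [Multiset.disjoint_left]
      intro x hx hx'
      rw [hdetmem] at hx
      obtain ⟨z, -, hz⟩ := hx
      obtain ⟨r1, r2⟩ := hF.detW z x hz
      rw [Multiset.mem_add, Multiset.mem_coe, Multiset.mem_coe] at hx'
      rcases hx' with hx' | hx'
      · rcases hvΦ x hx' with h2 | h2
        · exact (hXmem x h2).2.1 r1
        · exact r2 (Finset.mem_union_right _ h2)
      · exact r2 (Finset.mem_union_left _ (hlΦ x hx'))
    · rw [Multiset.disjoint_left]
      intro x hx hx'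
      rw [Multiset.mem_coe, Finset.mem_toList, hW'mem] at hx
      obtain ⟨s1, s2, s3, s4⟩ := hx
      rw [Multiset.mem_add, Multiset.mem_add, Multiset.mem_coe, Multiset.mem_coe, hdetmem] at hx'
      rcases hx' with ⟨z, hzU, hz⟩ | hx' | hx'
      · exact s2 z hzU hz
      · rcases hvΦ x hx' with h2 | h2
        · exact (hXmem x h2).2.1 s1
        · exact s3 hx' h2
      · exact s4 hx'
    · rw [Multiset.disjoint_left]
      intro x hx hx'
      rw [Multiset.mem_coe] at hx
      obtain ⟨r1, r2⟩ := hF.verO x hx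
      rw [Multiset.mem_add, Multiset.mem_add, Multiset.mem_add, Multiset.mem_coe,
        Multiset.mem_coe, Multiset.mem_coe, hdetmem, Finset.mem_toList] at hx'
      rcases hx' with hx' | ⟨z, -, hz⟩ | hx' | hx'
      · exact r2 (hW'W hx')
      · exact r2 (hF.detW z x hz).1
      · rcases hvΦ x hx' with h2 | h2
        · exact (hXmem x h2).2.2 hx
        · exact r2 (hΦ1W x h2)
      · exact r2 (hΦ0W x (hlΦ x hx'))
  have hOm : ∀ x ∈ (vs 0 k₁ ++ (vs w₁ k₂ ++ (vs w₂ k ++ (vs w₃ l).dropLast)) : List G),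
      x ∈ Om := by
    intro x hx
    rw [← Multiset.mem_coe, hV] at hx
    rw [Multiset.mem_add, Multiset.mem_add, Multiset.mem_add, Multiset.mem_add, Multiset.mem_coe,
      Multiset.mem_coe, Multiset.mem_coe, Multiset.mem_coe, hdetmem, Finset.mem_toList] at hx
    rcases hx with hx | hx | ⟨z, -, hz⟩ | hx | hx
    · exact (hF.verO x hx).1
    · exact hF.WO (hW'W hx)
    · exact hF.WO (hF.detW z x hz).1
    · rcases hvΦ x hx with h2 | h2
      · exact (hXmem x h2).1
      · exact hF.WO (hΦ1W x h2)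
    · exact hF.WO (hΦ0W x (hlΦ x hx))
  have hVl : vs 0 (k₁ ++ (k₂ ++ (k ++ l))) =
      (vs 0 k₁ ++ (vs w₁ k₂ ++ (vs w₂ k ++ (vs w₃ l).dropLast))) ++ [T] := by
    rw [vs_append, vs_append, vs_append, zero_add, hk1s, hk2s, hk3]
    conv_lhs => rw [hll]
    simp only [List.append_assoc]
  refine ⟨k₁ ++ (k₂ ++ (k ++ l)), ?_, ?_, ?_, ?_⟩
  · rw [← Multiset.coe_nodup, hC]
    exact hCn
  · intro x
    rw [← Multiset.mem_coe, hC, Multiset.mem_add, Multiset.mem_add, Multiset.mem_coe,
      Multiset.mem_coe, Finset.mem_toList, Finset.mem_union, hstockmem]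
    constructor
    · rintro (h1 | (h1 | h1) | ⟨z, i, h1⟩)
      · exact (hF.colA x h1).1
      · exact ((hBmem x).1 h1).1
      · exact hR h1
      · rw [← h1]
        exact hZ.mem z i
    · intro h1
      by_cases c1 : x ∈ FC D a x₁ y₁ x₂ y₂
      · exact Or.inl c1
      · right
        by_cases c2 : x ∈ R
        · exact Or.inl (Or.inr c2)
        · by_cases c3 : ∃ z i, Z z i = x
          · exact Or.inr c3
          · left
            left
            rw [hBmem]
            refine ⟨h1, c2, ?_, c1⟩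
            intro z i hzi
            exact c3 ⟨z, i, hzi⟩
  · rw [hVl, List.nodup_append]
    refine ⟨?_, List.nodup_singleton _, ?_⟩
    · rw [← Multiset.coe_nodup, hV]
      exact hVn
    · intro x hx y hy
      rw [List.mem_singleton] at hy
      rintro rfl
      rw [hy] at hx
      exact hT (hOm T hx)
  · rw [hVl, List.dropLast_concat]
    intro h1
    exact h0 (hOm 0 h1)

end Pool.Agent.SNF
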