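import Pool.Agent.Lib_helper26.SNF.Defs
import Pool.Agent.Lib_helper26.SNF.GS

/-! Block PL (project SNF, helper53). -/

namespace Pool.Agent.SNF

open Finset Pool.Agent.SDN

theorem PL_det {G : Type*} [AddCommGroup G] {s m : ℕ} (Z : Fin s → Fin m → G) (u a : G)
    (z : Fin s) : u :: (u + a) :: det Z u a z = (0 :: (0 + a) :: det Z 0 a z).map (fun x => u + x) := by
  unfold det
  simp only [List.map_cons, List.map_append, List.map_map, List.map_nil, add_zero, zero_add,
    Function.comp_def, add_assoc]

theorem PL_len {G : Type*} [AddCommGroup G] {s m : ℕ} (hm : 3 ≤ m) (Z : Fin s → Fin m → G)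
    (u a : G) (z : Fin s) : (u :: (u + a) :: det Z u a z).length = m + 2 := by
  simp only [det, List.length_cons, List.length_append, List.length_map, List.length_range,
    List.length_nil]
  omega

theorem PL_P0 {G : Type*} [AddCommGroup G] {m : ℕ} (y : Fin m → G) : P y 0 = 0 := by
  simp [P]

theorem PL_nodup {G : Type*} [AddCommGroup G] {s m : ℕ} (hm : 3 ≤ m)
    (Z : Fin s → Fin m → G) (B : Finset G) (hZ : Fam B 0 Z) (a : G) (z : Fin s)
    (h1 : ∀ j, j < m → P (Z z) j ≠ a) (h2 : ∀ j, j < m → P (Z z) j - P (Z z) (m - 1) ≠ a) :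
    (0 :: (0 + a) :: det Z 0 a z).Nodup := by
  have hP0 := PL_P0 (Z z)
  have hwin : ∀ i j, i < j → j < m → P (Z z) i ≠ P (Z z) j := fun i j hij hj =>
    hZ.win z i j hij hj.le (fun h => by omega)
  have ha0 : a ≠ 0 := by
    intro h
    exact h1 0 (by omega) (by rw [hP0, h])
  unfold det
  rw [List.nodup_cons, List.nodup_cons]
  refine ⟨?_, ?_, ?_⟩
  · rw [List.mem_cons, not_or, List.mem_append, not_or, List.mem_map, List.mem_singleton]
    refine ⟨?_, ?_, ?_⟩
    · rw [zero_add]; exact fun h => ha0 h.symm
    · rintro ⟨j, hj, hj'⟩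
      rw [List.mem_range] at hj
      rw [zero_add] at hj'
      exact hwin 0 (j + 1) (by omega) (by omega) (by rw [hP0, hj'])
    · intro h
      refine h2 0 (by omega) ?_
      rw [hP0]
      rw [zero_add] at h
      rw [eq_comm, add_comm] at h
      rw [zero_sub, neg_eq_iff_add_eq_zero]
      exact h
  · rw [List.mem_append, not_or, List.mem_map, List.mem_singleton]
    refine ⟨?_, ?_⟩
    · rintro ⟨j, hj, hj'⟩
      rw [List.mem_range] at hj
      rw [zero_add, zero_add] at hj'
      exact h1 (j + 1) (by omega) hj'
    · intro h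
      have h3 : P (Z z) (m - 1) = 0 := by
        have h4 : 0 + a + 0 = 0 + a + P (Z z) (m - 1) := by rw [add_zero]; exact h
        exact (add_left_cancel h4).symm
      exact hwin 0 (m - 1) (by omega) (by omega) (by rw [hP0, h3])
  · rw [List.nodup_append]
    refine ⟨?_, List.nodup_singleton _, ?_⟩
    · refine List.Nodup.map_on ?_ List.nodup_range
      intro i hi j hj hij
      rw [List.mem_range] at hi hj
      rw [zero_add, zero_add] at hij
      by_contra hne
      rcases Nat.lt_or_gt_of_ne hne with h | h
      · exact hwin (i + 1) (j + 1) (by omega) (by omega) hij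
      · exact hwin (j + 1) (i + 1) (by omega) (by omega) hij.symm
    · intro x hx y hy
      rw [List.mem_map] at hx
      rw [List.mem_singleton] at hy
      obtain ⟨j, hj, rfl⟩ := hx
      rw [List.mem_range] at hj
      rw [hy]
      intro h
      refine h2 (j + 1) (by omega) ?_
      rw [zero_add, zero_add] at h
      rw [h]
      abel

theorem places {G : Type*} [AddCommGroup G] [Fintype G] {s m : ℕ} (hm : 3 ≤ m)
    (Z : Fin s → Fin m → G) (B : Finset G) (hZ : Fam B 0 Z) (C V : Finset G)
    (hC : C.card + s + 3 * m < Fintype.card G)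
    (hV : (m + 2) * (V.card + (m + 2) * s) < Fintype.card G) :
    ∃ u a : Fin s → G, Function.Injective a ∧ (∀ z, a z ∉ C) ∧
      (∀ z, ∀ x ∈ u z :: (u z + a z) :: det Z (u z) (a z) z, x ∉ V) ∧
      ((List.ofFn fun z => u z :: (u z + a z) :: det Z (u z) (a z) z).flatten).Nodup := by
  classical
  have hgs := greedy_sets (Θ := G × G) (Γ := G) (Δ := G) (q := s)
    (fun z θ => (θ.1 :: (θ.1 + θ.2) :: det Z θ.1 θ.2 z).Nodup)
    (fun _ θ => {θ.2}) (fun z θ => (θ.1 :: (θ.1 + θ.2) :: det Z θ.1 θ.2 z).toFinset)
    1 (m + 2) (C.card + 1 * s) (V.card + (m + 2) * s) ?_ ?_ C V le_rfl le_rfl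
  · obtain ⟨θ, h1, h2⟩ := hgs
    refine ⟨fun z => (θ z).1, fun z => (θ z).2, ?_, ?_, ?_, ?_⟩
    · intro z z' hzz
      by_contra hne
      have h3 := (h2 z z' hne).1
      rw [Finset.disjoint_singleton] at h3
      exact h3 hzz
    · intro z
      have h3 := (h1 z).2.1
      rwa [Finset.disjoint_singleton_left] at h3
    · intro z x hx
      exact Finset.disjoint_left.1 (h1 z).2.2 (List.mem_toFinset.2 hx)
    · rw [List.nodup_flatten]
      constructor
      · intro l hl
        rw [List.mem_ofFn] at hl
        obtain ⟨z, rfl⟩ := hl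
        exact (h1 z).1
      · rw [List.pairwise_ofFn]
        intro z z' hzz
        have h3 := (h2 z z' hzz.ne).2
        intro x hx hx'
        exact Finset.disjoint_left.1 h3 (List.mem_toFinset.2 hx) (List.mem_toFinset.2 hx')
  · intro z θ _
    refine ⟨by simp, ?_⟩
    exact (List.toFinset_card_le _).trans (le_of_eq (PL_len hm Z _ _ z))
  · intro z C' V' hC' hV'
    -- choice of `a`
    let bad : Finset G := C' ∪ ((range m).image (fun j => P (Z z) j) ∪
      (range m).image (fun j => P (Z z) j - P (Z z) (m - 1)))
    have hbad : bad.card < Fintype.card G := by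
      have e1 := Finset.card_union_le C' ((range m).image (fun j => P (Z z) j) ∪
        (range m).image (fun j => P (Z z) j - P (Z z) (m - 1)))
      have e2 := Finset.card_union_le ((range m).image (fun j => P (Z z) j))
        ((range m).image (fun j => P (Z z) j - P (Z z) (m - 1)))
      have e3 := Finset.card_image_le (s := range m) (f := fun j => P (Z z) j)
      have e4 := Finset.card_image_le (s := range m) (f := fun j => P (Z z) j - P (Z z) (m - 1))
      rw [Finset.card_range] at e3 e4
      have e5 : bad.card ≤ C'.card + ((range m).image (fun j => P (Z z) j) ∪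
        (range m).image (fun j => P (Z z) j - P (Z z) (m - 1))).card := e1
      omega
    obtain ⟨a, ha⟩ : ∃ a, a ∉ bad := by
      by_contra hcon
      push Not at hcon
      have : bad = univ := Finset.eq_univ_of_forall hcon
      rw [this, Finset.card_univ] at hbad
      exact lt_irrefl _ hbad
    simp only [bad, Finset.mem_union, not_or, Finset.mem_image, Finset.mem_range, not_exists,
      not_and] at ha
    obtain ⟨ha1, ha2, ha3⟩ := ha
    -- choice of `u`
    let O : Finset G := (0 :: (0 + a) :: det Z 0 a z).toFinset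
    have hO : O.card ≤ m + 2 := (List.toFinset_card_le _).trans (le_of_eq (PL_len hm Z _ _ z))
    let badu : Finset G := (O ×ˢ V').image (fun p => p.2 - p.1)
    have hbadu : badu.card < Fintype.card G := by
      have e1 := Finset.card_image_le (s := O ×ˢ V') (f := fun p => p.2 - p.1)
      rw [Finset.card_product] at e1
      have e2 : O.card * V'.card ≤ (m + 2) * (V.card + (m + 2) * s) := Nat.mul_le_mul hO hV'
      exact lt_of_le_of_lt (e1.trans e2) hV
    obtain ⟨u, hu⟩ : ∃ u, u ∉ badu := by
      by_contra hcon
      push Not at hcon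
      have : badu = univ := Finset.eq_univ_of_forall hcon
      rw [this, Finset.card_univ] at hbadu
      exact lt_irrefl _ hbadu
    refine ⟨(u, a), ?_, ?_, ?_⟩
    · show (u :: (u + a) :: det Z u a z).Nodup
      rw [PL_det]
      exact (PL_nodup hm Z B hZ a z ha2 ha3).map (add_right_injective u)
    · rw [Finset.disjoint_singleton_left]
      exact ha1
    · rw [Finset.disjoint_left]
      intro x hx hxV
      rw [List.mem_toFinset] at hx
      change x ∈ u :: (u + a) :: det Z u a z at hx
      rw [PL_det, List.mem_map] at hx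
      obtain ⟨o, ho, rfl⟩ := hx
      apply hu
      rw [Finset.mem_image]
      exact ⟨(o, u + o), Finset.mem_product.2 ⟨List.mem_toFinset.2 ho, hxV⟩, by simp⟩

end Pool.Agent.SNF
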