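import Pool.Agent.Lib_helper26.SNF.Defs
import Pool.Agent.Lib_helper26.SNF.PL

/-! Block FP (project SNF): the places of the stock sets. -/

namespace Pool.Agent.SNF

open Finset Pool.Agent.SDN

theorem FP_nodup {G : Type*} {s : ℕ} (f : Fin s → List G) :
    ((List.ofFn f).flatten).Nodup ↔
      (∀ z, (f z).Nodup) ∧ ∀ z z', z ≠ z' → List.Disjoint (f z) (f z') := by
  rw [List.nodup_flatten, List.pairwise_ofFn]
  constructor
  · rintro ⟨h1, h2⟩
    refine ⟨fun z => h1 _ (by rw [List.mem_ofFn]; exact ⟨z, rfl⟩), fun z z' hne => ?_⟩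
    rcases lt_or_gt_of_ne hne with h | h
    · exact h2 h
    · exact (h2 h).symm
  · rintro ⟨h1, h2⟩
    refine ⟨fun l hl => ?_, fun z z' h => h2 z z' h.ne⟩
    rw [List.mem_ofFn] at hl
    obtain ⟨z, rfl⟩ := hl
    exact h1 z

theorem FP_det_length {G : Type*} [AddCommGroup G] {s m : ℕ} (hm : 3 ≤ m) (Z : Fin s → Fin m → G)
    (u a : G) (z : Fin s) : (det Z u a z).length = m := by
  simp only [det, List.length_append, List.length_map, List.length_range, List.length_cons,
    List.length_nil]
  omega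

open Classical in
theorem FP_det_card {G : Type*} [AddCommGroup G] {s m : ℕ} (hm : 3 ≤ m) (Z : Fin s → Fin m → G)
    (u a : Fin s → G) :
    ((univ : Finset (Fin s)).biUnion fun z => (det Z (u z) (a z) z).toFinset).card ≤ m * s := by
  have := Finset.card_biUnion_le_card_mul (univ : Finset (Fin s))
    (fun z => (det Z (u z) (a z) z).toFinset) m (by
      intro z _
      exact (List.toFinset_card_le _).trans (FP_det_length hm Z _ _ z).le)
  rw [card_univ, Fintype.card_fin] at this
  rw [mul_comm]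
  exact this

open Classical in
theorem front_places : ∃ C₂ : ℕ, ∀ {G : Type} [AddCommGroup G] [Fintype G] {s m : ℕ}
    (A Om R Φ : Finset G) (Z : Fin s → Fin m → G), 3 ≤ m → 20 ≤ s → Fam A 0 Z → R ⊆ A →
    (∀ z i, Z z i ∉ R) → Om.card + 1 = A.card → Φ ⊆ Om → 2 * Φ.card ≤ m * s →
    C₂ * (m + 2) ^ 2 * (m * s + R.card + (Fintype.card G - Om.card)) ≤ Fintype.card G →
    ∃ (h : ℕ) (W : Finset G) (u a : Fin s → G), h + 2 = m * s + R.card ∧
      W.card = 2 * h ∧ Φ ⊆ W ∧ W ⊆ Om ∧
      (∀ z, ∀ x ∈ det Z (u z) (a z) z, x ∈ W ∧ x ∉ Φ) ∧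
      ((List.ofFn fun z => det Z (u z) (a z) z).flatten).Nodup ∧
      (List.ofFn u ++ List.ofFn fun z => u z + a z).Nodup ∧
      (∀ z, u z ∈ Om ∧ u z ∉ W ∧ u z + a z ∈ Om ∧ u z + a z ∉ W) ∧
      Function.Injective a ∧ ∀ z, a z ∈ A ∧ a z ∉ R ∧ ∀ z' i, Z z' i ≠ a z := by
  refine ⟨1000, ?_⟩
  intro G _ _ s m A Om R Φ Z hm hs hZ hRA hZR hOm hΦ hΦc hbig
  set n := Fintype.card G with hn
  set x := m * s + R.card + (n - Om.card) with hx
  have hOmn : Om.card ≤ n := Finset.card_le_univ _
  have hAn : A.card ≤ n := Finset.card_le_univ _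
  have hms : 20 * m ≤ m * s := by nlinarith
  have hms3 : 3 * s ≤ m * s := by nlinarith
  have hx1 : m * s ≤ x := by omega
  have hx0 : 0 < x := by omega
  have hn1 : 1000 * (m + 2) * x ≤ n := by
    refine le_trans ?_ hbig
    have : 1000 * (m + 2) ≤ 1000 * (m + 2) ^ 2 := by nlinarith
    exact Nat.mul_le_mul_right _ this
  have hn2 : 5000 * x ≤ n := by
    refine le_trans ?_ hn1
    have : 5000 ≤ 1000 * (m + 2) := by omega
    exact Nat.mul_le_mul_right _ this
  have hCc : (Aᶜ ∪ R ∪ ((univ : Finset (Fin s × Fin m)).image fun p => Z p.1 p.2)).card ≤ x := by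
    refine (card_union_le _ _).trans ?_
    have e1 := card_union_le (Aᶜ) R
    have e2 : ((univ : Finset (Fin s × Fin m)).image fun p => Z p.1 p.2).card ≤ m * s := by
      refine card_image_le.trans ?_
      simp [mul_comm]
    have e3 : (Aᶜ).card = n - A.card := card_compl A
    omega
  have hVc : (Omᶜ ∪ Φ).card ≤ x := by
    refine (card_union_le _ _).trans ?_
    have e3 : (Omᶜ).card = n - Om.card := card_compl Om
    omega
  obtain ⟨u, a, hainj, haC, hV, hnd⟩ := places hm Z A hZ
    (Aᶜ ∪ R ∪ ((univ : Finset (Fin s × Fin m)).image fun p => Z p.1 p.2)) (Omᶜ ∪ Φ)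
    (by omega)
    (by
      have e : (m + 2) * s ≤ 2 * x := by nlinarith
      have e2 : (m + 2) * ((Omᶜ ∪ Φ).card + (m + 2) * s) ≤ (m + 2) * (3 * x) :=
        Nat.mul_le_mul_left _ (by omega)
      have e3 : (m + 2) * (3 * x) < 1000 * (m + 2) * x := by
        have : 0 < (m + 2) * x := by positivity
        nlinarith
      exact lt_of_lt_of_le (lt_of_le_of_lt e2 e3) hn1)
  rw [FP_nodup] at hnd
  obtain ⟨hnd1, hnd2⟩ := hnd
  have hVO : ∀ z, ∀ y ∈ u z :: (u z + a z) :: det Z (u z) (a z) z, y ∈ Om ∧ y ∉ Φ := by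
    intro z y hy
    have := hV z y hy
    simp only [mem_union, mem_compl, not_or, not_not] at this
    exact this
  set UV : Finset G := (univ.image u) ∪ (univ.image fun z => u z + a z) with hUV
  set DV : Finset G := (univ : Finset (Fin s)).biUnion fun z => (det Z (u z) (a z) z).toFinset
    with hDV
  have hUVc : UV.card ≤ 2 * s := by
    refine (card_union_le _ _).trans ?_
    have e1 : (univ.image u).card ≤ s := card_image_le.trans (by simp)
    have e2 : (univ.image fun z => u z + a z).card ≤ s := card_image_le.trans (by simp)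
    omega
  have hDVc : DV.card ≤ m * s := FP_det_card hm Z u a
  have hdisj : ∀ y ∈ DV, y ∉ UV := by
    intro y hy hy'
    rw [hDV, mem_biUnion] at hy
    obtain ⟨z, -, hz⟩ := hy
    rw [List.mem_toFinset] at hz
    rw [hUV, mem_union, mem_image, mem_image] at hy'
    have key : ∀ z', y = u z' ∨ y = u z' + a z' → False := by
      intro z' h
      by_cases hzz : z = z'
      · subst hzz
        have h1 := hnd1 z
        rw [List.nodup_cons, List.nodup_cons] at h1
        rcases h with h | h
        · exact h1.1 (List.mem_cons_of_mem _ (h ▸ hz))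
        · exact h1.2.1 (h ▸ hz)
      · have h1 := hnd2 z z' hzz
        refine h1 (a := y) (List.mem_cons_of_mem _ (List.mem_cons_of_mem _ hz)) ?_
        rcases h with h | h
        · rw [h]; exact List.mem_cons_self
        · rw [h]; exact List.mem_cons_of_mem _ List.mem_cons_self
    rcases hy' with ⟨z', -, h⟩ | ⟨z', -, h⟩
    · exact key z' (Or.inl h.symm)
    · exact key z' (Or.inr h.symm)
  have hsub : Φ ∪ DV ⊆ Om \ UV := by
    intro y hy
    rw [mem_sdiff]
    rcases mem_union.1 hy with h | h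
    · refine ⟨hΦ h, fun h' => ?_⟩
      rw [hUV, mem_union, mem_image, mem_image] at h'
      rcases h' with ⟨z, -, hz⟩ | ⟨z, -, hz⟩
      · exact (hVO z (u z) List.mem_cons_self).2 (hz ▸ h)
      · exact (hVO z (u z + a z) (List.mem_cons_of_mem _ List.mem_cons_self)).2 (hz ▸ h)
    · refine ⟨?_, hdisj y h⟩
      rw [hDV, mem_biUnion] at h
      obtain ⟨z, -, hz⟩ := h
      rw [List.mem_toFinset] at hz
      exact (hVO z y (List.mem_cons_of_mem _ (List.mem_cons_of_mem _ hz))).1
  have hc1 : (Φ ∪ DV).card ≤ 2 * (m * s + R.card - 2) := by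
    have := card_union_le Φ DV
    omega
  have hc2 : 2 * (m * s + R.card - 2) ≤ (Om \ UV).card := by
    have h1 := Finset.le_card_sdiff UV Om
    omega
  obtain ⟨W, hW1, hW2, hW3⟩ := Finset.exists_subsuperset_card_eq hsub hc1 hc2
  refine ⟨m * s + R.card - 2, W, u, a, by omega, hW3, ?_, ?_, ?_, ?_, ?_, ?_, hainj, ?_⟩
  · exact subset_union_left.trans hW1
  · exact hW2.trans sdiff_subset
  · intro z y hy
    refine ⟨hW1 (mem_union_right _ ?_), (hVO z y (List.mem_cons_of_mem _
      (List.mem_cons_of_mem _ hy))).2⟩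
    rw [hDV, mem_biUnion]
    exact ⟨z, mem_univ _, List.mem_toFinset.2 hy⟩
  · rw [FP_nodup]
    refine ⟨fun z => ?_, fun z z' hne => ?_⟩
    · have h1 := hnd1 z
      rw [List.nodup_cons, List.nodup_cons] at h1
      exact h1.2.2
    · intro y hy hy'
      exact hnd2 z z' hne (List.mem_cons_of_mem _ (List.mem_cons_of_mem _ hy))
        (List.mem_cons_of_mem _ (List.mem_cons_of_mem _ hy'))
  · rw [List.nodup_append]
    refine ⟨?_, ?_, ?_⟩
    · rw [List.nodup_ofFn]
      intro z z' h
      by_contra hne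
      refine hnd2 z z' hne (a := u z) List.mem_cons_self ?_
      rw [h]; exact List.mem_cons_self
    · rw [List.nodup_ofFn]
      intro z z' h
      by_contra hne
      refine hnd2 z z' hne (a := u z + a z) (List.mem_cons_of_mem _ List.mem_cons_self) ?_
      have h' : u z + a z = u z' + a z' := h
      rw [h']; exact List.mem_cons_of_mem _ List.mem_cons_self
    · intro y hy y' hy' hyy
      subst hyy
      rw [List.mem_ofFn] at hy hy'
      obtain ⟨z, hz⟩ := hy
      obtain ⟨z', hz'⟩ := hy'
      by_cases hzz : z = z'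
      · subst hzz
        have h1 := hnd1 z
        rw [List.nodup_cons] at h1
        exact h1.1 (List.mem_cons.2 (Or.inl (hz.trans hz'.symm)))
      · refine hnd2 z z' hzz (a := y) ?_ ?_
        · rw [← hz]; exact List.mem_cons_self
        · rw [← hz']; exact List.mem_cons_of_mem _ List.mem_cons_self
  · intro z
    have hu : u z ∈ UV := by
      rw [hUV, mem_union]
      exact Or.inl (mem_image_of_mem _ (mem_univ z))
    have hv : u z + a z ∈ UV := by
      rw [hUV, mem_union]
      exact Or.inr (mem_image.2 ⟨z, mem_univ z, rfl⟩)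
    refine ⟨(hVO z _ List.mem_cons_self).1, fun h => ?_,
      (hVO z _ (List.mem_cons_of_mem _ List.mem_cons_self)).1, fun h => ?_⟩
    · exact (mem_sdiff.1 (hW2 h)).2 hu
    · exact (mem_sdiff.1 (hW2 h)).2 hv
  · intro z
    have := haC z
    simp only [mem_union, mem_compl, mem_image, mem_univ, true_and, not_or, not_not,
      not_exists, Prod.forall] at this
    exact ⟨this.1.1, this.1.2, fun z' i => this.2 z' i⟩

end Pool.Agent.SNF
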