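import Pool.Agent.Lib_helper26.SNF.Defs
import Pool.Agent.Lib_helper26.SNF.AB
import Pool.Agent.Lib_helper26.SNF.FP
import Pool.Agent.Lib_helper26.SNF.FL

/-! Block FT (project SNF): the front part. -/

namespace Pool.Agent.SNF

open Finset Pool.Agent.SDN

private theorem FT_app {α : Type*} {l₁ l₂ : List α} (h1 : l₁.Nodup) (h2 : l₂.Nodup)
    (h : ∀ x ∈ l₁, x ∉ l₂) : (l₁ ++ l₂).Nodup := by
  rw [List.nodup_append']
  exact ⟨h1, h2, fun x hx hx' => h x hx hx'⟩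

open Classical in
theorem front : ∃ C₂ : ℕ, ∀ {G : Type} [AddCommGroup G] [Fintype G] {s m : ℕ}
    (A Om R Φ : Finset G) (Z : Fin s → Fin m → G), 3 ≤ m → 20 ≤ s → Fam A 0 Z → R ⊆ A →
    (∀ z i, Z z i ∉ R) → (0 : G) ∉ A → (0 : G) ∉ Om → Om.card + 1 = A.card → Φ ⊆ Om →
    2 * Φ.card ≤ m * s →
    C₂ * (m + 2) ^ 2 * (m * s + R.card + (Fintype.card G - Om.card)) ≤ Fintype.card G →
    ∃ (h q : ℕ) (W D Q : Finset G) (p e : Fin q → G) (u a : Fin s → G) (w₁ w₂ w₃ : G)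
      (x₁ y₁ : Fin (q + 1) → G) (x₂ y₂ : Fin (s + 1) → G),
      q ≤ C₂ * (m * s + R.card) ∧ Q.card ≤ C₂ * (m * s + R.card) ∧
      Front A Om R Φ Z h q W D Q p e u a w₁ w₂ w₃ x₁ y₁ x₂ y₂ := by
  obtain ⟨CP, hCP⟩ := front_places
  obtain ⟨CA, hCA1, hCA⟩ := absorber
  refine ⟨CP + 10000 * (CA + 1), ?_⟩
  intro G _ _ s m A Om R Φ Z hm hs hF hRA hZR h0A h0 hOA hΦ hΦc hbig
  set n := Fintype.card G with hn
  set T := m * s + R.card + (n - Om.card) with hT
  have hbig1 : CP * (m + 2) ^ 2 * T + 10000 * (CA + 1) * (m + 2) ^ 2 * T ≤ n := by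
    refine le_trans (le_of_eq ?_) hbig
    ring
  have hbig2 : 10000 * (CA + 1) * T ≤ n := by
    have h2 : 1 ≤ (m + 2) ^ 2 := Nat.one_le_pow _ _ (by omega)
    have h3 : 10000 * (CA + 1) * T ≤ (m + 2) ^ 2 * (10000 * (CA + 1) * T) :=
      Nat.le_mul_of_pos_left _ h2
    have h4 : 10000 * (CA + 1) * (m + 2) ^ 2 * T = (m + 2) ^ 2 * (10000 * (CA + 1) * T) := by
      ring
    rw [h4] at hbig1
    exact h3.trans ((Nat.le_add_left _ _).trans hbig1)
  obtain ⟨h, W, u, a, hh, hWc, hΦW, hWO, hdet, hdetN, huN, hu, ha, haA⟩ :=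
    hCP A Om R Φ Z hm hs hF hRA hZR hOA hΦ hΦc ((Nat.le_add_right _ _).trans hbig1)
  have hms : 60 ≤ m * s := by nlinarith
  have hs3 : 3 * s ≤ m * s := Nat.mul_le_mul_right s hm
  have hTms : m * s + R.card ≤ T := by omega
  have hh10 : 10 ≤ h := by omega
  set SK : Finset G := univ.image fun z : Fin s × Fin m => Z z.1 z.2 with hSK
  have hSKc : SK.card ≤ m * s := by
    refine card_image_le.trans ?_
    rw [card_univ, Fintype.card_prod, Fintype.card_fin, Fintype.card_fin, Nat.mul_comm]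
  set C₀ : Finset G := Aᶜ ∪ (R ∪ (SK ∪ univ.image a)) with hC₀
  have hOmn : Om.card ≤ n := card_le_univ Om
  have hC₀c : C₀.card ≤ 2 * T := by
    have h1 : Aᶜ.card = n - A.card := card_compl A
    have h2 : (univ.image a).card ≤ s := by
      refine card_image_le.trans ?_
      rw [card_univ, Fintype.card_fin]
    have h3 : C₀.card ≤ _ := card_union_le Aᶜ (R ∪ (SK ∪ univ.image a))
    have h4 := card_union_le R (SK ∪ univ.image a)
    have h5 := card_union_le SK (univ.image a)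
    omega
  set V₀ : Finset G := Omᶜ ∪ (W ∪ (univ.image u ∪ univ.image fun z => u z + a z)) with hV₀
  have hV₀c : V₀.card ≤ 4 * T := by
    have h1 : Omᶜ.card = n - Om.card := card_compl Om
    have h2 : (univ.image u).card ≤ s := by
      refine card_image_le.trans ?_
      rw [card_univ, Fintype.card_fin]
    have h2' : (univ.image fun z => u z + a z).card ≤ s := by
      refine card_image_le.trans ?_
      rw [card_univ, Fintype.card_fin]
    have h3 : V₀.card ≤ _ := card_union_le Omᶜ (W ∪ (univ.image u ∪ univ.image fun z => u z + a z))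
    have h4 := card_union_le W (univ.image u ∪ univ.image fun z => u z + a z)
    have h5 := card_union_le (univ.image u) (univ.image fun z => u z + a z)
    omega
  have hmul : 10000 * CA * T + 10000 * T ≤ n := by
    refine le_trans (le_of_eq ?_) hbig2
    ring
  have hCAh : CA * h ≤ CA * T := Nat.mul_le_mul_left _ (by omega)
  have hCAT : 10000 * (CA * T) + 10000 * T ≤ n := by
    refine le_trans (le_of_eq ?_) hbig2
    ring
  obtain ⟨q, p, e, D, Q, hq, hDc, hQc, hDC, hQV, hpi, hei, hpe, hpQ, hQD, habs⟩ :=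
    hCA h W C₀ V₀ hh10 hWc (by
      rw [hV₀]
      exact subset_union_left.trans subset_union_right) (by omega) (by omega) (by omega)
  have h0V : (0 : G) ∈ V₀ := by
    rw [hV₀]
    exact mem_union_left _ (mem_compl.2 h0)
  have hQV' : ∀ x ∈ Q, x ∉ V₀ := fun x hx => Finset.disjoint_left.1 hQV hx
  have hDC' : ∀ x ∈ D, x ∉ C₀ := fun x hx => Finset.disjoint_left.1 hDC hx
  have huV : ∀ z, u z ∈ V₀ := by
    intro z
    rw [hV₀]
    exact mem_union_right _ (mem_union_right _ (mem_union_left _ (mem_image_of_mem _ (mem_univ _))))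
  have huaV : ∀ z, u z + a z ∈ V₀ := by
    intro z
    rw [hV₀]
    exact mem_union_right _ (mem_union_right _ (mem_union_right _
      (mem_image.2 ⟨z, mem_univ _, rfl⟩)))
  -- way points
  obtain ⟨w₁, w₂, w₃, hw12, hw13, hw23, hw⟩ : ∃ w₁ w₂ w₃ : G, w₁ ≠ w₂ ∧ w₁ ≠ w₃ ∧ w₂ ≠ w₃ ∧
      ∀ x, x = w₁ ∨ x = w₂ ∨ x = w₃ → x ∉ V₀ ∧ x ∉ Q := by
    have h1 : 3 ≤ ((V₀ ∪ Q)ᶜ).card := by
      rw [card_compl]
      have := card_union_le V₀ Q
      omega
    obtain ⟨t, ht, htc⟩ := exists_subset_card_eq h1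
    obtain ⟨w₁, w₂, w₃, h12, h13, h23, rfl⟩ := card_eq_three.1 htc
    refine ⟨w₁, w₂, w₃, h12, h13, h23, ?_⟩
    intro x hx
    have h2 : x ∈ (V₀ ∪ Q)ᶜ := ht (by simpa using hx)
    rw [mem_compl, mem_union, not_or] at h2
    exact h2
  have hw₁ := hw w₁ (Or.inl rfl)
  have hw₂ := hw w₂ (Or.inr (Or.inl rfl))
  have hw₃ := hw w₃ (Or.inr (Or.inr rfl))
  set WP : Finset G := {w₁, w₂, w₃} with hWP
  have hWPc : WP.card ≤ 3 := card_le_three
  -- chain 1
  set X₁ : Fin (q + 1) → G := Fin.cons 0 e with hX₁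
  set Y₁ : Fin (q + 1) → G := Fin.snoc p w₁ with hY₁
  have hXY₁ : ∀ i, X₁ i ≠ Y₁ i := by
    intro i
    have hXm : X₁ i = 0 ∨ ∃ j, X₁ i = e j := by
      refine Fin.cases ?_ (fun j => ?_) i
      · left
        rfl
      · right
        exact ⟨j, rfl⟩
    have hYm : Y₁ i = w₁ ∨ ∃ j, Y₁ i = p j := by
      refine Fin.lastCases ?_ (fun j => ?_) i
      · left
        simp [hY₁]
      · right
        exact ⟨j, by simp [hY₁]⟩
    rcases hXm with h1 | ⟨j, h1⟩ <;> rcases hYm with h2 | ⟨k, h2⟩ <;> rw [h1, h2]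
    · intro h3
      exact hw₁.1 (h3 ▸ h0V)
    · intro h3
      exact hQV' _ (hpQ k).1 (h3 ▸ h0V)
    · intro h3
      exact hw₁.2 (h3 ▸ (hpQ j).2)
    · exact fun h3 => hpe k j h3.symm
  obtain ⟨x₁, y₁, hxy₁, hN₁, hc₁, hi₁, hv₁⟩ := free_links X₁ Y₁ hXY₁ (C₀ ∪ D) (V₀ ∪ (Q ∪ WP))
    (by
      have := card_union_le C₀ D
      omega) (by
      have h1 := card_union_le V₀ (Q ∪ WP)
      have h2 := card_union_le Q WP
      omega)
  -- chain 2
  set X₂ : Fin (s + 1) → G := Fin.cons w₁ (fun z => u z + a z) with hX₂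
  set Y₂ : Fin (s + 1) → G := Fin.snoc u w₂ with hY₂
  have huu : ∀ z z', u z + a z ≠ u z' := by
    intro z z' h1
    rw [List.nodup_append'] at huN
    exact huN.2.2 (List.mem_ofFn.2 ⟨z', rfl⟩) (List.mem_ofFn.2 ⟨z, h1⟩)
  have hXY₂ : ∀ i, X₂ i ≠ Y₂ i := by
    intro i
    have hXm : X₂ i = w₁ ∨ ∃ j, X₂ i = u j + a j := by
      refine Fin.cases ?_ (fun j => ?_) i
      · left
        rfl
      · right
        exact ⟨j, rfl⟩
    have hYm : Y₂ i = w₂ ∨ ∃ j, Y₂ i = u j := by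
      refine Fin.lastCases ?_ (fun j => ?_) i
      · left
        simp [hY₂]
      · right
        exact ⟨j, by simp [hY₂]⟩
    rcases hXm with h1 | ⟨j, h1⟩ <;> rcases hYm with h2 | ⟨k, h2⟩ <;> rw [h1, h2]
    · exact hw12
    · intro h3
      exact hw₁.1 (h3 ▸ huV k)
    · intro h3
      exact hw₂.1 (h3 ▸ huaV j)
    · exact huu j k
  set c₁ : Fin (q + 1) → G := fun i => X₁ i + x₁ i with hc₁d
  have hcard₁ : ∀ f : Fin (q + 1) → G, (univ.image f).card ≤ q + 1 := by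
    intro f
    refine card_image_le.trans ?_
    rw [card_univ, Fintype.card_fin]
  obtain ⟨x₂, y₂, hxy₂, hN₂, hc₂, hi₂, hv₂⟩ := free_links X₂ Y₂ hXY₂
    ((C₀ ∪ D) ∪ (univ.image x₁ ∪ univ.image y₁)) ((V₀ ∪ (Q ∪ WP)) ∪ univ.image c₁)
    (by
      have h1 := card_union_le (C₀ ∪ D) (univ.image x₁ ∪ univ.image y₁)
      have h2 := card_union_le C₀ D
      have h3 := card_union_le (univ.image x₁) (univ.image y₁)
      have h4 := hcard₁ x₁
      have h5 := hcard₁ y₁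
      omega) (by
      have h1 := card_union_le (V₀ ∪ (Q ∪ WP)) (univ.image c₁)
      have h2 := card_union_le V₀ (Q ∪ WP)
      have h3 := card_union_le Q WP
      have h4 := hcard₁ c₁
      omega)
  have hv₁' : ∀ i, c₁ i ∉ V₀ ∧ c₁ i ∉ Q ∧ c₁ i ∉ WP := by
    intro i
    have h1 := hv₁ i
    simp only [mem_union, not_or] at h1
    exact h1
  have hv₂' : ∀ i, X₂ i + x₂ i ∉ V₀ ∧ X₂ i + x₂ i ∉ Q ∧ X₂ i + x₂ i ∉ WP ∧
      ∀ j, c₁ j ≠ X₂ i + x₂ i := by
    intro i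
    have h1 := hv₂ i
    simp only [mem_union, not_or, mem_image, mem_univ, true_and, not_exists] at h1
    exact ⟨h1.1.1, h1.1.2.1, h1.1.2.2, h1.2⟩
  have hWPm : ∀ x, x ∈ WP ↔ x = w₁ ∨ x = w₂ ∨ x = w₃ := by
    intro x
    simp [hWP]
  have hVout : ∀ x, x ∉ V₀ → x ∈ Om ∧ x ∉ W := by
    intro x hx
    simp only [hV₀, mem_union, mem_compl, not_or, not_not] at hx
    exact ⟨hx.1, hx.2.1⟩
  have hCout : ∀ x, x ∉ C₀ → x ∈ A ∧ x ∉ R ∧ (∀ z i, Z z i ≠ x) ∧ ∀ z, a z ≠ x := by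
    intro x hx
    simp only [hC₀, hSK, mem_union, mem_compl, not_or, not_not, mem_image, mem_univ, true_and,
      not_exists, Prod.forall] at hx
    exact ⟨hx.1, hx.2.1, hx.2.2.1, hx.2.2.2⟩
  have hc₁' : ∀ i, (x₁ i ∉ C₀ ∧ x₁ i ∉ D) ∧ (y₁ i ∉ C₀ ∧ y₁ i ∉ D) := by
    intro i
    have h1 := hc₁ i
    simp only [mem_union, not_or] at h1
    exact h1
  have hc₂' : ∀ i, (x₂ i ∉ C₀ ∧ x₂ i ∉ D ∧ (∀ j, x₁ j ≠ x₂ i) ∧ ∀ j, y₁ j ≠ x₂ i) ∧
      (y₂ i ∉ C₀ ∧ y₂ i ∉ D ∧ (∀ j, x₁ j ≠ y₂ i) ∧ ∀ j, y₁ j ≠ y₂ i) := by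
    intro i
    have h1 := hc₂ i
    simp only [mem_union, not_or, mem_image, mem_univ, true_and, not_exists] at h1
    exact ⟨⟨h1.1.1.1, h1.1.1.2, h1.1.2.1, h1.1.2.2⟩, ⟨h1.2.1.1, h1.2.1.2, h1.2.2.1, h1.2.2.2⟩⟩
  have haC : ∀ z, a z ∈ C₀ := by
    intro z
    rw [hC₀]
    exact mem_union_right _ (mem_union_right _ (mem_union_right _
      (mem_image_of_mem _ (mem_univ _))))
  have hle1 : CA * h ≤ (CP + 10000 * (CA + 1)) * (m * s + R.card) :=
    Nat.mul_le_mul (by omega) (by omega)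
  rw [List.nodup_append'] at hN₁ hN₂ huN
  refine ⟨h, q, W, D, Q, p, e, u, a, w₁, w₂, w₃, x₁, y₁, x₂, y₂, hq.trans hle1, hQc.trans hle1,
    hh, hWc, hΦW, hWO, hQD, hdet, hdetN, ?_, ?_, ?_, ?_, hxy₁, hxy₂, habs⟩
  · -- vertices
    show (Q.toList ++ (List.ofFn (fun i => X₁ i + x₁ i) ++
      (List.ofFn u ++ (List.ofFn (fun z => u z + a z) ++
      (List.ofFn (fun i => X₂ i + x₂ i) ++ [w₁, w₂, w₃]))))).Nodup
    refine FT_app (nodup_toList _) (FT_app (List.nodup_ofFn.2 hi₁) (FT_app huN.1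
      (FT_app huN.2.1 (FT_app (List.nodup_ofFn.2 hi₂) ?_ ?_) ?_) ?_) ?_) ?_
    · simp [hw12, hw13, hw23]
    · intro x hx hx'
      obtain ⟨i, rfl⟩ := List.mem_ofFn.1 hx
      exact (hv₂' i).2.2.1 (by rw [hWPm]; simpa using hx')
    · intro x hx hx'
      obtain ⟨i, rfl⟩ := List.mem_ofFn.1 hx
      rcases List.mem_append.1 hx' with h1 | h1
      · obtain ⟨j, h2⟩ := List.mem_ofFn.1 h1
        exact (hv₂' j).1 (h2 ▸ huaV i)
      · exact (hw _ (by simpa using h1)).1 (huaV i)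
    · intro x hx hx'
      obtain ⟨i, rfl⟩ := List.mem_ofFn.1 hx
      rcases List.mem_append.1 hx' with h1 | h1
      · exact huN.2.2 hx h1
      rcases List.mem_append.1 h1 with h1 | h1
      · obtain ⟨j, h2⟩ := List.mem_ofFn.1 h1
        exact (hv₂' j).1 (h2 ▸ huV i)
      · exact (hw _ (by simpa using h1)).1 (huV i)
    · intro x hx hx'
      obtain ⟨i, rfl⟩ := List.mem_ofFn.1 hx
      rcases List.mem_append.1 hx' with h1 | h1
      · obtain ⟨j, h2⟩ := List.mem_ofFn.1 h1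
        exact (hv₁' i).1 ((show u j = c₁ i from h2) ▸ huV j)
      rcases List.mem_append.1 h1 with h1 | h1
      · obtain ⟨j, h2⟩ := List.mem_ofFn.1 h1
        exact (hv₁' i).1 ((show u j + a j = c₁ i from h2) ▸ huaV j)
      rcases List.mem_append.1 h1 with h1 | h1
      · obtain ⟨j, h2⟩ := List.mem_ofFn.1 h1
        exact (hv₂' j).2.2.2 i h2.symm
      · exact (hv₁' i).2.2 (by rw [hWPm]; simpa using h1)
    · intro x hx hx'
      rw [mem_toList] at hx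
      rcases List.mem_append.1 hx' with h1 | h1
      · obtain ⟨j, h2⟩ := List.mem_ofFn.1 h1
        exact (hv₁' j).2.1 ((show c₁ j = x from h2) ▸ hx)
      rcases List.mem_append.1 h1 with h1 | h1
      · obtain ⟨j, h2⟩ := List.mem_ofFn.1 h1
        exact hQV' x hx (h2 ▸ huV j)
      rcases List.mem_append.1 h1 with h1 | h1
      · obtain ⟨j, h2⟩ := List.mem_ofFn.1 h1
        exact hQV' x hx (h2 ▸ huaV j)
      rcases List.mem_append.1 h1 with h1 | h1
      · obtain ⟨j, h2⟩ := List.mem_ofFn.1 h1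
        exact (hv₂' j).2.1 (h2 ▸ hx)
      · exact (hw _ (by simpa using h1)).2 hx
  · intro x hx
    have hx' : x ∈ (Q.toList ++ (List.ofFn (fun i => X₁ i + x₁ i) ++
      (List.ofFn u ++ (List.ofFn (fun z => u z + a z) ++
      (List.ofFn (fun i => X₂ i + x₂ i) ++ [w₁, w₂, w₃]))))) := hx
    rcases List.mem_append.1 hx' with h1 | h1
    · rw [mem_toList] at h1
      exact hVout x (hQV' x h1)
    rcases List.mem_append.1 h1 with h1 | h1
    · obtain ⟨j, rfl⟩ := List.mem_ofFn.1 h1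
      exact hVout _ (hv₁' j).1
    rcases List.mem_append.1 h1 with h1 | h1
    · obtain ⟨j, rfl⟩ := List.mem_ofFn.1 h1
      exact ⟨(hu j).1, (hu j).2.1⟩
    rcases List.mem_append.1 h1 with h1 | h1
    · obtain ⟨j, rfl⟩ := List.mem_ofFn.1 h1
      exact ⟨(hu j).2.2.1, (hu j).2.2.2⟩
    rcases List.mem_append.1 h1 with h1 | h1
    · obtain ⟨j, rfl⟩ := List.mem_ofFn.1 h1
      exact hVout _ (hv₂' j).1
    · exact hVout _ (hw _ (by simpa using h1)).1
  · -- colours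
    show (D.toList ++ (List.ofFn x₁ ++ (List.ofFn y₁ ++ (List.ofFn a ++ (List.ofFn x₂ ++
      List.ofFn y₂))))).Nodup
    refine FT_app (nodup_toList _) (FT_app hN₁.1 (FT_app hN₁.2.1
      (FT_app (List.nodup_ofFn.2 ha) (FT_app hN₂.1 hN₂.2.1 ?_) ?_) ?_) ?_) ?_
    · exact fun x hx hx' => hN₂.2.2 hx hx'
    · intro x hx hx'
      obtain ⟨i, rfl⟩ := List.mem_ofFn.1 hx
      rcases List.mem_append.1 hx' with h1 | h1
      · obtain ⟨j, h2⟩ := List.mem_ofFn.1 h1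
        exact (hc₂' j).1.1 (h2 ▸ haC i)
      · obtain ⟨j, h2⟩ := List.mem_ofFn.1 h1
        exact (hc₂' j).2.1 (h2 ▸ haC i)
    · intro x hx hx'
      obtain ⟨i, rfl⟩ := List.mem_ofFn.1 hx
      rcases List.mem_append.1 hx' with h1 | h1
      · obtain ⟨j, h2⟩ := List.mem_ofFn.1 h1
        exact (hc₁' i).2.1 (h2 ▸ haC j)
      rcases List.mem_append.1 h1 with h1 | h1
      · obtain ⟨j, h2⟩ := List.mem_ofFn.1 h1
        exact (hc₂' j).1.2.2.2 i h2.symm
      · obtain ⟨j, h2⟩ := List.mem_ofFn.1 h1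
        exact (hc₂' j).2.2.2.2 i h2.symm
    · intro x hx hx'
      obtain ⟨i, rfl⟩ := List.mem_ofFn.1 hx
      rcases List.mem_append.1 hx' with h1 | h1
      · exact hN₁.2.2 hx h1
      rcases List.mem_append.1 h1 with h1 | h1
      · obtain ⟨j, h2⟩ := List.mem_ofFn.1 h1
        exact (hc₁' i).1.1 (h2 ▸ haC j)
      rcases List.mem_append.1 h1 with h1 | h1
      · obtain ⟨j, h2⟩ := List.mem_ofFn.1 h1
        exact (hc₂' j).1.2.2.1 i h2.symm
      · obtain ⟨j, h2⟩ := List.mem_ofFn.1 h1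
        exact (hc₂' j).2.2.2.1 i h2.symm
    · intro x hx hx'
      rw [mem_toList] at hx
      rcases List.mem_append.1 hx' with h1 | h1
      · obtain ⟨j, h2⟩ := List.mem_ofFn.1 h1
        exact (hc₁' j).1.2 (h2 ▸ hx)
      rcases List.mem_append.1 h1 with h1 | h1
      · obtain ⟨j, h2⟩ := List.mem_ofFn.1 h1
        exact (hc₁' j).2.2 (h2 ▸ hx)
      rcases List.mem_append.1 h1 with h1 | h1
      · obtain ⟨j, h2⟩ := List.mem_ofFn.1 h1
        exact hDC' x hx (h2 ▸ haC j)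
      rcases List.mem_append.1 h1 with h1 | h1
      · obtain ⟨j, h2⟩ := List.mem_ofFn.1 h1
        exact (hc₂' j).1.2.1 (h2 ▸ hx)
      · obtain ⟨j, h2⟩ := List.mem_ofFn.1 h1
        exact (hc₂' j).2.2.1 (h2 ▸ hx)
  · intro x hx
    have hC3 : ∀ x, x ∉ C₀ → x ∈ A ∧ x ∉ R ∧ ∀ z i, Z z i ≠ x := fun x hx =>
      ⟨(hCout x hx).1, (hCout x hx).2.1, (hCout x hx).2.2.1⟩
    have hx' : x ∈ (D.toList ++ (List.ofFn x₁ ++ (List.ofFn y₁ ++ (List.ofFn a ++
      (List.ofFn x₂ ++ List.ofFn y₂))))) := hx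
    rcases List.mem_append.1 hx' with h1 | h1
    · rw [mem_toList] at h1
      exact hC3 x (hDC' x h1)
    rcases List.mem_append.1 h1 with h1 | h1
    · obtain ⟨j, rfl⟩ := List.mem_ofFn.1 h1
      exact hC3 _ (hc₁' j).1.1
    rcases List.mem_append.1 h1 with h1 | h1
    · obtain ⟨j, rfl⟩ := List.mem_ofFn.1 h1
      exact hC3 _ (hc₁' j).2.1
    rcases List.mem_append.1 h1 with h1 | h1
    · obtain ⟨j, rfl⟩ := List.mem_ofFn.1 h1
      exact haA j
    rcases List.mem_append.1 h1 with h1 | h1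
    · obtain ⟨j, rfl⟩ := List.mem_ofFn.1 h1
      exact hC3 _ (hc₂' j).1.1
    · obtain ⟨j, rfl⟩ := List.mem_ofFn.1 h1
      exact hC3 _ (hc₂' j).2.1

end Pool.Agent.SNF
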