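import Pool.Agent.Lib_helper26.SNF.Defs
import Pool.Agent.Lib_helper26.SNF.DM

/-! Block FX (project SNF): fractional matching. -/

namespace Pool.Agent.SNF

open Finset Pool.Agent.SDN

section FX

theorem FX_prod_ge {G : Type*} [Fintype G] (p r : G → ℝ) (x : ℝ) (hp1 : ∀ a, p a ≤ 1)
    (hr1 : ∀ a, r a ≤ 1) (hp : ∑ a, p a = x) (hr : ∑ a, r a = x) :
    2 * x - Fintype.card G ≤ ∑ a, p a * r a := by
  have h1 : ∑ a, (p a + r a - 1) ≤ ∑ a, p a * r a := by
    refine Finset.sum_le_sum fun a _ => ?_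
    nlinarith [hp1 a, hr1 a, mul_nonneg (sub_nonneg.2 (hp1 a)) (sub_nonneg.2 (hr1 a))]
  rw [Finset.sum_sub_distrib, Finset.sum_add_distrib, hp, hr, Finset.sum_const, Finset.card_univ,
    nsmul_eq_mul, mul_one] at h1
  linarith

theorem FX_prod_le {G : Type*} [Fintype G] (p r : G → ℝ) (hp1 : ∀ a, p a ≤ 1)
    (hr0 : ∀ a, 0 ≤ r a) (hr1 : ∀ a, r a ≤ 1) : ∑ a, p a * r a ≤ Fintype.card G := by
  have h1 : ∑ a, p a * r a ≤ ∑ _a : G, (1 : ℝ) := by
    refine Finset.sum_le_sum fun a _ => ?_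
    exact mul_le_one₀ (hp1 a) (hr0 a) (hr1 a)
  rw [Finset.sum_const, Finset.card_univ, nsmul_eq_mul, mul_one] at h1
  exact h1

theorem FX_compl_le {G : Type*} [Fintype G] (p r : G → ℝ) (x : ℝ) (hp1 : ∀ a, p a ≤ 1)
    (hr1 : ∀ a, r a ≤ 1) (hr : ∑ a, r a = x) :
    ∑ a, p a * (1 - r a) ≤ Fintype.card G - x := by
  have h1 : ∑ a, p a * (1 - r a) ≤ ∑ a, (1 - r a) := by
    refine Finset.sum_le_sum fun a _ => ?_
    have := mul_le_mul_of_nonneg_right (hp1 a) (sub_nonneg.2 (hr1 a))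
    linarith
  rw [Finset.sum_sub_distrib, hr, Finset.sum_const, Finset.card_univ, nsmul_eq_mul, mul_one] at h1
  exact h1

theorem FX_core {G : Type*} [AddCommGroup G] [Fintype G] (iX iB : G → ℝ) (x : ℝ) (X0 : ∀ a, iX a = 0 ∨ iX a = 1)
    (B0 : ∀ a, iB a = 0 ∨ iB a = 1) (hX : ∑ a, iX a = x) (hB : ∑ a, iB a = x) (hx : 0 < x)
    (hx1 : x ≤ Fintype.card G) (hd : 50 * (Fintype.card G - x) ≤ Fintype.card G) :
    ∃ w : G → G → ℝ, (∀ v a, 0 ≤ w v a) ∧
      (∀ v a, w v a ≠ 0 → iX v = 1 ∧ iB a = 1 ∧ iX (v + a) = 1) ∧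
      (∀ v a, w v a ≤ 2 / Fintype.card G) ∧ (∀ v, iX v = 1 → ∑ a, w v a = 1) ∧
      (∀ u, iX u = 1 → ∑ a, w (u - a) a = 1) ∧ (∀ a, iB a = 1 → ∑ v, w v a = 1) := by
  set N : ℝ := (Fintype.card G : ℝ) with hN
  have hN0 : 0 < N := lt_of_lt_of_le hx hx1
  set del : ℝ := N - x with hdel
  have hdel0 : 0 ≤ del := by linarith
  have X1 : ∀ a, iX a ≤ 1 := fun a => by rcases X0 a with h | h <;> rw [h] <;> norm_num
  have Xn : ∀ a, 0 ≤ iX a := fun a => by rcases X0 a with h | h <;> rw [h] <;> norm_num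
  have B1 : ∀ a, iB a ≤ 1 := fun a => by rcases B0 a with h | h <;> rw [h] <;> norm_num
  have Bn : ∀ a, 0 ≤ iB a := fun a => by rcases B0 a with h | h <;> rw [h] <;> norm_num
  -- shifted sums
  have sX1 : ∀ v, ∑ a, iX (v + a) = x := fun v => by
    rw [← hX]; exact Equiv.sum_comp (Equiv.addLeft v) iX
  have sX2 : ∀ u, ∑ a, iX (u - a) = x := fun u => by
    rw [← hX]; exact Equiv.sum_comp (Equiv.subLeft u) iX
  have sX3 : ∀ a, ∑ v, iX (v + a) = x := fun a => by
    rw [← hX]; exact Equiv.sum_comp (Equiv.addRight a) iX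
  have sX4 : ∀ a, ∑ u, iX (u - a) = x := fun a => by
    rw [← hX]; exact Equiv.sum_comp (Equiv.subRight a) iX
  have sB1 : ∀ v, ∑ u, iB (u - v) = x := fun v => by
    rw [← hB]; exact Equiv.sum_comp (Equiv.subRight v) iB
  have sB2 : ∀ u, ∑ v, iB (u - v) = x := fun u => by
    rw [← hB]; exact Equiv.sum_comp (Equiv.subLeft u) iB
  -- the system
  let d1 : G → ℝ := fun v => ∑ a, iB a * iX (v + a)
  let d2 : G → ℝ := fun u => ∑ a, iB a * iX (u - a)
  let d3 : G → ℝ := fun a => ∑ v, iX v * iX (v + a)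
  let d : G ⊕ (G ⊕ G) → ℝ := Sum.elim d1 (Sum.elim d2 d3)
  let M : G ⊕ (G ⊕ G) → G ⊕ (G ⊕ G) → ℝ := Sum.elim
    (fun v => Sum.elim (fun _ => 0) (Sum.elim (fun u => iX u * (1 - iB (u - v)))
      (fun a => iB a * (1 - iX (v + a)))))
    (Sum.elim
      (fun u => Sum.elim (fun v => iX v * (1 - iB (u - v))) (Sum.elim (fun _ => 0)
        (fun a => iB a * (1 - iX (u - a)))))
      (fun a => Sum.elim (fun v => iX v * (1 - iX (v + a)))
        (Sum.elim (fun u => iX u * (1 - iX (u - a))) (fun _ => 0))))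
  have hdlow : ∀ i, N - 2 * del ≤ d i := by
    have e : N - 2 * del = 2 * x - N := by rw [hdel]; ring
    rintro (v | u | a)
    · rw [e]; exact FX_prod_ge _ _ x B1 (fun a => X1 _) hB (sX1 v)
    · rw [e]; exact FX_prod_ge _ _ x B1 (fun a => X1 _) hB (sX2 u)
    · rw [e]; exact FX_prod_ge _ _ x X1 (fun a => X1 _) hX (sX3 a)
  have hdup : ∀ i, d i ≤ N := by
    rintro (v | u | a)
    · exact FX_prod_le _ _ B1 (fun a => Xn _) (fun a => X1 _)
    · exact FX_prod_le _ _ B1 (fun a => Xn _) (fun a => X1 _)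
    · exact FX_prod_le _ _ X1 (fun a => Xn _) (fun a => X1 _)
  have hM0 : ∀ i j, 0 ≤ M i j := by
    rintro (v | v | v) (u | u | u)
    · exact le_rfl
    · exact mul_nonneg (Xn _) (sub_nonneg.2 (B1 _))
    · exact mul_nonneg (Bn _) (sub_nonneg.2 (X1 _))
    · exact mul_nonneg (Xn _) (sub_nonneg.2 (B1 _))
    · exact le_rfl
    · exact mul_nonneg (Bn _) (sub_nonneg.2 (X1 _))
    · exact mul_nonneg (Xn _) (sub_nonneg.2 (X1 _))
    · exact mul_nonneg (Xn _) (sub_nonneg.2 (X1 _))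
    · exact le_rfl
  have hMs : ∀ i, ∑ j, M i j ≤ 2 * del := by
    rintro (v | u | a)
    · rw [Fintype.sum_sum_type, Fintype.sum_sum_type]
      have h1 := FX_compl_le iX (fun u => iB (u - v)) x X1 (fun a => B1 _) (sB1 v)
      have h2 := FX_compl_le iB (fun a => iX (v + a)) x B1 (fun a => X1 _) (sX1 v)
      have h3 : ∑ _u : G, (0 : ℝ) = 0 := Finset.sum_const_zero
      change ∑ _u : G, (0 : ℝ) + (∑ u, iX u * (1 - iB (u - v)) + ∑ a, iB a * (1 - iX (v + a))) ≤ _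
      linarith
    · rw [Fintype.sum_sum_type, Fintype.sum_sum_type]
      have h1 := FX_compl_le iX (fun v => iB (u - v)) x X1 (fun a => B1 _) (sB2 u)
      have h2 := FX_compl_le iB (fun a => iX (u - a)) x B1 (fun a => X1 _) (sX2 u)
      have h3 : ∑ _u : G, (0 : ℝ) = 0 := Finset.sum_const_zero
      change ∑ v, iX v * (1 - iB (u - v)) + (∑ _u : G, (0 : ℝ) + ∑ a, iB a * (1 - iX (u - a))) ≤ _
      linarith
    · rw [Fintype.sum_sum_type, Fintype.sum_sum_type]
      have h1 := FX_compl_le iX (fun v => iX (v + a)) x X1 (fun a => X1 _) (sX3 a)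
      have h2 := FX_compl_le iX (fun u => iX (u - a)) x X1 (fun a => X1 _) (sX4 a)
      have h3 : ∑ _u : G, (0 : ℝ) = 0 := Finset.sum_const_zero
      change ∑ v, iX v * (1 - iX (v + a)) + (∑ u, iX u * (1 - iX (u - a)) + ∑ _u : G, (0 : ℝ)) ≤ _
      linarith
  obtain ⟨φ, hφ, hφa, hφl⟩ := dominant d M (N - 2 * del) (2 * del) (by linarith) (by linarith)
    hdlow hM0 hMs
  have hD : N - 2 * del - 2 * del = N - 4 * del := by ring
  rw [hD] at hφa hφl
  have hD1 : (23 / 25 : ℝ) * N ≤ N - 4 * del := by linarith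
  have hD0 : 0 < N - 4 * del := by linarith
  have hφl' : ∀ i, (22 / 23 : ℝ) ≤ d i * φ i := by
    intro i
    refine le_trans ?_ (hφl i)
    have : 2 * del / (N - 4 * del) ≤ 1 / 23 := by
      rw [div_le_div_iff₀ hD0 (by norm_num)]
      linarith
    linarith
  have hφu : ∀ i, φ i ≤ 25 / 23 / N := by
    intro i
    refine ((le_abs_self _).trans (hφa i)).trans ?_
    rw [div_div, div_le_div_iff₀ hD0 (by positivity)]
    linarith
  have hd0 : ∀ i, 0 < d i := fun i => lt_of_lt_of_le (by linarith) (hdlow i)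
  have hφ0 : ∀ i, 0 < φ i := by
    intro i
    by_contra hc
    have := mul_nonpos_of_nonneg_of_nonpos (hd0 i).le (not_lt.1 hc)
    linarith [hφl' i]
  have hφN : ∀ i, 22 / 23 / N ≤ φ i := by
    intro i
    rw [div_le_iff₀ hN0]
    have := mul_le_mul_of_nonneg_right (hdup i) (hφ0 i).le
    linarith [hφl' i]
  obtain ⟨f, hf⟩ : ∃ f : G → ℝ, f = fun v => φ (Sum.inl v) := ⟨_, rfl⟩
  obtain ⟨g, hg⟩ : ∃ g : G → ℝ, g = fun u => φ (Sum.inr (Sum.inl u)) := ⟨_, rfl⟩
  obtain ⟨h, hh⟩ : ∃ h : G → ℝ, h = fun a => φ (Sum.inr (Sum.inr a)) := ⟨_, rfl⟩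
  have E1 : ∀ v, (∑ a, iB a * iX (v + a)) * f v - (∑ u, iX u * (1 - iB (u - v)) * g u +
      ∑ a, iB a * (1 - iX (v + a)) * h a) = 1 := by
    intro v
    have := hφ (Sum.inl v)
    rw [Fintype.sum_sum_type, Fintype.sum_sum_type] at this
    change (∑ a, iB a * iX (v + a)) * φ (Sum.inl v) - (∑ u, 0 * φ (Sum.inl u) +
      (∑ u, iX u * (1 - iB (u - v)) * φ (Sum.inr (Sum.inl u)) +
      ∑ a, iB a * (1 - iX (v + a)) * φ (Sum.inr (Sum.inr a)))) = 1 at this
    simp only [zero_mul, Finset.sum_const_zero, zero_add] at this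
    rw [hf, hg, hh]
    exact this
  have E2 : ∀ u, (∑ a, iB a * iX (u - a)) * g u - (∑ v, iX v * (1 - iB (u - v)) * f v +
      ∑ a, iB a * (1 - iX (u - a)) * h a) = 1 := by
    intro u
    have := hφ (Sum.inr (Sum.inl u))
    rw [Fintype.sum_sum_type, Fintype.sum_sum_type] at this
    change (∑ a, iB a * iX (u - a)) * φ (Sum.inr (Sum.inl u)) -
      (∑ v, iX v * (1 - iB (u - v)) * φ (Sum.inl v) +
      (∑ u', 0 * φ (Sum.inr (Sum.inl u')) +
      ∑ a, iB a * (1 - iX (u - a)) * φ (Sum.inr (Sum.inr a)))) = 1 at this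
    simp only [zero_mul, Finset.sum_const_zero, zero_add] at this
    rw [hf, hg, hh]
    exact this
  have E3 : ∀ a, (∑ v, iX v * iX (v + a)) * h a - (∑ v, iX v * (1 - iX (v + a)) * f v +
      ∑ u, iX u * (1 - iX (u - a)) * g u) = 1 := by
    intro a
    have := hφ (Sum.inr (Sum.inr a))
    rw [Fintype.sum_sum_type, Fintype.sum_sum_type] at this
    change (∑ v, iX v * iX (v + a)) * φ (Sum.inr (Sum.inr a)) -
      (∑ v, iX v * (1 - iX (v + a)) * φ (Sum.inl v) +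
      (∑ u, iX u * (1 - iX (u - a)) * φ (Sum.inr (Sum.inl u)) +
      ∑ a', 0 * φ (Sum.inr (Sum.inr a')))) = 1 at this
    simp only [zero_mul, Finset.sum_const_zero, add_zero] at this
    rw [hf, hg, hh]
    exact this
  obtain ⟨Sf, hSf⟩ : ∃ s, s = ∑ v, iX v * f v := ⟨_, rfl⟩
  obtain ⟨Sg, hSg⟩ : ∃ s, s = ∑ u, iX u * g u := ⟨_, rfl⟩
  obtain ⟨Sh, hSh⟩ : ∃ s, s = ∑ a, iB a * h a := ⟨_, rfl⟩
  obtain ⟨w0, hw0⟩ : ∃ w0 : G → G → ℝ, w0 = fun v a =>
      iX v * iB a * iX (v + a) * (f v + g (v + a) + h a) := ⟨_, rfl⟩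
  have R1 : ∀ v, ∑ a, w0 v a = iX v * (1 + Sg + Sh) := by
    intro v
    have a1 : ∑ a, iB a * iX (v + a) * g (v + a) = ∑ u, iB (u - v) * iX u * g u := by
      rw [← Equiv.sum_comp (Equiv.addLeft v) (fun u => iB (u - v) * iX u * g u)]
      refine Finset.sum_congr rfl fun a _ => ?_
      simp
    have a2 : ∑ u, iX u * (1 - iB (u - v)) * g u = Sg - ∑ u, iB (u - v) * iX u * g u := by
      rw [hSg, ← Finset.sum_sub_distrib]
      exact Finset.sum_congr rfl fun u _ => by ring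
    have a3 : ∑ a, iB a * (1 - iX (v + a)) * h a = Sh - ∑ a, iB a * iX (v + a) * h a := by
      rw [hSh, ← Finset.sum_sub_distrib]
      exact Finset.sum_congr rfl fun u _ => by ring
    have a4 : ∑ a, w0 v a = iX v * ((∑ a, iB a * iX (v + a)) * f v +
        ∑ a, iB a * iX (v + a) * g (v + a) + ∑ a, iB a * iX (v + a) * h a) := by
      rw [Finset.sum_mul, ← Finset.sum_add_distrib, ← Finset.sum_add_distrib, Finset.mul_sum, hw0]
      exact Finset.sum_congr rfl fun u _ => by ring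
    have a5 := E1 v
    rw [a2, a3] at a5
    rw [a4, a1]
    congr 1
    linarith
  have R2 : ∀ u, ∑ a, w0 (u - a) a = iX u * (1 + Sf + Sh) := by
    intro u
    have a1 : ∑ a, iB a * iX (u - a) * f (u - a) = ∑ v, iB (u - v) * iX v * f v := by
      rw [← Equiv.sum_comp (Equiv.subLeft u) (fun v => iB (u - v) * iX v * f v)]
      refine Finset.sum_congr rfl fun a _ => ?_
      simp
    have a2 : ∑ v, iX v * (1 - iB (u - v)) * f v = Sf - ∑ v, iB (u - v) * iX v * f v := by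
      rw [hSf, ← Finset.sum_sub_distrib]
      exact Finset.sum_congr rfl fun u _ => by ring
    have a3 : ∑ a, iB a * (1 - iX (u - a)) * h a = Sh - ∑ a, iB a * iX (u - a) * h a := by
      rw [hSh, ← Finset.sum_sub_distrib]
      exact Finset.sum_congr rfl fun u _ => by ring
    have a4 : ∑ a, w0 (u - a) a = iX u * ((∑ a, iB a * iX (u - a)) * g u +
        ∑ a, iB a * iX (u - a) * f (u - a) + ∑ a, iB a * iX (u - a) * h a) := by
      rw [Finset.sum_mul, ← Finset.sum_add_distrib, ← Finset.sum_add_distrib, Finset.mul_sum, hw0]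
      refine Finset.sum_congr rfl fun a _ => ?_
      simp only [sub_add_cancel]
      ring
    have a5 := E2 u
    rw [a2, a3] at a5
    rw [a4, a1]
    congr 1
    linarith
  have R3 : ∀ a, ∑ v, w0 v a = iB a * (1 + Sf + Sg) := by
    intro a
    have a1 : ∑ v, iX v * iX (v + a) * g (v + a) = ∑ u, iX (u - a) * iX u * g u := by
      rw [← Equiv.sum_comp (Equiv.addRight a) (fun u => iX (u - a) * iX u * g u)]
      refine Finset.sum_congr rfl fun a _ => ?_
      simp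
    have a2 : ∑ u, iX u * (1 - iX (u - a)) * g u = Sg - ∑ u, iX (u - a) * iX u * g u := by
      rw [hSg, ← Finset.sum_sub_distrib]
      exact Finset.sum_congr rfl fun u _ => by ring
    have a3 : ∑ v, iX v * (1 - iX (v + a)) * f v = Sf - ∑ v, iX v * iX (v + a) * f v := by
      rw [hSf, ← Finset.sum_sub_distrib]
      exact Finset.sum_congr rfl fun u _ => by ring
    have a4 : ∑ v, w0 v a = iB a * ((∑ v, iX v * iX (v + a)) * h a +
        ∑ v, iX v * iX (v + a) * g (v + a) + ∑ v, iX v * iX (v + a) * f v) := by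
      rw [Finset.sum_mul, ← Finset.sum_add_distrib, ← Finset.sum_add_distrib, Finset.mul_sum, hw0]
      exact Finset.sum_congr rfl fun u _ => by ring
    have a5 := E3 a
    rw [a2, a3] at a5
    rw [a4, a1]
    congr 1
    linarith
  have T1 : ∑ v, ∑ a, w0 v a = x * (1 + Sg + Sh) := by
    simp only [R1]
    rw [← Finset.sum_mul, hX]
  have T3 : ∑ v, ∑ a, w0 v a = x * (1 + Sf + Sg) := by
    rw [Finset.sum_comm]
    simp only [R3]
    rw [← Finset.sum_mul, hB]
  have T2 : ∑ v, ∑ a, w0 v a = x * (1 + Sf + Sh) := by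
    have a1 : ∑ u, ∑ a, w0 (u - a) a = x * (1 + Sf + Sh) := by
      simp only [R2]
      rw [← Finset.sum_mul, hX]
    rw [← a1, Finset.sum_comm, Finset.sum_comm (f := fun u a => w0 (u - a) a)]
    refine Finset.sum_congr rfl fun a _ => ?_
    exact (Equiv.sum_comp (Equiv.subRight a) (fun v => w0 v a)).symm
  obtain ⟨c, hc⟩ : ∃ c, c = 1 + Sg + Sh := ⟨_, rfl⟩
  have c2 : 1 + Sf + Sh = c := by
    rw [hc]
    exact mul_left_cancel₀ hx.ne' (T2.symm.trans T1)
  have c3 : 1 + Sf + Sg = c := by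
    rw [hc]
    exact mul_left_cancel₀ hx.ne' (T3.symm.trans T1)
  rw [← hc] at R1
  rw [c2] at R2
  rw [c3] at R3
  have hxN : (49 / 50 : ℝ) * N ≤ x := by linarith
  have hxN' : (49 / 50 : ℝ) ≤ x / N := by
    rw [le_div_iff₀ hN0]
    exact hxN
  have hSg9 : (9 / 10 : ℝ) ≤ Sg := by
    have a1 : ∑ u, iX u * (22 / 23 / N) ≤ Sg := by
      rw [hSg]
      refine Finset.sum_le_sum fun u _ => mul_le_mul_of_nonneg_left ?_ (Xn u)
      rw [hg]
      exact hφN _
    rw [← Finset.sum_mul, hX] at a1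
    have a2 : x * (22 / 23 / N) = 22 / 23 * (x / N) := by ring
    rw [a2] at a1
    linarith
  have hSh9 : (9 / 10 : ℝ) ≤ Sh := by
    have a1 : ∑ u, iB u * (22 / 23 / N) ≤ Sh := by
      rw [hSh]
      refine Finset.sum_le_sum fun u _ => mul_le_mul_of_nonneg_left ?_ (Bn u)
      rw [hh]
      exact hφN _
    rw [← Finset.sum_mul, hB] at a1
    have a2 : x * (22 / 23 / N) = 22 / 23 * (x / N) := by ring
    rw [a2] at a1
    linarith
  have hc28 : (28 / 10 : ℝ) ≤ c := by rw [hc]; linarith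
  have hc0 : 0 < c := by linarith
  have hw0n : ∀ v a, 0 ≤ w0 v a := by
    intro v a
    rw [hw0]
    refine mul_nonneg (mul_nonneg (mul_nonneg (Xn _) (Bn _)) (Xn _)) ?_
    rw [hf, hg, hh]
    exact add_nonneg (add_nonneg (hφ0 _).le (hφ0 _).le) (hφ0 _).le
  have hw0u : ∀ v a, w0 v a ≤ 3 * (25 / 23 / N) := by
    intro v a
    have a1 : 0 ≤ f v + g (v + a) + h a := by
      rw [hf, hg, hh]
      exact add_nonneg (add_nonneg (hφ0 _).le (hφ0 _).le) (hφ0 _).le
    have a2 : f v + g (v + a) + h a ≤ 3 * (25 / 23 / N) := by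
      rw [hf, hg, hh]
      linarith [hφu (Sum.inl v), hφu (Sum.inr (Sum.inl (v + a))), hφu (Sum.inr (Sum.inr a))]
    have a3 : iX v * iB a * iX (v + a) ≤ 1 :=
      mul_le_one₀ (mul_le_one₀ (X1 v) (Bn a) (B1 a)) (Xn _) (X1 _)
    have a4 := mul_le_mul_of_nonneg_right a3 a1
    rw [hw0]
    change iX v * iB a * iX (v + a) * (f v + g (v + a) + h a) ≤ _
    linarith
  refine ⟨fun v a => w0 v a / c, fun v a => div_nonneg (hw0n v a) hc0.le, fun v a hne => ?_,
    fun v a => ?_, fun v hv => ?_, fun u hu => ?_, fun a ha => ?_⟩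
  · have hne' : w0 v a ≠ 0 := fun e => hne (by simp [e])
    rw [hw0] at hne'
    refine ⟨(X0 v).resolve_left fun e => hne' ?_, (B0 a).resolve_left fun e => hne' ?_,
      (X0 (v + a)).resolve_left fun e => hne' ?_⟩
    · simp [e]
    · simp [e]
    · simp [e]
  · rw [div_le_div_iff₀ hc0 hN0]
    have a1 := mul_le_mul_of_nonneg_right (hw0u v a) hN0.le
    have a2 : 3 * (25 / 23 / N) * N = 75 / 23 := by
      field_simp
      norm_num
    rw [a2] at a1
    linarith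
  · rw [← Finset.sum_div, R1, hv, one_mul, div_self hc0.ne']
  · rw [← Finset.sum_div, R2, hu, one_mul, div_self hc0.ne']
  · rw [← Finset.sum_div, R3, ha, one_mul, div_self hc0.ne']

end FX

open Classical in
theorem frac_matching {G : Type*} [AddCommGroup G] [Fintype G] (X B : Finset G)
    (hXB : X.card = B.card) (hX : X.Nonempty)
    (hd : 50 * (Fintype.card G - X.card) ≤ Fintype.card G) :
    ∃ w : G → G → ℝ, (∀ v a, 0 ≤ w v a) ∧ (∀ v a, w v a ≠ 0 → v ∈ X ∧ a ∈ B ∧ v + a ∈ X) ∧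
      (∀ v a, w v a ≤ 2 / Fintype.card G) ∧ (∀ v ∈ X, ∑ a, w v a = 1) ∧
      (∀ u ∈ X, ∑ a, w (u - a) a = 1) ∧ (∀ a ∈ B, ∑ v, w v a = 1) := by
  have hc : X.card ≤ Fintype.card G := Finset.card_le_univ X
  obtain ⟨w, h1, h2, h3, h4, h5, h6⟩ := FX_core (G := G) (fun v => if v ∈ X then (1 : ℝ) else 0)
    (fun v => if v ∈ B then (1 : ℝ) else 0) (X.card : ℝ)
    (fun a => by by_cases h : a ∈ X <;> simp [h]) (fun a => by by_cases h : a ∈ B <;> simp [h])
    (by simp) (by rw [hXB]; simp) (by exact_mod_cast hX.card_pos) (by exact_mod_cast hc)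
    (by rw [← Nat.cast_sub hc]; exact_mod_cast hd)
  have k1 : ∀ {v : G} {S : Finset G}, (if v ∈ S then (1 : ℝ) else 0) = 1 ↔ v ∈ S := by
    intro v S
    by_cases h : v ∈ S <;> simp [h]
  refine ⟨w, h1, fun v a hne => ?_, h3, fun v hv => h4 v (k1.2 hv), fun u hu => h5 u (k1.2 hu),
    fun a ha => h6 a (k1.2 ha)⟩
  obtain ⟨a1, a2, a3⟩ := h2 v a hne
  exact ⟨k1.1 a1, k1.1 a2, k1.1 a3⟩

end Pool.Agent.SNF
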