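import Pool.Agent.Lib_helper26.SNF.Defs
import Pool.Agent.Lib_helper15.KZF.BD

/-! Block LN (project SNF): the cyclic layers. -/

namespace Pool.Agent.SNF

open Finset Pool.Agent.SDN

theorem LN_large : ∃ K : ℕ, ∀ n : ℕ, K ≤ n →
    1 ≤ (n : ℝ) ^ (1 / 20 : ℝ) ∧ 4 ≤ ((n : ℝ) ^ (1 / 20 : ℝ)) ^ 6 ∧
      2 * (3 * (n : ℝ) ^ 2) * Real.exp (-(((n : ℝ) ^ (1 / 20 : ℝ)) ^ 2 / 2)) < 1 := by
  have hX : Filter.Tendsto (fun n : ℕ => (n : ℝ) ^ (1 / 20 : ℝ)) Filter.atTop Filter.atTop :=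
    (tendsto_rpow_atTop (by norm_num : (0 : ℝ) < 1 / 20)).comp tendsto_natCast_atTop_atTop
  have hY : Filter.Tendsto (fun n : ℕ => (1 / 2 : ℝ) * (n : ℝ) ^ (1 / 20 : ℝ))
      Filter.atTop Filter.atTop := hX.const_mul_atTop (by norm_num)
  have h2 := ((Real.tendsto_pow_mul_exp_neg_atTop_nhds_zero 40).comp hY).const_mul
    (6 * 2 ^ 40)
  rw [mul_zero] at h2
  have hev := (hX.eventually_ge_atTop 4).and (h2.eventually (gt_mem_nhds (zero_lt_one)))
  obtain ⟨K, hK⟩ := Filter.eventually_atTop.1 hev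
  refine ⟨K, fun n hn => ?_⟩
  obtain ⟨h1, h3⟩ := hK n hn
  set X := (n : ℝ) ^ (1 / 20 : ℝ) with hXdef
  have hn : (n : ℝ) = X ^ 20 := by
    rw [hXdef, ← Real.rpow_natCast, ← Real.rpow_mul (Nat.cast_nonneg n)]
    norm_num
  refine ⟨by linarith, ?_, lt_of_le_of_lt ?_ h3⟩
  · calc (4 : ℝ) ≤ X := h1
      _ = X ^ 1 := (pow_one X).symm
      _ ≤ X ^ 6 := pow_le_pow_right₀ (by linarith) (by norm_num)
  simp only [Function.comp]
  rw [← hXdef, hn, ← pow_mul]
  have e1 : Real.exp (-(X ^ 2 / 2)) ≤ Real.exp (-(1 / 2 * X)) := by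
    apply Real.exp_le_exp.2
    nlinarith
  calc 2 * (3 * X ^ (20 * 2)) * Real.exp (-(X ^ 2 / 2))
      ≤ 2 * (3 * X ^ (20 * 2)) * Real.exp (-(1 / 2 * X)) :=
        mul_le_mul_of_nonneg_left e1 (by positivity)
    _ = 6 * 2 ^ 40 * ((1 / 2 * X) ^ 40 * Real.exp (-(1 / 2 * X))) := by
        rw [mul_pow]
        ring

open Pool.Agent.KZ in
theorem LN_avg1 {G : Type} [Fintype G] [DecidableEq G] {q : ℕ} [NeZero q] (x : G) (j : ZMod q)
    (W : ℝ) : (q : ℝ) * avg (fun ω : G → ZMod q => if ω x = j then W else 0) = W := by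
  have hq : (q : ℝ) ≠ 0 := by exact_mod_cast NeZero.ne q
  rw [← avg_av1 x]
  have : av1 x (fun ω : G → ZMod q => if ω x = j then W else 0) = fun _ => W / q := by
    funext ω
    simp [av1, ZMod.card]
  rw [this, avg_const]
  field_simp

open Pool.Agent.KZ in
theorem LN_avg2 {G : Type} [Fintype G] [DecidableEq G] {q : ℕ} [NeZero q] (x y : G) (W : ℝ)
    (h : x ≠ y ∨ W = 0) :
    (q : ℝ) * avg (fun ω : G → ZMod q => if ω x = ω y + 1 then W else 0) = W := by
  have hq : (q : ℝ) ≠ 0 := by exact_mod_cast NeZero.ne q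
  rcases h with h | h
  · rw [← avg_av1 x]
    have : av1 x (fun ω : G → ZMod q => if ω x = ω y + 1 then W else 0) = fun _ => W / q := by
      funext ω
      simp [av1, ZMod.card, Function.update_of_ne h.symm]
    rw [this, avg_const]
    field_simp
  · subst h
    simp [avg_const]

/-- a sum of at most two changed terms -/
theorem LN_diff {A : Type} [Fintype A] (f g : A → ℝ) (a₁ a₂ : A) (d : ℝ) (hd : 0 ≤ d)
    (h : ∀ a, |f a - g a| ≤ d) (h0 : ∀ a, a ≠ a₁ → a ≠ a₂ → f a = g a) :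
    |∑ a, f a - ∑ a, g a| ≤ 2 * d := by
  classical
  rw [← Finset.sum_sub_distrib]
  refine (Finset.abs_sum_le_sum_abs _ _).trans ?_
  calc ∑ a, |f a - g a| ≤ ∑ a, ((if a = a₁ then d else 0) + (if a = a₂ then d else 0)) := by
        refine Finset.sum_le_sum fun a _ => ?_
        by_cases h1 : a = a₁
        · have := h a
          split_ifs <;> linarith
        · by_cases h2 : a = a₂
          · have := h a
            rw [if_neg h1, if_pos h2]; linarith
          · rw [h0 a h1 h2]; simp [h1, h2]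
    _ = 2 * d := by
        rw [Finset.sum_add_distrib]
        simp
        ring

theorem LN_ite (P P' : Prop) [Decidable P] [Decidable P'] (W d : ℝ) (h0 : 0 ≤ W) (h1 : W ≤ d) :
    |(if P then W else 0) - (if P' then W else 0)| ≤ d := by
  split_ifs <;> simp [abs_of_nonneg h0] <;> linarith

open Classical in
theorem layers : ∃ K : ℕ, ∀ {G : Type} [AddCommGroup G] [Fintype G] (q : ℕ) [NeZero q]
    (w : G → G → ℝ), K ≤ Fintype.card G → (q : ℝ) ≤ (Fintype.card G : ℝ) ^ (1 / 20 : ℝ) →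
    (∀ v a, 0 ≤ w v a ∧ w v a ≤ 2 / Fintype.card G) → (∀ v, w v 0 = 0) →
    ∃ lab : G → ZMod q,
      (∀ v j, |(q : ℝ) * (∑ a, if lab (v + a) = j then w v a else 0) - ∑ a, w v a| ≤
        (Fintype.card G : ℝ) ^ (-(1 : ℝ) / 10)) ∧
      (∀ u j, |(q : ℝ) * (∑ a, if lab (u - a) = j then w (u - a) a else 0) -
        ∑ a, w (u - a) a| ≤ (Fintype.card G : ℝ) ^ (-(1 : ℝ) / 10)) ∧
      (∀ a, |(q : ℝ) * (∑ v, if lab (v + a) = lab v + 1 then w v a else 0) - ∑ v, w v a| ≤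
        (Fintype.card G : ℝ) ^ (-(1 : ℝ) / 10)) := by
  obtain ⟨K, hK⟩ := LN_large
  refine ⟨K, ?_⟩
  intro G _ _ q _ w hKG hq hw hw0
  obtain ⟨hX1, hX2, hX3⟩ := hK (Fintype.card G) hKG
  have hn1 : 0 < Fintype.card G := Fintype.card_pos
  set n : ℝ := (Fintype.card G : ℝ) with hn
  have hn0 : (0 : ℝ) < n := by rw [hn]; exact_mod_cast hn1
  set X : ℝ := n ^ (1 / 20 : ℝ) with hX
  have hnX : n = X ^ 20 := by
    rw [hX, ← Real.rpow_natCast, ← Real.rpow_mul hn0.le]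
    norm_num
  have hX0 : 0 < X := by linarith
  have hq0 : (0 : ℝ) < q := by exact_mod_cast Nat.pos_of_ne_zero (NeZero.ne q)
  -- the tests
  set F : (G × ZMod q) ⊕ (G × ZMod q) ⊕ G → (G → ZMod q) → ℝ := fun t ω =>
    match t with
    | .inl (v, j) => (q : ℝ) * (∑ a, if ω (v + a) = j then w v a else 0)
    | .inr (.inl (u, j)) => (q : ℝ) * (∑ a, if ω (u - a) = j then w (u - a) a else 0)
    | .inr (.inr a) => (q : ℝ) * (∑ v, if ω (v + a) = ω v + 1 then w v a else 0) with hF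
  have hmulq : ∀ x y : ℝ, |x - y| ≤ 2 * (2 / n) → |(q : ℝ) * x - (q : ℝ) * y| ≤ 4 * q / n := by
    intro x y h
    rw [← mul_sub, abs_mul, abs_of_pos hq0]
    calc (q : ℝ) * |x - y| ≤ q * (2 * (2 / n)) := mul_le_mul_of_nonneg_left h hq0.le
      _ = 4 * q / n := by ring
  have hd : 0 ≤ 2 / n := by positivity
  have hBD : ∀ t, Pool.Agent.KZ.BD (fun _ : G => 4 * (q : ℝ) / n) (F t) := by
    rintro (⟨v, j⟩ | ⟨u, j⟩ | a) i ω l
    · refine hmulq _ _ (LN_diff _ _ (i - v) (i - v) _ hd (fun a => ?_) fun a h1 _ => ?_)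
      · exact LN_ite _ _ _ _ (hw v a).1 (hw v a).2
      · have : v + a ≠ i := fun h => h1 (by rw [← h]; abel)
        rw [Function.update_of_ne this]
    · refine hmulq _ _ (LN_diff _ _ (u - i) (u - i) _ hd (fun a => ?_) fun a h1 _ => ?_)
      · exact LN_ite _ _ _ _ (hw _ a).1 (hw _ a).2
      · have : u - a ≠ i := fun h => h1 (by rw [← h]; abel)
        rw [Function.update_of_ne this]
    · refine hmulq _ _ (LN_diff _ _ i (i - a) _ hd (fun v => ?_) fun v h1 h2 => ?_)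
      · exact LN_ite _ _ _ _ (hw v a).1 (hw v a).2
      · have : v + a ≠ i := fun h => h2 (by rw [← h]; abel)
        rw [Function.update_of_ne this, Function.update_of_ne h1]
  have hsq : (√n) ^ 2 = n := Real.sq_sqrt hn0.le
  have hsn : 0 < √n := Real.sqrt_pos.2 hn0
  have hcs : ∀ t : (G × ZMod q) ⊕ (G × ZMod q) ⊕ G,
      ∑ i : G, (4 * (q : ℝ) / n) ^ 2 ≤ (4 * (q : ℝ) / √n) ^ 2 := by
    intro _
    rw [Finset.sum_const, Finset.card_univ, nsmul_eq_mul, ← hn, div_pow, div_pow, hsq]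
    apply le_of_eq
    field_simp
  have hcard : (Fintype.card ((G × ZMod q) ⊕ (G × ZMod q) ⊕ G) : ℝ) ≤ 3 * n ^ 2 := by
    rw [Fintype.card_sum, Fintype.card_sum, Fintype.card_prod, ZMod.card]
    push_cast
    rw [← hn]
    have hqn : (q : ℝ) ≤ n := by
      refine hq.trans ?_
      rw [hnX]
      calc X = X ^ 1 := (pow_one X).symm
        _ ≤ X ^ 20 := pow_le_pow_right₀ hX1 (by norm_num)
    have h1n : 1 ≤ n := by rw [hn]; exact_mod_cast hn1
    nlinarith
  obtain ⟨lab, hlab⟩ := Pool.Agent.KZ.exists_good F (fun _ _ => 4 * (q : ℝ) / n) hBD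
    (fun _ => 4 * (q : ℝ) / √n) (fun _ => by positivity) hcs X hX0
    (lt_of_le_of_lt (mul_le_mul_of_nonneg_right (mul_le_mul_of_nonneg_left hcard
      (by norm_num)) (Real.exp_pos _).le) hX3)
  have hfin : X * (4 * (q : ℝ) / √n) ≤ n ^ (-(1 : ℝ) / 10) := by
    have e1 : n ^ (-(1 : ℝ) / 10) = X ^ 8 / √n := by
      rw [hX, ← Real.rpow_natCast, ← Real.rpow_mul hn0.le, Real.sqrt_eq_rpow,
        ← Real.rpow_sub hn0]
      norm_num
    rw [e1, ← mul_div_assoc]
    refine div_le_div_of_nonneg_right ?_ hsn.le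
    have h1 : X * (4 * (q : ℝ)) ≤ X * (4 * X) := by
      refine mul_le_mul_of_nonneg_left ?_ hX0.le
      linarith
    have h2 : X ^ 8 = X * X * X ^ 6 := by ring
    rw [h2]
    nlinarith [mul_pos hX0 hX0]
  refine ⟨lab, fun v j => ?_, fun u j => ?_, fun a => ?_⟩
  · have h := hlab (.inl (v, j))
    have hav : Pool.Agent.KZ.avg (F (.inl (v, j))) = ∑ a, w v a := by
      show Pool.Agent.KZ.avg (fun ω : G → ZMod q =>
        (q : ℝ) * (∑ a, if ω (v + a) = j then w v a else 0)) = _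
      rw [Pool.Agent.KZ.avg_mul_left, Pool.Agent.KZ.avg_sum, Finset.mul_sum]
      exact Finset.sum_congr rfl fun a _ => LN_avg1 _ _ _
    rw [hav] at h
    exact h.trans hfin
  · have h := hlab (.inr (.inl (u, j)))
    have hav : Pool.Agent.KZ.avg (F (.inr (.inl (u, j)))) = ∑ a, w (u - a) a := by
      show Pool.Agent.KZ.avg (fun ω : G → ZMod q =>
        (q : ℝ) * (∑ a, if ω (u - a) = j then w (u - a) a else 0)) = _
      rw [Pool.Agent.KZ.avg_mul_left, Pool.Agent.KZ.avg_sum, Finset.mul_sum]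
      exact Finset.sum_congr rfl fun a _ => LN_avg1 _ _ _
    rw [hav] at h
    exact h.trans hfin
  · have h := hlab (.inr (.inr a))
    have hav : Pool.Agent.KZ.avg (F (.inr (.inr a))) = ∑ v, w v a := by
      show Pool.Agent.KZ.avg (fun ω : G → ZMod q =>
        (q : ℝ) * (∑ v, if ω (v + a) = ω v + 1 then w v a else 0)) = _
      rw [Pool.Agent.KZ.avg_mul_left, Pool.Agent.KZ.avg_sum, Finset.mul_sum]
      refine Finset.sum_congr rfl fun v _ => LN_avg2 _ _ _ ?_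
      by_cases ha : a = 0
      · right; rw [ha, hw0]
      · left; simpa using ha
    rw [hav] at h
    exact h.trans hfin

end Pool.Agent.SNF
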