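import Pool.Agent.Lib_helper26.SNF.Defs
import Pool.Agent.Lib_helper26.SNF.CP
import Pool.Agent.Lib_helper26.SDN.LK
import Pool.Agent.Lib_helper26.SDN.VX

/-! Block MD (project SNF). -/

namespace Pool.Agent.SNF

open Finset Pool.Agent.SDN

theorem MD_nodup_flatten {V : Type*} {n : ℕ} (f : Fin n → List V) (h1 : ∀ i, (f i).Nodup)
    (h2 : ∀ i j, i ≠ j → List.Disjoint (f i) (f j)) : ((List.ofFn f).flatten).Nodup := by
  rw [List.nodup_flatten]
  refine ⟨?_, ?_⟩
  · intro l hl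
    rw [List.mem_ofFn] at hl
    obtain ⟨i, rfl⟩ := hl
    exact h1 i
  · rw [List.pairwise_ofFn]
    intro i j hij
    exact h2 i j (ne_of_lt hij)

theorem MD_disj {V : Type*} {n : ℕ} (f : Fin n → List V)
    (h : ((List.ofFn f).flatten).Nodup) (i j : Fin n) (hij : i ≠ j) :
    List.Disjoint (f i) (f j) := by
  rw [List.nodup_flatten, List.pairwise_ofFn] at h
  rcases lt_or_gt_of_ne hij with h3 | h3
  · exact h.2 h3
  · exact (h.2 h3).symm

theorem MD_mem {V : Type*} {n : ℕ} (f : Fin n → List V) (x : V) :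
    x ∈ (List.ofFn f).flatten ↔ ∃ i, x ∈ f i := by
  rw [List.mem_flatten]
  constructor
  · rintro ⟨l, hl, hx⟩
    rw [List.mem_ofFn] at hl
    obtain ⟨i, rfl⟩ := hl
    exact ⟨i, hx⟩
  · rintro ⟨i, hx⟩
    exact ⟨f i, List.mem_ofFn.2 ⟨i, rfl⟩, hx⟩

theorem MD_length {V : Type*} {n : ℕ} (f : Fin n → List V) :
    ((List.ofFn f).flatten).length = ∑ i, (f i).length := by
  rw [List.length_flatten, List.map_ofFn, List.sum_ofFn]
  rfl

open Classical in
theorem middle {G : Type} [AddCommGroup G] [Fintype G] {s₂ M q : ℕ} (X B R Φ₁ : Finset G)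
    (w₂ w₃ : G) (hw : w₂ ≠ w₃) (hw₂ : w₂ ∉ X) (hw₃ : w₃ ∉ X) (hXΦ : Disjoint X Φ₁)
    (hBR : Disjoint B R) (L : G → Fin s₂ → List G) (hL : ∀ y, y ≠ 0 → Lnk R y M (L y))
    (hk : ∀ u y : G, y ≠ 0 → 2 * M * (q + 1) <
      (univ.filter fun z => ∀ i ∈ (vs u (L y z)).dropLast, i ∈ Φ₁).card)
    (v : Fin q → G) (l : Fin q → List G)
    (hX : ((List.ofFn fun i => v i :: vs (v i) (l i)).flatten).Perm X.toList)
    (hl : ((List.ofFn l).flatten).Nodup) (hlB : ∀ a ∈ (List.ofFn l).flatten, a ∈ B) :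
    ∃ k : List G, k ≠ [] ∧ w₂ + k.sum = w₃ ∧ k.Nodup ∧ (∀ a ∈ k, a ∈ B ∨ a ∈ R) ∧
      X.card ≤ (k.toFinset ∩ B).card + q ∧ vs w₂ k = (vs w₂ k).dropLast ++ [w₃] ∧
      (vs w₂ k).dropLast.Nodup ∧ (∀ x ∈ X, x ∈ (vs w₂ k).dropLast) ∧
      ∀ x ∈ (vs w₂ k).dropLast, x ∈ X ∨ x ∈ Φ₁ := by
  have hXmem : ∀ x, x ∈ X ↔ ∃ i, x ∈ v i :: vs (v i) (l i) := by
    intro x
    rw [← Finset.mem_toList, ← hX.mem_iff, MD_mem]
  have hXnd : ((List.ofFn fun i => v i :: vs (v i) (l i)).flatten).Nodup :=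
    hX.nodup_iff.2 X.nodup_toList
  have hlast : ∀ i, v i + (l i).sum ∈ v i :: vs (v i) (l i) := by
    intro i
    by_cases h : l i = []
    · simp [h]
    · rw [vs_last _ _ h]
      simp
  let A : Fin (q + 1) → G := Fin.cons w₂ (fun i => v i + (l i).sum)
  let E : Fin (q + 1) → G := Fin.snoc v w₃
  have hA0 : A 0 = w₂ := rfl
  have hAs : ∀ i : Fin q, A i.succ = v i + (l i).sum := fun i => by
    simp only [A, Fin.cons_succ]
  have hEc : ∀ i : Fin q, E i.castSucc = v i := fun i => by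
    simp only [E, Fin.snoc_castSucc]
  have hEl : E (Fin.last q) = w₃ := by simp only [E, Fin.snoc_last]
  have hAE : ∀ i, A i ≠ E i := by
    intro i
    rcases Fin.eq_castSucc_or_eq_last i with ⟨j, rfl⟩ | rfl
    · rw [hEc]
      rcases Fin.eq_zero_or_eq_succ j.castSucc with h | ⟨j', h⟩
      · rw [h, hA0]
        intro h2
        exact hw₂ ((hXmem _).2 ⟨j, by rw [h2]; simp⟩)
      · rw [h, hAs]
        intro h2
        have hne : j' ≠ j := by
          intro h3
          subst h3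
          have := congrArg Fin.val h
          simp at this
        exact MD_disj _ hXnd j' j hne (hlast j') (by rw [h2]; simp)
    · rw [hEl]
      rcases Fin.eq_zero_or_eq_succ (Fin.last q) with h | ⟨j', h⟩
      · rw [h, hA0]; exact hw
      · rw [h, hAs]
        intro h2
        exact hw₃ ((hXmem _).2 ⟨j', by rw [← h2]; exact hlast j'⟩)
  obtain ⟨z, hz1, hz2⟩ := linking (s := s₂) (M := M) (k₀ := 2 * M * (q + 1) + 1) R Φ₁ L hL
    (fun u y hy => by
      refine (Nat.succ_le_of_lt (hk u y hy)).trans (le_of_eq ?_)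
      congr) (ι := Fin (q + 1)) (by rw [Fintype.card_fin]; omega) A E hAE
  have hy : ∀ i, E i - A i ≠ 0 := fun i h => hAE i (sub_eq_zero.1 h).symm
  obtain ⟨k, hk1, hk2, hk3, hk4, hk5⟩ := chain_plain q w₂ w₃ v l
    (fun i => L (E i - A i) (z i)) (fun i => (hL _ (hy i)).ne (z i)) A E hA0 hAs hEc hEl
    (fun i => by rw [(hL _ (hy i)).sum (z i)]; abel)
  have hlk : ((List.ofFn fun i => L (E i - A i) (z i)).flatten).Nodup :=
    MD_nodup_flatten _ (fun i => (hL _ (hy i)).nodup (z i)) fun i j hij => (hz2 i j hij).1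
  have htr : ∀ (i : Fin (q + 1)), (vs (A i) (L (E i - A i) (z i))) =
      (vs 0 (L (E i - A i) (z i))).map (· + A i) := by
    intro i
    have h := vs_translate 0 (A i) (L (E i - A i) (z i))
    rw [zero_add] at h
    exact h
  have hvn : ∀ (i : Fin (q + 1)), (vs (A i) (L (E i - A i) (z i))).dropLast.Nodup := by
    intro i
    have h1 : (vs (A i) (L (E i - A i) (z i))).Nodup := by
      rw [htr]
      exact ((hL _ (hy i)).vnodup (z i)).map (add_left_injective (A i))
    exact h1.sublist (List.dropLast_sublist _)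
  have hlv : ((List.ofFn fun i => (vs (A i) (L (E i - A i) (z i))).dropLast).flatten).Nodup :=
    MD_nodup_flatten _ hvn fun i j hij => (hz2 i j hij).2
  have hmk : ∀ a, a ∈ k ↔ (∃ i, a ∈ L (E i - A i) (z i)) ∨ a ∈ (List.ofFn l).flatten := by
    intro a
    rw [hk3.mem_iff, List.mem_append, MD_mem]
  have hmv : ∀ a, a ∈ (vs w₂ k).dropLast ↔
      (∃ i, a ∈ (vs (A i) (L (E i - A i) (z i))).dropLast) ∨ a ∈ X := by
    intro a
    rw [hk5.mem_iff, List.mem_append, MD_mem, hXmem, MD_mem]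
  refine ⟨k, hk1, hk2, ?_, ?_, ?_, hk4, ?_, ?_, ?_⟩
  · rw [hk3.nodup_iff, List.nodup_append']
    refine ⟨hlk, hl, ?_⟩
    intro a ha hb
    rw [MD_mem] at ha
    obtain ⟨i, hi⟩ := ha
    exact Finset.disjoint_left.1 hBR (hlB a hb) ((hL _ (hy i)).mem (z i) a hi)
  · intro a ha
    rcases (hmk a).1 ha with ⟨i, hi⟩ | h
    · exact Or.inr ((hL _ (hy i)).mem (z i) a hi)
    · exact Or.inl (hlB a h)
  · have h1 : X.card = q + ((List.ofFn l).flatten).length := by
      have h2 := hX.length_eq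
      rw [MD_length, Finset.length_toList] at h2
      rw [← h2, MD_length]
      simp only [List.length_cons, vs_length, Finset.sum_add_distrib, Finset.sum_const,
        Finset.card_univ, Fintype.card_fin, smul_eq_mul, mul_one]
      omega
    have h3 : ((List.ofFn l).flatten).length ≤ (k.toFinset ∩ B).card := by
      rw [← List.toFinset_card_of_nodup hl]
      apply Finset.card_le_card
      intro a ha
      rw [List.mem_toFinset] at ha
      rw [Finset.mem_inter, List.mem_toFinset]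
      exact ⟨(hmk a).2 (Or.inr ha), hlB a ha⟩
    omega
  · rw [hk5.nodup_iff, List.nodup_append']
    refine ⟨hlv, hXnd, ?_⟩
    intro a ha hb
    rw [MD_mem] at ha
    obtain ⟨i, hi⟩ := ha
    rw [hX.mem_iff, Finset.mem_toList] at hb
    exact Finset.disjoint_left.1 hXΦ hb (hz1 i a hi)
  · intro x hx
    exact (hmv x).2 (Or.inr hx)
  · intro x hx
    rcases (hmv x).1 hx with ⟨i, hi⟩ | h
    · exact Or.inr (hz1 i x hi)
    · exact Or.inl h

end Pool.Agent.SNF
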