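import Pool.Agent.Lib_helper26.SNF.Defs
import Pool.Agent.Lib_helper26.SNF.FX
import Pool.Agent.Lib_helper26.SNF.LN

/-! Block WT (project SNF): weights for the layered nibble. -/

namespace Pool.Agent.SNF

open Finset Pool.Agent.SDN

open Classical in
theorem weights : ∃ K : ℕ, ∀ {G : Type} [AddCommGroup G] [Fintype G] (X B : Finset G),
    K ≤ Fintype.card G → X.card = B.card →
    50 * (Fintype.card G - X.card) ≤ Fintype.card G → (0 : G) ∉ B →
    ∀ (q : ℕ) [NeZero q], (q : ℝ) ≤ (Fintype.card G : ℝ) ^ (1 / 20 : ℝ) →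
    ∃ (lab : G → ZMod q) (w : G → G → ℝ),
      (∀ v a, 0 ≤ w v a ∧ w v a ≤ 2 * q / Fintype.card G) ∧
      (∀ v a, w v a ≠ 0 → v ∈ X ∧ a ∈ B ∧ v + a ∈ X ∧ lab (v + a) = lab v + 1) ∧
      (∀ v ∈ X, |(∑ a, w v a) - 1| ≤ (Fintype.card G : ℝ) ^ (-(1 : ℝ) / 10)) ∧
      (∀ u ∈ X, |(∑ a, w (u - a) a) - 1| ≤ (Fintype.card G : ℝ) ^ (-(1 : ℝ) / 10)) ∧
      (∀ a ∈ B, |(∑ v, w v a) - 1| ≤ (Fintype.card G : ℝ) ^ (-(1 : ℝ) / 10)) := by
  obtain ⟨K, hK⟩ := layers
  refine ⟨K, ?_⟩
  intro G _ _ X B hn hXB hd h0 q _ hq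
  have hpos : 0 < Fintype.card G := Fintype.card_pos
  have hX : X.Nonempty := by
    rw [← Finset.card_pos]
    by_contra h
    have : X.card = 0 := by omega
    rw [this] at hd
    omega
  obtain ⟨w, w0, wne, wle, wr, wc, wl⟩ := frac_matching X B hXB hX hd
  have hw0 : ∀ v, w v 0 = 0 := by
    intro v
    by_contra h
    exact h0 (wne v 0 h).2.1
  obtain ⟨lab, h1, h2, h3⟩ := hK q w hn hq (fun v a => ⟨w0 v a, wle v a⟩) hw0
  have hn' : (0 : ℝ) < Fintype.card G := by exact_mod_cast hpos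
  refine ⟨lab, fun v a => (q : ℝ) * (if lab (v + a) = lab v + 1 then w v a else 0),
    ?_, ?_, ?_, ?_, ?_⟩
  · intro v a
    have hq0 : (0 : ℝ) ≤ q := Nat.cast_nonneg q
    constructor
    · apply mul_nonneg hq0
      split_ifs
      · exact w0 v a
      · exact le_refl _
    · have : (if lab (v + a) = lab v + 1 then w v a else 0) ≤ 2 / Fintype.card G := by
        split_ifs
        · exact wle v a
        · positivity
      calc (q : ℝ) * (if lab (v + a) = lab v + 1 then w v a else 0)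
          ≤ q * (2 / Fintype.card G) := mul_le_mul_of_nonneg_left this hq0
        _ = 2 * q / Fintype.card G := by ring
  · intro v a h
    have h' := right_ne_zero_of_mul h
    by_cases hl : lab (v + a) = lab v + 1
    · rw [if_pos hl] at h'
      obtain ⟨ha, hb, hc⟩ := wne v a h'
      exact ⟨ha, hb, hc, hl⟩
    · rw [if_neg hl] at h'
      exact absurd rfl h'
  · intro v hv
    have := h1 v (lab v + 1)
    rw [wr v hv] at this
    rw [← Finset.mul_sum]
    exact this
  · intro u hu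
    have := h2 u (lab u - 1)
    rw [wc u hu] at this
    rw [← Finset.mul_sum]
    have he : (∑ a, if lab (u - a + a) = lab (u - a) + 1 then w (u - a) a else 0) =
        ∑ a, if lab (u - a) = lab u - 1 then w (u - a) a else 0 := by
      refine Finset.sum_congr rfl fun a _ => ?_
      refine if_congr ?_ rfl rfl
      rw [sub_add_cancel, eq_sub_iff_add_eq]
      exact eq_comm
    rw [he]
    exact this
  · intro a ha
    have := h3 a
    rw [wl a ha] at this
    rw [← Finset.mul_sum]
    exact this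

end Pool.Agent.SNF
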