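import Pool.Agent.Lib_helper26.SNF.Defs
import Pool.Agent.Lib_helper26.SNF.WT
import Pool.Agent.Lib_helper96.GNib.G6

/-! Block NM (project SNF): near perfect rainbow matching. -/

namespace Pool.Agent.SNF

open Finset Pool.Agent.SDN

private theorem NM_one {G : Type} [AddCommGroup G] [DecidableEq G] {e e' : G × G}
    {u v : G ⊕ G ⊕ G} (huv : u ≠ v)
    (h1 : u ∈ ({Sum.inl e.1, Sum.inr (Sum.inl (e.1 + e.2)), Sum.inr (Sum.inr e.2)} :
      Finset (G ⊕ G ⊕ G)))
    (h2 : v ∈ ({Sum.inl e.1, Sum.inr (Sum.inl (e.1 + e.2)), Sum.inr (Sum.inr e.2)} :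
      Finset (G ⊕ G ⊕ G)))
    (h3 : u ∈ ({Sum.inl e'.1, Sum.inr (Sum.inl (e'.1 + e'.2)), Sum.inr (Sum.inr e'.2)} :
      Finset (G ⊕ G ⊕ G)))
    (h4 : v ∈ ({Sum.inl e'.1, Sum.inr (Sum.inl (e'.1 + e'.2)), Sum.inr (Sum.inr e'.2)} :
      Finset (G ⊕ G ⊕ G))) : e = e' := by
  obtain ⟨x, a⟩ := e
  obtain ⟨x', a'⟩ := e'
  simp only [mem_insert, mem_singleton] at h1 h2 h3 h4
  rcases u with u | u | u <;> rcases v with v | v | v <;>
    simp only [Sum.inl.injEq, Sum.inr.injEq, reduceCtorEq, false_or, or_false, or_self, ne_eq,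
      not_false_eq_true] at h1 h2 h3 h4 huv
  all_goals try subst h1
  all_goals try subst h2
  all_goals try subst h3
  all_goals try subst h4
  all_goals first | exact absurd rfl huv | rfl | skip
  all_goals simp_all

open Classical in
theorem near_matching : ∃ κ : ℝ, 0 < κ ∧ κ ≤ 1 / 2 ∧ ∃ K : ℕ,
    ∀ {G : Type} [AddCommGroup G] [Fintype G] (X B : Finset G), K ≤ Fintype.card G →
      X.card = B.card → 50 * (Fintype.card G - X.card) ≤ Fintype.card G → (0 : G) ∉ B →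
      ∃ (q : ℕ) (_ : NeZero q) (lab : G → ZMod q) (D : Finset (G × G)),
        (Fintype.card G : ℝ) ^ κ ≤ q ∧
        (∀ e ∈ D, e.1 ∈ X ∧ e.2 ∈ B ∧ e.1 + e.2 ∈ X ∧ lab (e.1 + e.2) = lab e.1 + 1) ∧
        (∀ e ∈ D, ∀ e' ∈ D, e ≠ e' →
          e.1 ≠ e'.1 ∧ e.2 ≠ e'.2 ∧ e.1 + e.2 ≠ e'.1 + e'.2) ∧
        (X.card : ℝ) - (Fintype.card G : ℝ) ^ (1 - κ) ≤ D.card := by
  obtain ⟨κ₀, hκ0, hκ1, n₀, hn₀⟩ := GNib.gnibble 3 2 (by norm_num)
  obtain ⟨K₁, hK₁⟩ := weights
  refine ⟨κ₀ / 20, by positivity, by linarith, max (max n₀ K₁) (4 ^ 40), ?_⟩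
  intro G _ _ X B hK hXB h50 h0
  set n := Fintype.card G with hn
  have hnn₀ : n₀ ≤ n := (le_max_left _ _).trans ((le_max_left _ _).trans hK)
  have hnK₁ : K₁ ≤ n := (le_max_right _ _).trans ((le_max_left _ _).trans hK)
  have hn4 : 4 ^ 40 ≤ n := (le_max_right _ _).trans hK
  have hn3 : 3 ≤ n := le_trans (by norm_num) hn4
  have hnR3 : (3 : ℝ) ≤ n := by exact_mod_cast hn3
  have hn1 : (1 : ℝ) ≤ n := by linarith
  have hnpos : (0 : ℝ) < n := by linarith
  set q := ⌈(n : ℝ) ^ (κ₀ / 20)⌉₊ with hq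
  have hqge : (n : ℝ) ^ (κ₀ / 20) ≤ q := Nat.le_ceil _
  have hp1 : (1 : ℝ) ≤ (n : ℝ) ^ (κ₀ / 20) := Real.one_le_rpow hn1 (by positivity)
  have hq1 : (1 : ℝ) ≤ q := hp1.trans hqge
  have hq0 : NeZero q := ⟨by
    intro h
    rw [h] at hq1
    norm_num at hq1⟩
  have h4le : (4 : ℝ) ≤ (n : ℝ) ^ ((1 : ℝ) / 40) := by
    have h1 : ((4 : ℝ) ^ (40 : ℕ)) ^ ((1 : ℝ) / 40) ≤ (n : ℝ) ^ ((1 : ℝ) / 40) := by
      apply Real.rpow_le_rpow (by positivity) _ (by norm_num)
      exact_mod_cast hn4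
    have h2 : ((4 : ℝ) ^ (40 : ℕ)) ^ ((1 : ℝ) / 40) = 4 := by
      rw [← Real.rpow_natCast, ← Real.rpow_mul (by norm_num)]
      norm_num
    rwa [h2] at h1
  have hq2 : 2 * (q : ℝ) ≤ (n : ℝ) ^ ((1 : ℝ) / 20) := by
    have h1 : (q : ℝ) ≤ (n : ℝ) ^ (κ₀ / 20) + 1 := (Nat.ceil_lt_add_one (by positivity)).le
    have h2 : (n : ℝ) ^ (κ₀ / 20) ≤ (n : ℝ) ^ ((1 : ℝ) / 40) :=
      Real.rpow_le_rpow_of_exponent_le hn1 (by linarith)
    have h3 : (n : ℝ) ^ ((1 : ℝ) / 20) = (n : ℝ) ^ ((1 : ℝ) / 40) * (n : ℝ) ^ ((1 : ℝ) / 40) := by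
      rw [← Real.rpow_add hnpos]
      norm_num
    rw [h3]
    nlinarith
  have hqle : (q : ℝ) ≤ (n : ℝ) ^ ((1 : ℝ) / 20) := by linarith
  obtain ⟨lab, w, hw1, hw2, hw3, hw4, hw5⟩ := hK₁ X B hnK₁ hXB h50 h0 q hqle
  -- the hypergraph
  obtain ⟨inc, hinc⟩ : ∃ inc : G × G → Finset (G ⊕ G ⊕ G), ∀ e, inc e =
      {Sum.inl e.1, Sum.inr (Sum.inl (e.1 + e.2)), Sum.inr (Sum.inr e.2)} := ⟨_, fun _ => rfl⟩
  have hδ : (0 : ℝ) ≤ (n : ℝ) ^ (-(1 : ℝ) / 10) := by positivity
  have s1 : ∀ v : G, ∑ e ∈ univ.filter (fun e : G × G => (Sum.inl v : G ⊕ G ⊕ G) ∈ inc e),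
      w e.1 e.2 = ∑ a, w v a := by
    intro v
    rw [sum_filter, Fintype.sum_prod_type]
    rw [Finset.sum_eq_single v]
    · refine sum_congr rfl fun a _ => ?_
      rw [if_pos]
      rw [hinc]
      simp
    · intro b _ hb
      refine sum_eq_zero fun a _ => ?_
      rw [if_neg]
      rw [hinc]
      simpa using hb.symm
    · intro h
      exact absurd (mem_univ _) h
  have s2 : ∀ u : G, ∑ e ∈ univ.filter
      (fun e : G × G => (Sum.inr (Sum.inl u) : G ⊕ G ⊕ G) ∈ inc e),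
      w e.1 e.2 = ∑ a, w (u - a) a := by
    intro u
    rw [sum_filter, Fintype.sum_prod_type_right]
    refine sum_congr rfl fun a _ => ?_
    rw [Finset.sum_eq_single (u - a)]
    · rw [if_pos]
      rw [hinc]
      simp
    · intro b _ hb
      rw [if_neg]
      rw [hinc]
      simp only [mem_insert, reduceCtorEq, Sum.inr.injEq, Sum.inl.injEq, mem_singleton, or_false,
        false_or]
      intro h
      apply hb
      rw [h]
      simp
    · intro h
      exact absurd (mem_univ _) h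
  have s3 : ∀ a : G, ∑ e ∈ univ.filter
      (fun e : G × G => (Sum.inr (Sum.inr a) : G ⊕ G ⊕ G) ∈ inc e),
      w e.1 e.2 = ∑ v, w v a := by
    intro a
    rw [sum_filter, Fintype.sum_prod_type]
    refine sum_congr rfl fun v _ => ?_
    rw [Finset.sum_eq_single a]
    · rw [if_pos]
      rw [hinc]
      simp
    · intro b _ hb
      rw [if_neg]
      rw [hinc]
      simpa using hb.symm
    · intro h
      exact absurd (mem_univ _) h
  set So : Finset (G ⊕ G ⊕ G) := X.image Sum.inl with hSo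
  set Si : Finset (G ⊕ G ⊕ G) := X.image fun v => Sum.inr (Sum.inl v) with hSi
  set Sc : Finset (G ⊕ G ⊕ G) := B.image fun v => Sum.inr (Sum.inr v) with hSc
  have hXn : X.card ≤ n := card_le_univ X
  have hBn : B.card ≤ n := card_le_univ B
  have g1 : (Fintype.card (G ⊕ G ⊕ G) : ℝ) ≤ (n : ℝ) ^ 2 := by
    rw [Fintype.card_sum, Fintype.card_sum, ← hn]
    push_cast
    nlinarith
  have g2 : ((({So, Si, Sc} : Finset (Finset (G ⊕ G ⊕ G))).card : ℕ) : ℝ) ≤ (n : ℝ) ^ 2 := by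
    have h1 : (({So, Si, Sc} : Finset (Finset (G ⊕ G ⊕ G))).card : ℝ) ≤ 3 := by
      exact_mod_cast card_le_three
    refine h1.trans ?_
    nlinarith
  have g3 : ∀ S ∈ ({So, Si, Sc} : Finset (Finset (G ⊕ G ⊕ G))), S ⊆ So ∪ (Si ∪ Sc) ∧ (S.card : ℝ) ≤ n := by
    intro S hS
    simp only [mem_insert, mem_singleton] at hS
    rcases hS with rfl | rfl | rfl
    · refine ⟨subset_union_left, ?_⟩
      exact_mod_cast card_image_le.trans hXn
    · refine ⟨subset_union_left.trans subset_union_right, ?_⟩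
      exact_mod_cast card_image_le.trans hXn
    · refine ⟨subset_union_right.trans subset_union_right, ?_⟩
      exact_mod_cast card_image_le.trans hBn
  have g4 : ∀ e : G × G, 0 ≤ w e.1 e.2 := by
    intro e
    exact (hw1 _ _).1
  have g5 : ∀ e : G × G, w e.1 e.2 ≠ 0 → (inc e).Nonempty ∧ (inc e).card ≤ 3 := by
    intro e _
    rw [hinc]
    exact ⟨⟨_, mem_insert_self _ _⟩, card_le_three⟩
  have g6 : ∀ v, ∑ e ∈ univ.filter (fun e => v ∈ inc e), w e.1 e.2 ≤ 1 + (n : ℝ) ^ (-(1 : ℝ) / 10) := by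
    rintro (v | u | a)
    · rw [s1]
      by_cases hv : v ∈ X
      · have := abs_le.1 (hw3 v hv)
        linarith
      · rw [sum_eq_zero]
        · linarith
        · intro a _
          by_contra h
          exact hv (hw2 _ _ h).1
    · rw [s2]
      by_cases hv : u ∈ X
      · have := abs_le.1 (hw4 u hv)
        linarith
      · rw [sum_eq_zero]
        · linarith
        · intro a _
          by_contra h
          apply hv
          have := (hw2 _ _ h).2.2.1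
          simpa using this
    · rw [s3]
      by_cases hv : a ∈ B
      · have := abs_le.1 (hw5 a hv)
        linarith
      · rw [sum_eq_zero]
        · linarith
        · intro v _
          by_contra h
          exact hv (hw2 _ _ h).2.1
  have g7 : ∀ v ∈ So ∪ (Si ∪ Sc), 1 - (n : ℝ) ^ (-(1 : ℝ) / 10) ≤
      ∑ e ∈ univ.filter (fun e => v ∈ inc e), w e.1 e.2 := by
    intro v hv
    simp only [mem_union, hSo, hSi, hSc, mem_image] at hv
    rcases hv with ⟨x, hx, rfl⟩ | ⟨x, hx, rfl⟩ | ⟨x, hx, rfl⟩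
    · rw [s1]
      have := abs_le.1 (hw3 x hx)
      linarith
    · rw [s2]
      have := abs_le.1 (hw4 x hx)
      linarith
    · rw [s3]
      have := abs_le.1 (hw5 x hx)
      linarith
  have g8 : ∀ u v, u ≠ v → ∑ e ∈ univ.filter (fun e => u ∈ inc e ∧ v ∈ inc e), w e.1 e.2 ≤
      (n : ℝ) ^ ((1 : ℝ) / 20) / n := by
    intro u v huv
    have h1 : (univ.filter fun e : G × G => u ∈ inc e ∧ v ∈ inc e).card ≤ 1 := by
      rw [card_le_one]
      intro e he e' he'
      simp only [mem_filter, mem_univ, true_and, hinc] at he he'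
      exact NM_one huv he.1 he.2 he'.1 he'.2
    have h2 : ∑ e ∈ univ.filter (fun e : G × G => u ∈ inc e ∧ v ∈ inc e), w e.1 e.2 ≤
        ∑ e ∈ univ.filter (fun e : G × G => u ∈ inc e ∧ v ∈ inc e), 2 * (q : ℝ) / n :=
      sum_le_sum fun e _ => (hw1 _ _).2
    refine h2.trans ?_
    rw [sum_const, nsmul_eq_mul]
    have h3 : ((univ.filter fun e : G × G => u ∈ inc e ∧ v ∈ inc e).card : ℝ) ≤ 1 := by
      exact_mod_cast h1
    have h4 : (0 : ℝ) ≤ 2 * (q : ℝ) / n := by positivity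
    calc _ ≤ 1 * (2 * (q : ℝ) / n) := mul_le_mul_of_nonneg_right h3 h4
      _ = 2 * (q : ℝ) / n := one_mul _
      _ ≤ _ := div_le_div_of_nonneg_right hq2 hnpos.le
  obtain ⟨D, hD1, hD2, hD3⟩ := hn₀ n hnn₀ (G ⊕ G ⊕ G) (G × G) inc (fun e => w e.1 e.2)
    (So ∪ (Si ∪ Sc)) {So, Si, Sc} g1 g2 g3 g4 g5 g6 g7 g8
  refine ⟨q, hq0, lab, D, hqge, ?_, ?_, ?_⟩
  · intro e he
    exact hw2 _ _ (hD1 e he)
  · intro e he e' he' hne
    have h1 := hD2 e he e' he' hne
    rw [Finset.disjoint_left] at h1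
    rw [hinc, hinc] at h1
    refine ⟨?_, ?_, ?_⟩
    · intro h
      exact h1 (a := Sum.inl e.1) (by simp) (by simp [h])
    · intro h
      exact h1 (a := Sum.inr (Sum.inr e.2)) (by simp) (by simp [h])
    · intro h
      exact h1 (a := Sum.inr (Sum.inl (e.1 + e.2))) (by simp) (by simp [h])
  · have h1 := hD3 So (by simp)
    have h2 : (n : ℝ) ^ (1 - κ₀) ≤ (n : ℝ) ^ (1 - κ₀ / 20) :=
      Real.rpow_le_rpow_of_exponent_le hn1 (by linarith)
    have h3 : So.card ≤ (So \ D.biUnion inc).card + D.card := by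
      have h4 : So ⊆ (So \ D.biUnion inc) ∪ D.image (fun e => Sum.inl e.1) := by
        intro s hs
        by_cases h : s ∈ D.biUnion inc
        · obtain ⟨x, hx, rfl⟩ := mem_image.1 hs
          obtain ⟨e, he, hxe⟩ := mem_biUnion.1 h
          rw [hinc] at hxe
          simp only [mem_insert, Sum.inl.injEq, reduceCtorEq, mem_singleton, or_self,
            or_false] at hxe
          exact mem_union_right _ (mem_image.2 ⟨e, he, by rw [hxe]⟩)
        · exact mem_union_left _ (mem_sdiff.2 ⟨hs, h⟩)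
      exact (card_le_card h4).trans ((card_union_le _ _).trans
        (Nat.add_le_add_left card_image_le _))
    have h5 : So.card = X.card := card_image_of_injective _ Sum.inl_injective
    rw [h5] at h3
    have h6 : (X.card : ℝ) ≤ ((So \ D.biUnion inc).card : ℝ) + (D.card : ℝ) := by
      exact_mod_cast h3
    linarith

end Pool.Agent.SNF
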