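import Pool.Agent.Lib_helper26.SNF.Defs

/-! Block PE (project SNF). -/

namespace Pool.Agent.SNF

open Finset Pool.Agent.SDN

variable {G : Type*} [AddCommGroup G]

/-- the edges of a piece -/
def PE_ed : G → List G → List (G × G)
  | _, [] => []
  | c, a :: l => (c, a) :: PE_ed (c + a) l

theorem PE_ed_append (c : G) (l₁ l₂ : List G) :
    PE_ed c (l₁ ++ l₂) = PE_ed c l₁ ++ PE_ed (c + l₁.sum) l₂ := by
  induction l₁ generalizing c with
  | nil => simp [PE_ed]
  | cons a l ih => simp only [List.cons_append, PE_ed, ih, List.sum_cons, add_assoc]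

theorem PE_vs_append (c : G) (l₁ l₂ : List G) :
    vs c (l₁ ++ l₂) = vs c l₁ ++ vs (c + l₁.sum) l₂ := by
  induction l₁ generalizing c with
  | nil => simp [vs]
  | cons a l ih => simp only [List.cons_append, vs, ih, List.sum_cons, add_assoc]

theorem PE_vs_length (c : G) (l : List G) : (vs c l).length = l.length := by
  induction l generalizing c with
  | nil => simp [vs]
  | cons a l ih => simp only [vs, List.length_cons, ih]

theorem PE_ed_length (c : G) (l : List G) : (PE_ed c l).length = l.length := by
  induction l generalizing c with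
  | nil => simp [PE_ed]
  | cons a l ih => simp only [PE_ed, List.length_cons, ih]

theorem PE_ed_snd (c : G) (l : List G) : (PE_ed c l).map Prod.snd = l := by
  induction l generalizing c with
  | nil => rfl
  | cons a l ih => simp only [PE_ed, List.map_cons, ih]

/-- a vertex of a piece is the last one or the first vertex of an edge -/
theorem PE_last (c : G) (l : List G) {x : G} (hx : x ∈ c :: vs c l) :
    x = c + l.sum ∨ ∃ b, (x, b) ∈ PE_ed c l := by
  induction l generalizing c with
  | nil =>
    left
    simpa [vs] using hx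
  | cons a l ih =>
    rcases List.mem_cons.1 hx with rfl | h
    · right
      exact ⟨a, List.mem_cons_self⟩
    · rcases ih (c + a) h with h1 | ⟨b, hb⟩
      · left
        rw [h1, List.sum_cons, add_assoc]
      · right
        exact ⟨b, List.mem_cons_of_mem _ hb⟩

/-- a vertex of a piece is the first one or the second vertex of an edge -/
theorem PE_first (c : G) (l : List G) {x : G} (hx : x ∈ c :: vs c l) :
    x = c ∨ ∃ e ∈ PE_ed c l, e.1 + e.2 = x := by
  induction l generalizing c with
  | nil =>
    left
    simpa [vs] using hx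
  | cons a l ih =>
    rcases List.mem_cons.1 hx with rfl | h
    · left
      rfl
    · rcases ih (c + a) h with h1 | ⟨e, he, h2⟩
      · right
        exact ⟨(c, a), List.mem_cons_self, h1.symm⟩
      · right
        exact ⟨e, List.mem_cons_of_mem _ he, h2⟩

theorem PE_rank (r : G → ℕ) (c : G) (l : List G)
    (h : ∀ e ∈ PE_ed c l, r (e.1 + e.2) = r e.1 + 1) : r (c + l.sum) = r c + l.length := by
  induction l generalizing c with
  | nil => simp
  | cons a l ih =>
    have h1 := h (c, a) List.mem_cons_self
    have h2 := ih (c + a) fun e he => h e (List.mem_cons_of_mem _ he)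
    rw [List.sum_cons, ← add_assoc, h2, List.length_cons]
    simp only at h1
    omega

open Classical in
theorem PE_main (X : Finset G) (D : Finset (G × G))
    (hD : ∀ e ∈ D, e.1 ∈ X ∧ e.1 + e.2 ∈ X)
    (h1 : ∀ e ∈ D, ∀ e' ∈ D, e ≠ e' → e.1 ≠ e'.1 ∧ e.1 + e.2 ≠ e'.1 + e'.2)
    (r : G → ℕ) (hr : ∀ e ∈ D, r (e.1 + e.2) = r e.1 + 1) :
    ∃ L : List (G × List G), L.length + D.card = X.card ∧
      ((L.map fun p => p.1 :: vs p.1 p.2).flatten).Perm X.toList ∧
      ((L.map fun p => PE_ed p.1 p.2).flatten).Perm D.toList := by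
  induction D using Finset.induction_on with
  | empty =>
    refine ⟨X.toList.map fun x => (x, []), ?_, ?_, ?_⟩
    · simp
    · have e : (List.map (fun p : G × List G => p.1 :: vs p.1 p.2)
          (X.toList.map fun x => (x, ([] : List G)))).flatten = X.toList := by
        rw [List.map_map]
        have h : ∀ l : List G, (l.map ((fun p : G × List G => p.1 :: vs p.1 p.2) ∘
            fun x => (x, ([] : List G)))).flatten = l := by
          intro l
          induction l with
          | nil => rfl
          | cons a l ih =>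
            rw [List.map_cons, List.flatten_cons, ih]
            rfl
        exact h _
      rw [e]
    · have e : (List.map (fun p : G × List G => PE_ed p.1 p.2)
          (X.toList.map fun x => (x, ([] : List G)))).flatten = [] := by
        rw [List.map_map, List.flatten_eq_nil_iff]
        intro l hl
        rw [List.mem_map] at hl
        obtain ⟨a, _, rfl⟩ := hl
        rfl
      rw [e, Finset.toList_empty]
  | insert e D he ih =>
    obtain ⟨v, a⟩ := e
    obtain ⟨L, hL1, hL2, hL3⟩ := ih (fun e' he' => hD e' (mem_insert_of_mem he'))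
      (fun e' he' e'' he'' => h1 e' (mem_insert_of_mem he') e'' (mem_insert_of_mem he''))
      (fun e' he' => hr e' (mem_insert_of_mem he'))
    obtain ⟨hv, hva⟩ := hD _ (mem_insert_self (v, a) D)
    simp only at hv hva
    have hmemD : ∀ p ∈ L, ∀ e' ∈ PE_ed p.1 p.2, e' ∈ D := by
      intro p hp e' he'
      have : e' ∈ (L.map fun p => PE_ed p.1 p.2).flatten :=
        List.mem_flatten.2 ⟨_, List.mem_map.2 ⟨p, hp, rfl⟩, he'⟩
      exact Finset.mem_toList.1 (hL3.mem_iff.1 this)
    have hpiece : ∀ x ∈ X, ∃ p ∈ L, x ∈ p.1 :: vs p.1 p.2 := by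
      intro x hx
      have : x ∈ (L.map fun p => p.1 :: vs p.1 p.2).flatten :=
        hL2.mem_iff.2 (Finset.mem_toList.2 hx)
      obtain ⟨l, hl, hxl⟩ := List.mem_flatten.1 this
      obtain ⟨p, hp, rfl⟩ := List.mem_map.1 hl
      exact ⟨p, hp, hxl⟩
    obtain ⟨⟨c, l⟩, hp, hvp⟩ := hpiece v hv
    obtain ⟨⟨c', l'⟩, hp', hvp'⟩ := hpiece (v + a) hva
    simp only at hvp hvp'
    -- `v` is the last vertex of its piece
    have hc : v = c + l.sum := by
      rcases PE_last c l hvp with h | ⟨b, hb⟩
      · exact h
      · exfalso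
        have hbD := hmemD _ hp _ hb
        have hne : ((v, a) : G × G) ≠ (v, b) := fun h => he (h ▸ hbD)
        exact (h1 _ (mem_insert_self _ _) _ (mem_insert_of_mem hbD) hne).1 rfl
    -- `v + a` is the first vertex of its piece
    have hc' : v + a = c' := by
      rcases PE_first c' l' hvp' with h | ⟨e', he', h2⟩
      · exact h
      · exfalso
        have hbD := hmemD _ hp' _ he'
        have hne : ((v, a) : G × G) ≠ e' := fun h => he (h ▸ hbD)
        exact (h1 _ (mem_insert_self _ _) _ (mem_insert_of_mem hbD) hne).2 h2.symm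
    have hne : ((c', l') : G × List G) ≠ (c, l) := by
      intro h
      have hcc : c' = c := congrArg Prod.fst h
      have hr1 := PE_rank r c l fun e' he' =>
        hr e' (mem_insert_of_mem (hmemD _ hp _ he'))
      have hr2 := hr _ (mem_insert_self (v, a) D)
      simp only at hr2
      rw [← hc] at hr1
      rw [hc', hcc] at hr2
      omega
    obtain ⟨L₁, hL₁⟩ : ∃ L₁, L.Perm ((c, l) :: L₁) := ⟨_, List.perm_cons_erase hp⟩
    have hp1 : (c', l') ∈ L₁ := by
      have := hL₁.mem_iff.1 hp'
      rcases List.mem_cons.1 this with h | h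
      · exact absurd h hne
      · exact h
    obtain ⟨L₂, hL₂⟩ : ∃ L₂, L₁.Perm ((c', l') :: L₂) := ⟨_, List.perm_cons_erase hp1⟩
    have hLL : L.Perm ((c, l) :: (c', l') :: L₂) := hL₁.trans (hL₂.cons _)
    refine ⟨(c, l ++ a :: l') :: L₂, ?_, ?_, ?_⟩
    · rw [card_insert_of_notMem he, List.length_cons]
      have := hLL.length_eq
      simp only [List.length_cons] at this
      omega
    · have e1 : vs c (l ++ a :: l') = vs c l ++ (c' :: vs c' l') := by
        rw [PE_vs_append, ← hc, vs, hc']
      refine List.Perm.trans ?_ hL2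
      refine List.Perm.trans ?_ (List.Perm.flatten (hLL.map _)).symm
      simp only [List.map_cons, List.flatten_cons, e1, List.cons_append, List.append_assoc]
      exact List.Perm.refl _
    · have e1 : PE_ed c (l ++ a :: l') = PE_ed c l ++ ((v, a) :: PE_ed c' l') := by
        rw [PE_ed_append, ← hc, PE_ed, hc']
      refine List.Perm.trans ?_ (Finset.toList_insert he).symm
      refine List.Perm.trans ?_ (hL3.cons _)
      refine List.Perm.trans ?_ ((List.Perm.flatten (hLL.map _)).symm.cons _)
      simp only [List.map_cons, List.flatten_cons, e1, List.cons_append, List.append_assoc]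
      exact List.perm_middle

open Classical in
theorem paths_of_edges {G : Type*} [AddCommGroup G] (X : Finset G) (D : Finset (G × G))
    (hD : ∀ e ∈ D, e.1 ∈ X ∧ e.1 + e.2 ∈ X)
    (h1 : ∀ e ∈ D, ∀ e' ∈ D, e ≠ e' → e.1 ≠ e'.1 ∧ e.1 + e.2 ≠ e'.1 + e'.2)
    (r : G → ℕ) (hr : ∀ e ∈ D, r (e.1 + e.2) = r e.1 + 1) :
    ∃ (q : ℕ) (v : Fin q → G) (l : Fin q → List G), q + D.card = X.card ∧
      ((List.ofFn fun i => v i :: vs (v i) (l i)).flatten).Perm X.toList ∧
      ((List.ofFn l).flatten).Perm (D.toList.map Prod.snd) := by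
  obtain ⟨L, hL1, hL2, hL3⟩ := PE_main X D hD h1 r hr
  refine ⟨L.length, fun i => (L.get i).1, fun i => (L.get i).2, hL1, ?_, ?_⟩
  · have e : (List.ofFn fun i => (L.get i).1 :: vs (L.get i).1 (L.get i).2) =
        L.map fun p => p.1 :: vs p.1 p.2 := by
      conv_rhs => rw [← List.ofFn_get L]
      rw [List.map_ofFn]
      rfl
    rw [e]
    exact hL2
  · have e : (List.ofFn fun i => (L.get i).2) = L.map Prod.snd := by
      conv_rhs => rw [← List.ofFn_get L]
      rw [List.map_ofFn]
      rfl
    rw [e]
    have h := hL3.map Prod.snd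
    rw [List.map_flatten, List.map_map] at h
    have e2 : (List.map Prod.snd ∘ fun p : G × List G => PE_ed p.1 p.2) = Prod.snd := by
      funext p
      exact PE_ed_snd p.1 p.2
    rw [e2] at h
    exact h

end Pool.Agent.SNF
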