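import Pool.Agent.Lib_helper26.SNF.Defs
import Pool.Agent.Lib_helper26.SNF.NM
import Pool.Agent.Lib_helper26.SNF.PE

/-! Block PC (project SNF, helper53). -/

namespace Pool.Agent.SNF

open Finset Pool.Agent.SDN

theorem PC_val {q : ℕ} [NeZero q] (x : ZMod q) (hx : x ≠ -1) : (x + 1).val = x.val + 1 := by
  have hq : 0 < q := Nat.pos_of_ne_zero (NeZero.ne q)
  have hq1 : q ≠ 1 := by
    rintro rfl
    exact hx (Subsingleton.elim _ _)
  have : Fact (1 < q) := ⟨by omega⟩
  have h1 : (1 : ZMod q).val = 1 := ZMod.val_one q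
  have h2 : x.val < q := ZMod.val_lt x
  have h3 : x.val + 1 ≠ q := by
    intro h
    apply hx
    have h4 : ((x.val + 1 : ℕ) : ZMod q) = 0 := by rw [h]; simp
    push_cast at h4
    rw [ZMod.natCast_zmod_val] at h4
    exact eq_neg_of_add_eq_zero_left h4
  rw [ZMod.val_add_of_lt (by rw [h1]; omega), h1]

open Classical in
theorem PC_layer {G : Type} (X : Finset G) {q : ℕ} [NeZero q] (lab : G → ZMod q) :
    ∃ j, q * (X.filter fun v => lab v = j).card ≤ X.card := by
  by_contra hcon
  push Not at hcon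
  have h1 : X.card = ∑ j : ZMod q, (X.filter fun v => lab v = j).card :=
    Finset.card_eq_sum_card_fiberwise (f := lab) (fun _ _ => Finset.mem_coe.2 (Finset.mem_univ _))
  have h2 : ∑ _j : ZMod q, X.card < ∑ j : ZMod q, q * (X.filter fun v => lab v = j).card :=
    Finset.sum_lt_sum_of_nonempty Finset.univ_nonempty fun j _ => hcon j
  rw [← Finset.mul_sum, ← h1, Finset.sum_const, Finset.card_univ, ZMod.card, smul_eq_mul] at h2
  exact lt_irrefl _ h2

open Classical in
theorem path_cover : ∃ κ : ℝ, 0 < κ ∧ κ ≤ 1 / 2 ∧ ∃ K : ℕ,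
    ∀ {G : Type} [AddCommGroup G] [Fintype G] (X B : Finset G), K ≤ Fintype.card G →
      X.card = B.card → 50 * (Fintype.card G - X.card) ≤ Fintype.card G → (0 : G) ∉ B →
      ∃ (q : ℕ) (v : Fin q → G) (l : Fin q → List G),
        (q : ℝ) ≤ (Fintype.card G : ℝ) ^ (1 - κ) ∧
        ((List.ofFn fun i => v i :: vs (v i) (l i)).flatten).Perm X.toList ∧
        ((List.ofFn l).flatten).Nodup ∧ ∀ a ∈ (List.ofFn l).flatten, a ∈ B := by
  obtain ⟨κ, hκ0, hκ1, K, hK⟩ := near_matching
  refine ⟨κ / 2, by positivity, by linarith, max K ⌈(2 : ℝ) ^ (2 / κ)⌉₊, ?_⟩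
  intro G _ _ X B hn hXB h50 h0
  obtain ⟨q, hq, lab, D, hqn, hD, hD1, hDc⟩ := hK X B (le_trans (le_max_left _ _) hn) hXB h50 h0
  set n := Fintype.card G with hn_def
  have hnr : (2 : ℝ) ^ (2 / κ) ≤ n := by
    refine (Nat.le_ceil _).trans ?_
    exact_mod_cast le_trans (le_max_right _ _) hn
  have hnpos : (0 : ℝ) < n := lt_of_lt_of_le (by positivity) hnr
  have hqpos : (0 : ℝ) < q := by exact_mod_cast Nat.pos_of_ne_zero (NeZero.ne q)
  obtain ⟨j0, hj0⟩ := PC_layer X lab
  set D' := D.filter (fun e => lab e.1 ≠ j0) with hD'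
  have hsub : ∀ e ∈ D', e ∈ D := fun e he => (Finset.mem_filter.1 he).1
  obtain ⟨q2, v, l, hq2, hperm, hcol⟩ := paths_of_edges X D'
    (fun e he => ⟨(hD e (hsub e he)).1, (hD e (hsub e he)).2.2.1⟩)
    (fun e he e' he' hne => ⟨(hD1 e (hsub e he) e' (hsub e' he') hne).1,
      (hD1 e (hsub e he) e' (hsub e' he') hne).2.2⟩)
    (fun v => (lab v - j0 - 1).val) (fun e he => by
      rw [hD', Finset.mem_filter] at he
      have h1 := (hD e he.1).2.2.2
      show (lab (e.1 + e.2) - j0 - 1).val = (lab e.1 - j0 - 1).val + 1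
      rw [← PC_val, h1]
      · congr 1; ring
      · intro h2
        apply he.2
        have h3 : lab e.1 = lab e.1 - j0 - 1 + j0 + 1 := by ring
        rw [h3, h2]; ring)
  refine ⟨q2, v, l, ?_, hperm, ?_, ?_⟩
  · -- number of the paths
    have h1 : D.card ≤ D'.card + (X.filter fun v => lab v = j0).card := by
      have e1 : D.card = D'.card +
          (D.filter fun e => ¬ (lab e.1 ≠ j0)).card :=
        (Finset.card_filter_add_card_filter_not _).symm
      have e2 : (D.filter fun e => ¬ (lab e.1 ≠ j0)).card ≤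
          (X.filter fun v => lab v = j0).card := by
        refine Finset.card_le_card_of_injOn (fun e => e.1) ?_ ?_
        · intro e he
          rw [Finset.mem_coe, Finset.mem_filter, not_not] at he
          rw [Finset.mem_coe, Finset.mem_filter]
          exact ⟨(hD e he.1).1, he.2⟩
        · intro e he e' he' hee
          rw [Finset.mem_coe, Finset.mem_filter] at he he'
          by_contra hne
          exact (hD1 e he.1 e' he'.1 hne).1 hee
      omega
    have h2 : ((X.filter fun v => lab v = j0).card : ℝ) ≤ (n : ℝ) ^ (1 - κ) := by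
      have e1 : (q : ℝ) * ((X.filter fun v => lab v = j0).card : ℝ) ≤ n := by
        have e2 : q * (X.filter fun v => lab v = j0).card ≤ n := hj0.trans (Finset.card_le_univ X)
        exact_mod_cast e2
      have e3 : (n : ℝ) ^ κ * (n : ℝ) ^ (1 - κ) = n := by
        rw [← Real.rpow_add hnpos]; simp
      have e4 : (0 : ℝ) < (n : ℝ) ^ κ := Real.rpow_pos_of_pos hnpos _
      have e5 : (n : ℝ) ^ κ * ((X.filter fun v => lab v = j0).card : ℝ) ≤
          (n : ℝ) ^ κ * (n : ℝ) ^ (1 - κ) := by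
        rw [e3]
        exact (mul_le_mul_of_nonneg_right hqn (Nat.cast_nonneg _)).trans e1
      exact le_of_mul_le_mul_left e5 e4
    have h3 : (q2 : ℝ) + D'.card = X.card := by exact_mod_cast hq2
    have h4 : (D.card : ℝ) ≤ D'.card + ((X.filter fun v => lab v = j0).card : ℝ) := by
      exact_mod_cast h1
    have h5 : (q2 : ℝ) ≤ 2 * (n : ℝ) ^ (1 - κ) := by linarith
    have h6 : (2 : ℝ) ≤ (n : ℝ) ^ (κ / 2) := by
      have e1 : ((2 : ℝ) ^ (2 / κ)) ^ (κ / 2) = 2 := by
        rw [← Real.rpow_mul (by norm_num)]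
        have : 2 / κ * (κ / 2) = 1 := by field_simp
        rw [this, Real.rpow_one]
      calc (2 : ℝ) = ((2 : ℝ) ^ (2 / κ)) ^ (κ / 2) := e1.symm
        _ ≤ (n : ℝ) ^ (κ / 2) := Real.rpow_le_rpow (by positivity) hnr (by positivity)
    refine h5.trans ?_
    calc 2 * (n : ℝ) ^ (1 - κ) ≤ (n : ℝ) ^ (κ / 2) * (n : ℝ) ^ (1 - κ) :=
          mul_le_mul_of_nonneg_right h6 (by positivity)
      _ = (n : ℝ) ^ (1 - κ / 2) := by
          rw [← Real.rpow_add hnpos]; congr 1; ring
  · rw [hcol.nodup_iff]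
    refine List.Nodup.map_on ?_ (Finset.nodup_toList _)
    intro e he e' he' hee
    rw [Finset.mem_toList] at he he'
    by_contra hne
    exact (hD1 e (hsub e he) e' (hsub e' he') hne).2.1 hee
  · intro a ha
    rw [hcol.mem_iff, List.mem_map] at ha
    obtain ⟨e, he, rfl⟩ := ha
    rw [Finset.mem_toList] at he
    exact (hD e (hsub e he)).2.1

end Pool.Agent.SNF
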