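import Pool.Agent.Lib_helper26.SNF.Defs

/-! Block RS (project SNF). -/

namespace Pool.Agent.SNF

open Finset Pool.Agent.SDN

theorem RS_FV_length {G : Type*} [AddCommGroup G] {q s : ℕ} (Q : Finset G) (e : Fin q → G)
    (u a : Fin s → G) (w₁ w₂ w₃ : G) (x₁ : Fin (q + 1) → G) (x₂ : Fin (s + 1) → G) :
    (FV Q e u a w₁ w₂ w₃ x₁ x₂).length = Q.card + q + 3 * s + 5 := by
  unfold FV
  simp only [List.length_append, Finset.length_toList, List.length_ofFn, List.length_cons,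
    List.length_nil]
  omega

theorem RS_FC_length {G : Type*} [AddCommGroup G] {q s : ℕ} (D : Finset G) (a : Fin s → G)
    (x₁ y₁ : Fin (q + 1) → G) (x₂ y₂ : Fin (s + 1) → G) :
    (FC D a x₁ y₁ x₂ y₂).length = D.card + 2 * q + 3 * s + 4 := by
  unfold FC
  simp only [List.length_append, Finset.length_toList, List.length_ofFn]
  omega

open Classical in
theorem RS_img_card {G : Type*} {s m : ℕ} {Z : Fin s → Fin m → G}
    (hinj : ∀ z z' i i', Z z i = Z z' i' → z = z' ∧ i = i') :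
    (univ.image fun z : Fin s × Fin m => Z z.1 z.2).card = m * s := by
  rw [Finset.card_image_of_injective]
  · rw [Finset.card_univ, Fintype.card_prod, Fintype.card_fin, Fintype.card_fin, mul_comm]
  · rintro ⟨z, i⟩ ⟨z', i'⟩ h
    obtain ⟨rfl, rfl⟩ := hinj _ _ _ _ h
    rfl

open Classical in
/-- the remaining vertices and colours -/
theorem rest_counts {G : Type} [AddCommGroup G] [Fintype G] {s m : ℕ} {A Om R Φ : Finset G}
    {Z : Fin s → Fin m → G} {h q : ℕ} {W D Q : Finset G} {p e : Fin q → G} {u a : Fin s → G}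
    {w₁ w₂ w₃ : G} {x₁ y₁ : Fin (q + 1) → G} {x₂ y₂ : Fin (s + 1) → G}
    (hF : Front A Om R Φ Z h q W D Q p e u a w₁ w₂ w₃ x₁ y₁ x₂ y₂) (hZ : Fam A 0 Z)
    (hR : R ⊆ A) (hZR : ∀ z i, Z z i ∉ R) (hA : Om.card + 1 = A.card) :
    ((Om \ W) \ (FV Q e u a w₁ w₂ w₃ x₁ x₂).toFinset).card + 2 * h + Q.card + q + 3 * s + 5 =
      Om.card ∧
    (((A \ R) \ univ.image fun z : Fin s × Fin m => Z z.1 z.2) \
      (FC D a x₁ y₁ x₂ y₂).toFinset).card =
      ((Om \ W) \ (FV Q e u a w₁ w₂ w₃ x₁ x₂).toFinset).card := by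
  have e1 : (FV Q e u a w₁ w₂ w₃ x₁ x₂).toFinset.card = Q.card + q + 3 * s + 5 := by
    rw [List.toFinset_card_of_nodup hF.ver, RS_FV_length]
  have e2 : (FC D a x₁ y₁ x₂ y₂).toFinset.card = D.card + 2 * q + 3 * s + 4 := by
    rw [List.toFinset_card_of_nodup hF.col, RS_FC_length]
  have s1 : (FV Q e u a w₁ w₂ w₃ x₁ x₂).toFinset ⊆ Om \ W := by
    intro x hx
    rw [List.mem_toFinset] at hx
    exact mem_sdiff.2 (hF.verO x hx)
  have s2 : (univ.image fun z : Fin s × Fin m => Z z.1 z.2) ⊆ A \ R := by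
    intro x hx
    rw [mem_image] at hx
    obtain ⟨z, _, rfl⟩ := hx
    exact mem_sdiff.2 ⟨hZ.mem _ _, hZR _ _⟩
  have s3 : (FC D a x₁ y₁ x₂ y₂).toFinset ⊆
      (A \ R) \ univ.image fun z : Fin s × Fin m => Z z.1 z.2 := by
    intro x hx
    rw [List.mem_toFinset] at hx
    obtain ⟨h1, h2, h3⟩ := hF.colA x hx
    refine mem_sdiff.2 ⟨mem_sdiff.2 ⟨h1, h2⟩, ?_⟩
    rw [mem_image]
    rintro ⟨z, _, h4⟩
    exact h3 z.1 z.2 h4
  have c1 := Finset.card_sdiff_add_card_eq_card s1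
  have c2 := Finset.card_sdiff_add_card_eq_card hF.WO
  have c3 := Finset.card_sdiff_add_card_eq_card s3
  have c4 := Finset.card_sdiff_add_card_eq_card s2
  have c5 := Finset.card_sdiff_add_card_eq_card hR
  rw [RS_img_card hZ.inj] at c4
  have hh := hF.hh
  have hW := hF.hW
  have hQD := hF.QD
  rw [e1] at c1
  rw [e2] at c3
  constructor <;> omega

theorem RS_P {G : Type*} [AddCommGroup G] {m : ℕ} (y : Fin m → G) : P y m = ∑ i, y i := by
  unfold P
  exact Finset.sum_congr rfl fun i _ => if_pos i.2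

theorem RS_toList_sum {G : Type*} [AddCommGroup G] (D : Finset G) :
    D.toList.sum = ∑ x ∈ D, x := by
  rw [← Finset.sum_map_toList D fun x => x, List.map_id']

open Classical in
/-- the sum of the front colours -/
theorem front_sum {G : Type} [AddCommGroup G] [Fintype G] {s m : ℕ} {A Om R Φ : Finset G}
    {Z : Fin s → Fin m → G} {h q : ℕ} {W D Q : Finset G} {p e : Fin q → G} {u a : Fin s → G}
    {w₁ w₂ w₃ : G} {x₁ y₁ : Fin (q + 1) → G} {x₂ y₂ : Fin (s + 1) → G}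
    (hF : Front A Om R Φ Z h q W D Q p e u a w₁ w₂ w₃ x₁ y₁ x₂ y₂) (hZ : Fam A 0 Z)
    (hR : R ⊆ A) (hZR : ∀ z i, Z z i ∉ R) :
    w₂ + ∑ x ∈ R ∪ (((A \ R) \ univ.image fun z : Fin s × Fin m => Z z.1 z.2) \
      (FC D a x₁ y₁ x₂ y₂).toFinset), x = ∑ x ∈ A, x := by
  have s2 : (univ.image fun z : Fin s × Fin m => Z z.1 z.2) ⊆ A \ R := by
    intro x hx
    rw [mem_image] at hx
    obtain ⟨z, _, rfl⟩ := hx
    exact mem_sdiff.2 ⟨hZ.mem _ _, hZR _ _⟩
  have s3 : (FC D a x₁ y₁ x₂ y₂).toFinset ⊆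
      (A \ R) \ univ.image fun z : Fin s × Fin m => Z z.1 z.2 := by
    intro x hx
    rw [List.mem_toFinset] at hx
    obtain ⟨h1, h2, h3⟩ := hF.colA x hx
    refine mem_sdiff.2 ⟨mem_sdiff.2 ⟨h1, h2⟩, ?_⟩
    rw [mem_image]
    rintro ⟨z, _, h4⟩
    exact h3 z.1 z.2 h4
  -- the stock
  have t1 : ∑ x ∈ (univ.image fun z : Fin s × Fin m => Z z.1 z.2), x = 0 := by
    rw [Finset.sum_image]
    · rw [Fintype.sum_prod_type]
      refine Finset.sum_eq_zero fun z _ => ?_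
      rw [← hZ.tot z, RS_P]
    · rintro ⟨z, i⟩ _ ⟨z', i'⟩ _ h
      obtain ⟨rfl, rfl⟩ := hZ.inj _ _ _ _ h
      rfl
  -- the absorber
  have t2 : ∑ x ∈ D, x = ∑ i, e i - ∑ i, p i := by
    obtain ⟨W', hW', hc⟩ := Finset.exists_subset_card_eq (s := W) (n := h) (by rw [hF.hW]; omega)
    obtain ⟨l, hl1, hl2, _⟩ := hF.abs W' hW' hc
    rw [← RS_toList_sum, ← hl2.sum_eq, List.sum_flatten, List.map_ofFn, List.sum_ofFn,
      ← Finset.sum_sub_distrib]
    refine Finset.sum_congr rfl fun i _ => ?_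
    rw [← hl1 i]
    simp
  -- the links
  have t3 : ∑ i, e i + ∑ i, x₁ i + ∑ i, y₁ i = ∑ i, p i + w₁ := by
    have h1 : ∑ i, ((Fin.cons 0 e : Fin (q + 1) → G) i + x₁ i + y₁ i) =
        ∑ i, (Fin.snoc p w₁ : Fin (q + 1) → G) i := Finset.sum_congr rfl fun i _ => hF.eq₁ i
    rw [Finset.sum_add_distrib, Finset.sum_add_distrib, Fin.sum_univ_succ (Fin.cons 0 e),
      Fin.sum_univ_castSucc (Fin.snoc p w₁)] at h1
    simpa only [Fin.cons_zero, Fin.cons_succ, Fin.snoc_castSucc, Fin.snoc_last, zero_add] using h1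
  have t4 : w₁ + (∑ z, u z + ∑ z, a z) + ∑ i, x₂ i + ∑ i, y₂ i = ∑ z, u z + w₂ := by
    have h1 : ∑ i, ((Fin.cons w₁ (fun z => u z + a z) : Fin (s + 1) → G) i + x₂ i + y₂ i) =
        ∑ i, (Fin.snoc u w₂ : Fin (s + 1) → G) i := Finset.sum_congr rfl fun i _ => hF.eq₂ i
    rw [Finset.sum_add_distrib, Finset.sum_add_distrib,
      Fin.sum_univ_succ (Fin.cons w₁ (fun z => u z + a z)),
      Fin.sum_univ_castSucc (Fin.snoc u w₂)] at h1
    simpa only [Fin.cons_zero, Fin.cons_succ, Fin.snoc_castSucc, Fin.snoc_last,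
      Finset.sum_add_distrib] using h1
  -- the front colours
  have t5 : ∑ x ∈ (FC D a x₁ y₁ x₂ y₂).toFinset, x = w₂ := by
    have h1 : ∑ x ∈ (FC D a x₁ y₁ x₂ y₂).toFinset, x = (FC D a x₁ y₁ x₂ y₂).sum := by
      rw [List.sum_toFinset _ hF.col, List.map_id']
    rw [h1]
    unfold FC
    simp only [List.sum_append, List.sum_ofFn, RS_toList_sum, t2]
    have h3 : ∑ i, x₁ i + ∑ i, y₁ i = ∑ i, p i + w₁ - ∑ i, e i := by
      rw [← t3]; abel
    have h4 : ∑ z, a z + (∑ i, x₂ i + ∑ i, y₂ i) = w₂ - w₁ := by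
      have : w₂ = w₁ + (∑ z, u z + ∑ z, a z) + ∑ i, x₂ i + ∑ i, y₂ i - ∑ z, u z := by
        rw [t4]; abel
      rw [this]; abel
    have h5 : ∑ i, e i - ∑ i, p i + (∑ i, x₁ i + (∑ i, y₁ i + (∑ z, a z + (∑ i, x₂ i +
        ∑ i, y₂ i)))) = ∑ i, e i - ∑ i, p i + ((∑ i, x₁ i + ∑ i, y₁ i) + (∑ z, a z + (∑ i, x₂ i +
        ∑ i, y₂ i))) := by abel
    rw [h5, h3, h4]
    abel
  -- all
  have d1 : Disjoint R (((A \ R) \ univ.image fun z : Fin s × Fin m => Z z.1 z.2) \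
      (FC D a x₁ y₁ x₂ y₂).toFinset) := by
    rw [Finset.disjoint_left]
    intro x hx hx'
    exact (mem_sdiff.1 (mem_sdiff.1 (mem_sdiff.1 hx').1).1).2 hx
  rw [Finset.sum_union d1]
  have c1 := Finset.sum_sdiff (f := fun x : G => x) s3
  have c2 := Finset.sum_sdiff (f := fun x : G => x) s2
  have c3 := Finset.sum_sdiff (f := fun x : G => x) hR
  rw [← c3, ← c2, ← c1, t1, t5]
  abel

end Pool.Agent.SNF
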