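import Pool.Agent.Lib_helper26.SNF.Defs
import Pool.Agent.Lib_helper26.SNF.CS
import Pool.Agent.Lib_helper26.SDN.PR

/-! Block SU (project SNF). -/

namespace Pool.Agent.SNF

open Finset Pool.Agent.SDN

theorem SU_small (κ : ℝ) (hκ : 0 < κ) (ε : ℝ) (hε : 0 < ε) : ∃ K : ℕ, ∀ n : ℕ, K ≤ n →
    (n : ℝ) ^ (1 - κ) ≤ ε * n := by
  have h1 : Filter.Tendsto (fun n : ℕ => (n : ℝ) ^ (-κ)) Filter.atTop (nhds 0) :=
    (tendsto_rpow_neg_atTop hκ).comp tendsto_natCast_atTop_atTop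
  have h2 : ∀ᶠ n : ℕ in Filter.atTop, (n : ℝ) ^ (-κ) < ε := h1.eventually (gt_mem_nhds hε)
  obtain ⟨K, hK⟩ := Filter.eventually_atTop.1 h2
  refine ⟨K + 1, fun n hn => ?_⟩
  have hn0 : (0 : ℝ) < n := by
    have : 0 < n := by omega
    exact_mod_cast this
  have h3 := hK n (by omega)
  have h4 : (n : ℝ) ^ (1 - κ) = n * (n : ℝ) ^ (-κ) := by
    rw [sub_eq_add_neg, Real.rpow_add hn0, Real.rpow_one]
  rw [h4, mul_comm]
  exact mul_le_mul_of_nonneg_right h3.le hn0.le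

theorem SU_const (C ε : ℝ) (hε : 0 < ε) : ∃ K : ℕ, ∀ n : ℕ, K ≤ n → C ≤ ε * n := by
  obtain ⟨K, hK⟩ := exists_nat_ge (C / ε)
  refine ⟨K, fun n hn => ?_⟩
  have h1 : (K : ℝ) ≤ n := by exact_mod_cast hn
  rw [div_le_iff₀ hε] at hK
  nlinarith

theorem SU_spr {V : Type} [AddCommGroup V] [Fintype V] (A : Finset V)
    (hA : 3 * Fintype.card V ≤ 4 * A.card) : Spr (⊤ : AddSubgroup V) (1 / 4) A := by
  classical
  intro K y hK
  have h1 : 2 * Nat.card K ≤ Fintype.card V := by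
    have h2 : Nat.card K ∣ Nat.card V := AddSubgroup.card_addSubgroup_dvd_card K
    have h3 : Nat.card K ≠ Nat.card V := by
      intro h
      have := AddSubgroup.eq_top_of_card_eq K h
      exact hK.ne this
    rw [Nat.card_eq_fintype_card (α := V)] at h2 h3
    obtain ⟨k, hk⟩ := h2
    have hV : 0 < Fintype.card V := Fintype.card_pos
    have hk0 : k ≠ 0 := by
      rintro rfl
      omega
    have hk1 : k ≠ 1 := by
      rintro rfl
      omega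
    have hk2 : 2 ≤ k := by omega
    calc 2 * Nat.card K = Nat.card K * 2 := by ring
      _ ≤ Nat.card K * k := Nat.mul_le_mul_left _ hk2
      _ = Fintype.card V := hk.symm
  have h4 : (A : Set V).ncard ≤ {b ∈ (A : Set V) | b - y ∉ K}.ncard + Nat.card K := by
    have h5 : (A : Set V) ⊆ {b ∈ (A : Set V) | b - y ∉ K} ∪ ((· + y) '' (K : Set V)) := by
      intro b hb
      by_cases hbK : b - y ∈ K
      · exact Or.inr ⟨b - y, hbK, by simp⟩
      · exact Or.inl ⟨hb, hbK⟩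
    have h6 := Set.ncard_le_ncard h5 (Set.toFinite _)
    have h7 := h6.trans (Set.ncard_union_le _ _)
    have h8 : ((· + y) '' (K : Set V)).ncard ≤ Nat.card K := by
      refine (Set.ncard_image_le (Set.toFinite _)).trans (le_of_eq ?_)
      rw [← Nat.card_coe_set_eq]
      rfl
    omega
  rw [Set.ncard_coe_finset] at h4
  have h9 : 4 * Nat.card K ≤ 2 * Fintype.card V := by omega
  have h10 : (A.card : ℝ) ≤ 4 * ({b ∈ (A : Set V) | b - y ∉ K}.ncard : ℝ) := by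
    have : A.card ≤ 4 * {b ∈ (A : Set V) | b - y ∉ K}.ncard := by omega
    exact_mod_cast this
  linarith

open Classical in
theorem setup : ∃ m : ℕ, 3 ≤ m ∧ ∀ θ κ : ℝ, 0 < θ → 0 < κ → ∃ K : ℕ,
    ∀ {G : Type} [AddCommGroup G] [Fintype G] (A : Finset G) (T : G), K ≤ Fintype.card G →
      (0 : G) ∉ A → 3 * Fintype.card G ≤ 4 * A.card →
      ∃ (s s₂ M : ℕ) (Z : Fin s → Fin m → G) (R : Finset G) (L : G → Fin s₂ → List G)
        (Φ₀ Φ₁ : Finset G), Fam A 0 Z ∧ R ⊆ A ∧ (∀ z i, Z z i ∉ R) ∧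
        (∀ y, y ≠ 0 → Lnk R y M (L y)) ∧ Disjoint Φ₀ Φ₁ ∧ (0 : G) ∉ Φ₀ ∧ (0 : G) ∉ Φ₁ ∧
        T ∉ Φ₀ ∧ T ∉ Φ₁ ∧ 20 ≤ s ∧ ((m * s + R.card : ℕ) : ℝ) ≤ θ * Fintype.card G ∧
        2 * (Φ₀.card + Φ₁.card) ≤ m * s ∧
        ∀ q₂ : ℕ, (q₂ : ℝ) ≤ (Fintype.card G : ℝ) ^ (1 - κ) →
          (∀ u y : G, y ≠ 0 → 2 * M * (q₂ + 1) <
            (univ.filter fun z => ∀ i ∈ (vs u (L y z)).dropLast, i ∈ Φ₁).card) ∧
          ∀ c : Fin (m + 1) → G, 10 * (m + 2) ^ 2 * (q₂ + R.card + 3) ≤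
            (univ.filter fun z => (∀ i, P (Z z) 1 + c i ∈ Φ₀) ∧
              ∀ j, 2 ≤ j → j < m → T + P (Z z) j ∈ Φ₀).card := by
  obtain ⟨m, t, hm, ht, c₁, hc₁, hprep⟩ := prep 1 le_rfl (1 / 2) (1 / 4) (by norm_num)
    (by norm_num)
  refine ⟨m, hm, fun θ κ hθ hκ => ?_⟩
  have hmR : (3 : ℝ) ≤ m := by exact_mod_cast hm
  have hm0 : (0 : ℝ) < m := by linarith
  obtain ⟨σ, hσ⟩ : ∃ σ, σ = min c₁ (θ / (2 * m)) := ⟨_, rfl⟩
  have hσ0 : 0 < σ := by rw [hσ]; exact lt_min hc₁ (by positivity)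
  have hσ1 : σ ≤ c₁ := by rw [hσ]; exact min_le_left _ _
  have hσ2 : m * σ ≤ θ / 2 := by
    have h : σ ≤ θ / (2 * m) := by rw [hσ]; exact min_le_right _ _
    calc m * σ ≤ m * (θ / (2 * m)) := mul_le_mul_of_nonneg_left h hm0.le
      _ = θ / 2 := by field_simp
  obtain ⟨N, hN⟩ := exists_nat_ge (max 2 (16 / (m * σ)))
  have hN2 : (2 : ℝ) ≤ N := (le_max_left _ _).trans hN
  have hN2' : 2 ≤ N := by exact_mod_cast hN2
  have hN0 : (0 : ℝ) < N := by linarith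
  have hN3 : 16 ≤ m * σ * N := by
    have h := (le_max_right _ _).trans hN
    rw [div_le_iff₀ (by positivity)] at h
    linarith
  obtain ⟨ρ, hρ⟩ : ∃ ρ, ρ = σ / (N : ℝ) ^ (2 * m + 1) := ⟨_, rfl⟩
  have hρ0 : 0 < ρ := by rw [hρ]; positivity
  obtain ⟨D, hD⟩ : ∃ D : ℝ, D = 10 * ((m : ℝ) + 2) ^ 2 := ⟨_, rfl⟩
  have hD0 : 0 < D := by rw [hD]; positivity
  obtain ⟨η, hη⟩ : ∃ η, η = min (θ / 2) (ρ / (4 * D)) := ⟨_, rfl⟩
  have hη0 : 0 < η := by rw [hη]; exact lt_min (by positivity) (by positivity)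
  have hη1 : η ≤ θ / 2 := by rw [hη]; exact min_le_left _ _
  have hη2 : D * η ≤ ρ / 4 := by
    have h : η ≤ ρ / (4 * D) := by rw [hη]; exact min_le_right _ _
    calc D * η ≤ D * (ρ / (4 * D)) := mul_le_mul_of_nonneg_left h hD0.le
      _ = ρ / 4 := by field_simp
  obtain ⟨M, hM, c₂, hc₂, K₁, hK₁⟩ := hprep η hη0
  obtain ⟨K₂, hK₂⟩ := classes m t N M hm ht hN2'
  obtain ⟨ω, hω⟩ : ∃ ω, ω = c₂ / (N : ℝ) ^ (M + m) := ⟨_, rfl⟩
  have hω0 : 0 < ω := by rw [hω]; positivity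
  -- smallness
  have hM0 : (0 : ℝ) < M := by exact_mod_cast hM
  obtain ⟨K₃, hK₃⟩ := SU_small κ hκ (min (ω / (8 * M)) (ρ / (8 * D))) (lt_min (by positivity)
    (by positivity))
  obtain ⟨K₄, hK₄⟩ := SU_small (1 / 3) (by norm_num) (min (min (ω / 4) (ρ / 8)) (m * σ / 16))
    (lt_min (lt_min (by positivity) (by positivity)) (by positivity))
  obtain ⟨K₅, hK₅⟩ := SU_const (2 * M + 3) (ω / 4) (by positivity)
  obtain ⟨K₆, hK₆⟩ := SU_const (3 * D + (2 * m + 3) + 1) (ρ / 8) (by positivity)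
  obtain ⟨K₇, hK₇⟩ := SU_const 21 σ hσ0
  obtain ⟨K₈, hK₈⟩ := SU_const m (m * σ / 16) (by positivity)
  refine ⟨K₁ + K₂ + K₃ + K₄ + K₅ + K₆ + K₇ + K₈, ?_⟩
  intro G _ _ A T hG h0 hA
  obtain ⟨n, hn⟩ : ∃ n, n = Fintype.card G := ⟨_, rfl⟩
  rw [← hn] at hG hA
  have hAR : (3 : ℝ) * n ≤ 4 * A.card := by exact_mod_cast hA
  have hnR : (0 : ℝ) ≤ n := Nat.cast_nonneg n
  obtain ⟨s₀, Z₀, c₀, R, s₂, L, hF, hci, hcA, hZc, hRA, hZR, hcR, hRn, hs, hs₂, hL, -⟩ :=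
    hK₁ (V := G) ⊤ 0 A (by rw [← hn]; omega) (fun y => ⟨0, AddSubgroup.mem_top _⟩)
      (AddSubgroup.mem_top _) (fun b _ => AddSubgroup.mem_top _) h0 (by
        have h1 : Nat.card (⊤ : AddSubgroup G) = n := by
          rw [AddSubgroup.card_top, Nat.card_eq_fintype_card, hn]
        rw [h1]; linarith) (SU_spr A (by rw [← hn]; exact hA))
  rw [← hn] at hRn hs hs₂
  have hk3 := hK₃ n (by omega)
  have hk4 := hK₄ n (by omega)
  have hk5 := hK₅ n (by omega)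
  have hk6 := hK₆ n (by omega)
  have hk7 := hK₇ n (by omega)
  have hk8 := hK₈ n (by omega)
  obtain ⟨s, hsdef⟩ : ∃ s, s = ⌊σ * n⌋₊ := ⟨_, rfl⟩
  have hs1 : (s : ℝ) ≤ σ * n := by rw [hsdef]; exact Nat.floor_le (by positivity)
  have hs2 : σ * n < s + 1 := by rw [hsdef]; exact Nat.lt_floor_add_one _
  have hss : s ≤ s₀ := by
    have h : (s : ℝ) ≤ s₀ := by
      have h2 : σ * n ≤ c₁ * n := mul_le_mul_of_nonneg_right hσ1 hnR
      linarith
    exact_mod_cast h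
  have hs20 : 20 ≤ s := by
    have h : (20 : ℝ) < s + 1 - 0 := by linarith
    have h2 : (20 : ℝ) < ((s + 1 : ℕ) : ℝ) := by push_cast; linarith
    have h3 : 20 < s + 1 := by exact_mod_cast h2
    omega
  have hF' : Fam A 0 (fun z : Fin s => Z₀ (Fin.castLE hss z)) := by
    have hinj : ∀ z z' : Fin s, z ≠ z' → Fin.castLE hss z ≠ Fin.castLE hss z' :=
      fun z z' h h2 => h (Fin.castLE_injective hss h2)
    exact
    { mem := fun z i => hF.mem _ i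
      inj := fun z z' i i' h => by
        obtain ⟨h1, h2⟩ := hF.inj _ _ i i' h
        exact ⟨Fin.castLE_injective hss h1, h2⟩
      tot := fun z => hF.tot _
      win := fun z => hF.win _
      cross := fun z z' i j h => hF.cross _ _ i j (hinj z z' h)
      pre := fun z z' i j h => hF.pre _ _ i j (hinj z z' h) }
  have hts : t * s ≤ t * s₀ := Nat.mul_le_mul_left _ hss
  obtain ⟨Φ₀, Φ₁, hd, h00, h01, hT0, hT1, hc0, hc1, hu, hcc⟩ := hK₂ (G := G) (s := s) (s₂ := s₂)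
    (fun z : Fin s => Z₀ (Fin.castLE hss z)) A (fun i => c₀ (Fin.castLE hts i)) R L T
    (by rw [← hn]; omega) (by omega) hF' (hci.comp (Fin.castLE_injective hts))
    (fun i h => h0 (by rw [← h]; exact hcA _)) hL
  rw [← hn] at hc0 hc1 hu hcc
  have hk4' : (n : ℝ) ^ (2 / 3 : ℝ) ≤ (min (min (ω / 4) (ρ / 8)) (m * σ / 16)) * n := by
    have h : (1 : ℝ) - 1 / 3 = 2 / 3 := by norm_num
    rw [h] at hk4
    exact hk4
  have hp1 : (n : ℝ) ^ (2 / 3 : ℝ) ≤ ω / 4 * n := hk4'.trans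
    (mul_le_mul_of_nonneg_right ((min_le_left _ _).trans (min_le_left _ _)) hnR)
  have hp2 : (n : ℝ) ^ (2 / 3 : ℝ) ≤ ρ / 8 * n := hk4'.trans
    (mul_le_mul_of_nonneg_right ((min_le_left _ _).trans (min_le_right _ _)) hnR)
  have hp3 : (n : ℝ) ^ (2 / 3 : ℝ) ≤ m * σ / 16 * n := hk4'.trans
    (mul_le_mul_of_nonneg_right (min_le_right _ _) hnR)
  have hq1 : (n : ℝ) ^ (1 - κ) ≤ ω / (8 * M) * n := hk3.trans
    (mul_le_mul_of_nonneg_right (min_le_left _ _) hnR)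
  have hq2 : (n : ℝ) ^ (1 - κ) ≤ ρ / (8 * D) * n := hk3.trans
    (mul_le_mul_of_nonneg_right (min_le_right _ _) hnR)
  refine ⟨s, s₂, M, fun z : Fin s => Z₀ (Fin.castLE hss z), R, L, Φ₀, Φ₁, hF', hRA,
    fun z i => hZR _ i, hL, hd, h00, h01, hT0, hT1, hs20, ?_, ?_, ?_⟩
  · rw [← hn]
    push_cast
    have h1 : (m : ℝ) * s ≤ m * (σ * n) := mul_le_mul_of_nonneg_left hs1 hm0.le
    have h2 : (m : ℝ) * (σ * n) ≤ θ / 2 * n := by
      rw [← mul_assoc]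
      exact mul_le_mul_of_nonneg_right hσ2 hnR
    have h3 : η * n ≤ θ / 2 * n := mul_le_mul_of_nonneg_right hη1 hnR
    linarith
  · have h1 : (n : ℝ) / N ≤ m * σ / 16 * n := by
      rw [div_le_iff₀ hN0]
      have : (n : ℝ) * 16 ≤ n * (m * σ * N) := mul_le_mul_of_nonneg_left hN3 hnR
      linarith
    have h2 : (m : ℝ) * (σ * n) ≤ m * s + m := by
      have := mul_le_mul_of_nonneg_left hs2.le hm0.le
      linarith
    have h3 : (2 * (Φ₀.card + Φ₁.card) : ℝ) ≤ m * s := by linarith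
    exact_mod_cast h3
  · intro q₂ hq₂
    rw [← hn] at hq₂
    constructor
    · intro u y hy
      have h1 := hu u y hy
      have h2 : ω * n ≤ (s₂ : ℝ) / (N : ℝ) ^ (M + m) := by
        rw [hω, div_mul_eq_mul_div]
        exact div_le_div_of_nonneg_right hs₂ (by positivity)
      have h3 : (M : ℝ) * q₂ ≤ ω / 8 * n := by
        calc (M : ℝ) * q₂ ≤ M * (ω / (8 * M) * n) :=
              mul_le_mul_of_nonneg_left (hq₂.trans hq1) hM0.le
          _ = ω / 8 * n := by field_simp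
      have h4 : ((2 * M * (q₂ + 1) : ℕ) : ℝ) < ((univ.filter fun z =>
          ∀ i ∈ (vs u (L y z)).dropLast, i ∈ Φ₁).card : ℝ) := by
        push_cast
        have hωn : 0 ≤ ω * n := by positivity
        linarith
      exact_mod_cast h4
    · intro c'
      have h1 := hcc c'
      have hNp : (1 : ℝ) ≤ (N : ℝ) ^ (2 * m + 1) := one_le_pow₀ (by linarith)
      have h2 : ρ * n - 1 ≤ (s : ℝ) / (N : ℝ) ^ (2 * m + 1) := by
        rw [le_div_iff₀ (by positivity), hρ]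
        have h3 : (σ / (N : ℝ) ^ (2 * m + 1) * n - 1) * (N : ℝ) ^ (2 * m + 1) =
            σ * n - (N : ℝ) ^ (2 * m + 1) := by
          field_simp
        rw [h3]
        linarith
      have h3 : D * q₂ ≤ ρ / 8 * n := by
        calc D * q₂ ≤ D * (ρ / (8 * D) * n) :=
              mul_le_mul_of_nonneg_left (hq₂.trans hq2) hD0.le
          _ = ρ / 8 * n := by field_simp
      have h4 : D * R.card ≤ ρ / 4 * n := by
        calc D * (R.card : ℝ) ≤ D * (η * n) := mul_le_mul_of_nonneg_left hRn hD0.le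
          _ = D * η * n := by ring
          _ ≤ ρ / 4 * n := mul_le_mul_of_nonneg_right hη2 hnR
      have h5 : ((10 * (m + 2) ^ 2 * (q₂ + R.card + 3) : ℕ) : ℝ) ≤ ((univ.filter fun z =>
          (∀ i, P (Z₀ (Fin.castLE hss z)) 1 + c' i ∈ Φ₀) ∧
          ∀ j, 2 ≤ j → j < m → T + P (Z₀ (Fin.castLE hss z)) j ∈ Φ₀).card : ℝ) := by
        push_cast
        rw [← hD]
        have hρn : 0 ≤ ρ * n := by positivity
        have h6 : D * ((q₂ : ℝ) + R.card + 3) = D * q₂ + D * R.card + 3 * D := by ring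
        rw [h6]
        linarith
      exact_mod_cast h5

end Pool.Agent.SNF
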