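import Pool.Agent.Lib_helper26.SNF.FT
import Pool.Agent.Lib_helper26.SNF.SU
import Pool.Agent.Lib_helper26.SNF.PC
import Pool.Agent.Lib_helper26.SNF.RS
import Pool.Agent.Lib_helper26.SNF.MD
import Pool.Agent.Lib_helper26.SNF.CW
import Pool.Agent.Lib_helper26.SNF.FN
import Pool.Agent.Lib_helper26.SDN.QS
import Pool.Agent.Lib_helper26.SDN.VX

/-!
The nearly full case: the assembly.
-/

namespace Pool.Agent.SNF

open Finset Pool.Agent.SDN

open Classical in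
theorem nf_core {G : Type} [AddCommGroup G] [Fintype G] {s m s₂ M : ℕ} (hm : 3 ≤ m)
    (A Om R Φ₀ Φ₁ : Finset G) (Z : Fin s → Fin m → G) (L : G → Fin s₂ → List G) (T : G)
    (hTA : T = ∑ x ∈ A, x) (h0A : (0 : G) ∉ A) (hZ : Fam A 0 Z) (hRA : R ⊆ A)
    (hZR : ∀ z i, Z z i ∉ R) (hL : ∀ y, y ≠ 0 → Lnk R y M (L y)) (hΦ : Disjoint Φ₀ Φ₁)
    (h0 : (0 : G) ∉ Om) (hT : T ∉ Om) (hOA : Om.card + 1 = A.card)
    {h q : ℕ} {W D Q : Finset G} {p e : Fin q → G} {u a : Fin s → G} {w₁ w₂ w₃ : G}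
    {x₁ y₁ : Fin (q + 1) → G} {x₂ y₂ : Fin (s + 1) → G}
    (hF : Front A Om R (Φ₀ ∪ Φ₁) Z h q W D Q p e u a w₁ w₂ w₃ x₁ y₁ x₂ y₂) (X B : Finset G)
    (hX : X = (Om \ W) \ (FV Q e u a w₁ w₂ w₃ x₁ x₂).toFinset)
    (hB : B = ((A \ R) \ univ.image fun z : Fin s × Fin m => Z z.1 z.2) \
      (FC D a x₁ y₁ x₂ y₂).toFinset) (hXB : X.card = B.card)
    (q₂ : ℕ) (v : Fin q₂ → G) (l : Fin q₂ → List G)
    (hXl : ((List.ofFn fun i => v i :: vs (v i) (l i)).flatten).Perm X.toList)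
    (hln : ((List.ofFn l).flatten).Nodup) (hlB : ∀ a ∈ (List.ofFn l).flatten, a ∈ B)
    (hk1 : ∀ u y : G, y ≠ 0 → 2 * M * (q₂ + 1) <
            (univ.filter fun z => ∀ i ∈ (vs u (L y z)).dropLast, i ∈ Φ₁).card)
    (hk2 : ∀ c : Fin (m + 1) → G, 10 * (m + 2) ^ 2 * (q₂ + R.card + 3) ≤
            (univ.filter fun z => (∀ i, P (Z z) 1 + c i ∈ Φ₀) ∧
              ∀ j, 2 ≤ j → j < m → T + P (Z z) j ∈ Φ₀).card) :
    ∃ l : List G, l.Nodup ∧ (∀ x, x ∈ l ↔ x ∈ A) ∧ (vs 0 l).Nodup ∧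
      (0 : G) ∉ (vs 0 l).dropLast := by
  -- basic facts on the way points
  have hFV := hF.ver
  have hw23 : w₂ ≠ w₃ := by
    have h1 : List.Sublist [w₁, w₂, w₃] (FV Q e u a w₁ w₂ w₃ x₁ x₂) := by
      unfold FV
      refine List.Sublist.trans ?_ (List.sublist_append_right _ _)
      refine List.Sublist.trans ?_ (List.sublist_append_right _ _)
      refine List.Sublist.trans ?_ (List.sublist_append_right _ _)
      refine List.Sublist.trans ?_ (List.sublist_append_right _ _)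
      exact List.sublist_append_right _ _
    have h2 := h1.nodup hFV
    simp only [List.nodup_cons, List.mem_cons, List.not_mem_nil, or_false, not_or] at h2
    exact h2.2.1
  have hmem2 : w₂ ∈ FV Q e u a w₁ w₂ w₃ x₁ x₂ := by simp [FV]
  have hmem3 : w₃ ∈ FV Q e u a w₁ w₂ w₃ x₁ x₂ := by simp [FV]
  have hw2X : w₂ ∉ X := by rw [hX]; simp [hmem2]
  have hw3X : w₃ ∉ X := by rw [hX]; simp [hmem3]
  have hXW : Disjoint X W := by
    rw [hX]
    exact Finset.disjoint_left.2 fun x hx hxW => (mem_sdiff.1 (mem_sdiff.1 hx).1).2 hxW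
  have hΦW : Φ₀ ∪ Φ₁ ⊆ W := hF.ΦW
  have hXΦ : Disjoint X Φ₁ := hXW.mono_right (subset_union_right.trans hΦW)
  have hBR : Disjoint B R := by
    rw [hB]
    exact Finset.disjoint_left.2 fun x hx hxR =>
      (mem_sdiff.1 (mem_sdiff.1 (mem_sdiff.1 hx).1).1).2 hxR
  have hBA : B ⊆ A := by
    rw [hB]
    intro x hx
    exact (mem_sdiff.1 (mem_sdiff.1 (mem_sdiff.1 hx).1).1).1
  obtain ⟨k, hk0, hks, hkn, hkBR, hkc, hkl, hkv, hkX, hkΦ⟩ := middle X B R Φ₁ w₂ w₃ hw23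
    hw2X hw3X hXΦ hBR L hL hk1 v l hXl hln hlB
  -- the tail
  have hΛcard : ((B ∪ R) \ k.toFinset).card ≤ q₂ + R.card := by
    have h1 : (B ∪ R) \ k.toFinset ⊆ (B \ (k.toFinset ∩ B)) ∪ R := by
      intro x hx
      rw [mem_sdiff, mem_union] at hx
      rw [mem_union, mem_sdiff, mem_inter]
      tauto
    have h2 := (card_le_card h1).trans (card_union_le _ _)
    have h3 : (B \ (k.toFinset ∩ B)).card = B.card - (k.toFinset ∩ B).card :=
      card_sdiff_of_subset inter_subset_right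
    omega
  have hsum : w₃ + ((B ∪ R) \ k.toFinset).toList.sum = T := by
    have h1 := front_sum hF hZ hRA hZR
    rw [← hB] at h1
    have h2 : k.toFinset ⊆ B ∪ R := by
      intro x hx
      rw [List.mem_toFinset] at hx
      rw [mem_union]
      exact hkBR x hx
    have h3 : ∑ x ∈ (B ∪ R) \ k.toFinset, x + ∑ x ∈ k.toFinset, x = ∑ x ∈ B ∪ R, x :=
      Finset.sum_sdiff h2
    have h4 : ∑ x ∈ k.toFinset, x = k.sum := by
      rw [List.sum_toFinset _ hkn, List.map_id']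
    have h5 : ((B ∪ R) \ k.toFinset).toList.sum = ∑ x ∈ (B ∪ R) \ k.toFinset, x := by
      rw [← Finset.sum_map_toList]
      simp
    rw [h5, hTA, ← h1, union_comm R B, ← h3, h4, ← hks]
    abel
  obtain ⟨U, l₄, hUS, hUc, hl₄, hvn, hvl, hvW⟩ := stepping (s := s) (m := m) hm Z A hZ univ
    (Φ₀ᶜ) T w₃ ((B ∪ R) \ k.toFinset).toList (by
      intro x hx
      rw [mem_toList, mem_sdiff, mem_union] at hx
      intro hx0
      subst hx0
      rcases hx.1 with hx1 | hx1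
      · exact h0A (hBA hx1)
      · exact h0A (hRA hx1)) hsum (10 * (m + 2) ^ 2 * (q₂ + R.card + 3)) (by
      intro c
      refine (hk2 c).trans (card_le_card ?_)
      intro z hz
      simp only [mem_filter, mem_univ, true_and, mem_compl, not_not] at hz ⊢
      exact hz) (by
      refine Nat.mul_le_mul_left _ ?_
      rw [length_toList]
      omega)
  have hl₄0 : l₄ ≠ [] := by
    intro h
    rw [h] at hvl
    simp [vs] at hvl
  have hvn' : (vs w₃ l₄).dropLast.Nodup := by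
    rw [hvl] at hvn
    exact (List.nodup_append.1 hvn).1
  have hvΦ : ∀ x ∈ (vs w₃ l₄).dropLast, x ∈ Φ₀ := by
    intro x hx
    have h1 := (hvW x hx).1
    rwa [mem_compl, not_not] at h1
  have hcount := count_left Φ₀ Φ₁ hF hm hΦ X B hXW hXB hBR k hkn hkBR hkv hkX hkΦ hk0 U l₄
    hl₄ hl₄0 hvn' hvΦ
  exact final_list Φ₀ Φ₁ hF hm hZ hRA hZR h0 hT hΦ X B hX hB hXB k hkn hkBR hks hkl hkv hkX hkΦ
    U l₄ hl₄ hvl hvn' hvΦ hcount

open Classical in
theorem near_full : ∃ C K : ℕ, ∀ {G : Type} [AddCommGroup G] [Fintype G] (A : Finset G),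
    K ≤ Fintype.card G → (0 : G) ∉ A → C * (Fintype.card G - A.card) ≤ Fintype.card G →
    ∃ l : List G, l.Nodup ∧ (∀ x, x ∈ l ↔ x ∈ A) ∧ (vs 0 l).Nodup ∧
      (0 : G) ∉ (vs 0 l).dropLast := by
  obtain ⟨m, hm, hsetup⟩ := setup
  obtain ⟨C₂, hfront⟩ := front
  obtain ⟨κ, hκ0, hκ1, K₁, hpc⟩ := path_cover
  have hm2 : 25 ≤ (m + 2) ^ 2 := by nlinarith
  obtain ⟨C, hC0, hC1, hC2⟩ : ∃ C : ℕ, 0 < C ∧ 25000 * (C₂ + 1) ≤ C ∧
      1000 * (C₂ * (m + 2) ^ 2) ≤ C := by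
    refine ⟨1000 * ((C₂ + 1) * (m + 2) ^ 2), by positivity, ?_, ?_⟩
    · have h1 : (C₂ + 1) * 25 ≤ (C₂ + 1) * (m + 2) ^ 2 := Nat.mul_le_mul_left _ hm2
      omega
    · have h1 : C₂ * (m + 2) ^ 2 ≤ (C₂ + 1) * (m + 2) ^ 2 :=
        Nat.mul_le_mul_right _ (Nat.le_succ _)
      omega
  have hC3 : 25000 ≤ C := by omega
  obtain ⟨K₂, hK₂⟩ := hsetup (1 / C) κ (by positivity) hκ0
  refine ⟨C, K₁ + K₂ + C + 1000, fun {G} _ _ A hK h0 hCA => ?_⟩
  set n := Fintype.card G with hn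
  have hCn : C ≤ n := by omega
  have hAn : A.card + 1 ≤ n := by
    have h1 : A ⊆ univ.erase 0 := fun x hx =>
      mem_erase.2 ⟨fun h => h0 (h ▸ hx), mem_univ _⟩
    have h2 := card_le_card h1
    rw [card_erase_of_mem (mem_univ _), card_univ] at h2
    have h3 : 0 < n := Fintype.card_pos
    omega
  -- the deficiency
  obtain ⟨δ, hδ⟩ : ∃ δ, δ = n - A.card := ⟨_, rfl⟩
  rw [← hδ] at hCA
  have hδn : 25000 * δ ≤ n := (Nat.mul_le_mul_right δ hC3).trans hCA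
  set T := ∑ x ∈ A, x with hT
  obtain ⟨s, s₂, M, Z, R, L, Φ₀, Φ₁, hZ, hRA, hZR, hL, hΦ, h00, h01, hT0, hT1, hs, hθ, hΦc,
    hq⟩ := hK₂ A T (by omega) h0 (by omega)
  obtain ⟨S, hS⟩ : ∃ S, S = m * s + R.card := ⟨_, rfl⟩
  have hSn : C * S ≤ n := by
    rw [← hS] at hθ
    have h1 : (0 : ℝ) < C := by exact_mod_cast hC0
    have h2 : (C : ℝ) * S ≤ n := by
      have := mul_le_mul_of_nonneg_left hθ h1.le
      have h3 : (C : ℝ) * (1 / C * n) = n := by field_simp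
      linarith
    exact_mod_cast h2
  have h3s : 3 * s ≤ S := by
    rw [hS]
    have := Nat.mul_le_mul_right s hm
    omega
  -- the set Om
  have hΦcard : (Φ₀ ∪ Φ₁).card ≤ A.card - 1 := by
    have h1 := card_union_le Φ₀ Φ₁
    have h2 : 25000 * S ≤ n := (Nat.mul_le_mul_right S hC3).trans hSn
    have h3 : m * s ≤ S := by omega
    omega
  have hsub : Φ₀ ∪ Φ₁ ⊆ (univ : Finset G) \ {0, T} := by
    intro x hx
    rw [mem_sdiff]
    refine ⟨mem_univ _, fun h => ?_⟩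
    rw [mem_insert, mem_singleton] at h
    rw [mem_union] at hx
    rcases h with rfl | rfl <;> tauto
  have hcard : A.card - 1 ≤ ((univ : Finset G) \ {0, T}).card := by
    rw [card_sdiff_of_subset (subset_univ _), card_univ]
    by_cases hT00 : T = 0
    · rw [hT00]
      simp only [pair_eq_singleton, card_singleton]
      omega
    · rw [card_pair (Ne.symm hT00)]
      omega
  obtain ⟨Om, hΦO, hOm, hOc⟩ := exists_subsuperset_card_eq hsub hΦcard hcard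
  have hApos : 1 ≤ A.card := by omega
  have hOA : Om.card + 1 = A.card := by omega
  have h0O : (0 : G) ∉ Om := fun h => by
    have := hOm h
    simp at this
  have hTO : T ∉ Om := fun h => by
    have := hOm h
    simp at this
  have hΦ2 : 2 * (Φ₀ ∪ Φ₁).card ≤ m * s := by
    have h1 := card_union_le Φ₀ Φ₁
    omega
  have hbig : C₂ * (m + 2) ^ 2 * (m * s + R.card + (n - Om.card)) ≤ n := by
    rw [← hS]
    have h1 : n - Om.card = δ + 1 := by omega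
    rw [h1]
    have h3 : 1000 * (C₂ * (m + 2) ^ 2 * (S + (δ + 1))) ≤ 1000 * n := by
      calc 1000 * (C₂ * (m + 2) ^ 2 * (S + (δ + 1)))
          = (1000 * (C₂ * (m + 2) ^ 2)) * (S + (δ + 1)) := by ring
        _ ≤ C * (S + (δ + 1)) := Nat.mul_le_mul_right _ hC2
        _ = C * S + C * δ + C := by ring
        _ ≤ 1000 * n := by omega
    omega
  obtain ⟨h, q, W, D, Q, p, e, u, a, w₁, w₂, w₃, x₁, y₁, x₂, y₂, hq1, hQ1, hF⟩ :=
    hfront A Om R (Φ₀ ∪ Φ₁) Z hm hs hZ hRA hZR h0 h0O hOA hΦO hΦ2 hbig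
  obtain ⟨hX1, hB1⟩ := rest_counts hF hZ hRA hZR hOA
  set X := (Om \ W) \ (FV Q e u a w₁ w₂ w₃ x₁ x₂).toFinset with hX
  set B := ((A \ R) \ univ.image fun z : Fin s × Fin m => Z z.1 z.2) \
      (FC D a x₁ y₁ x₂ y₂).toFinset with hB
  have h0B : (0 : G) ∉ B := fun h => by
    rw [hB] at h
    exact h0 (mem_sdiff.1 (mem_sdiff.1 (mem_sdiff.1 h).1).1).1
  have hX50 : 50 * (n - X.card) ≤ n := by
    have hh := hF.hh
    rw [← hS] at hq1 hQ1 hh
    have h1 : 25000 * ((C₂ + 1) * S) ≤ n := by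
      calc 25000 * ((C₂ + 1) * S) = 25000 * (C₂ + 1) * S := by ring
        _ ≤ C * S := Nat.mul_le_mul_right _ hC1
        _ ≤ n := hSn
    have h3 : (C₂ + 1) * S = C₂ * S + S := by ring
    omega
  obtain ⟨q₂, v, l, hq₂, hXl, hln, hlB⟩ := hpc X B (by omega) hB1.symm hX50 h0B
  obtain ⟨hk1, hk2⟩ := hq q₂ hq₂
  exact nf_core hm A Om R Φ₀ Φ₁ Z L T rfl h0 hZ hRA hZR hL hΦ h0O hTO hOA hF X B hX hB hB1.symm
    q₂ v l hXl hln hlB hk1 hk2

end Pool.Agent.SNF
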